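import Pool.Agent.L0h94.FT.Loc2

/-!
# The average over the local conditions
-/

set_option autoImplicit false

namespace Pool.Agent.L0h94.FT

open Finset Polynomial Pool.Agent.W262.RK Pool.Agent.L0h5.TF Pool.Agent.L0h5.MR Pool.Agent.L0h5.AG

/-- pairs of vectors -/
abbrev R4 : Type := (Bool × Bool) × (Bool × Bool)

/-- the zeros of the quadratic form -/
def T10 : Finset R4 := univ.filter (fun r => xor (r.1.1 && r.2.1) (r.1.2 && r.2.2) = false)

/-- the bilinear form -/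
def om (r r' : R4) : Bool :=
  xor (xor (r.1.1 && r'.2.1) (r.1.2 && r'.2.2)) (xor (r'.1.1 && r.2.1) (r'.1.2 && r.2.2))

/-- zero -/
def z4 : R4 := ((false, false), (false, false))

lemma c6 : ∀ b ∈ T10, b ≠ z4 → (T10.filter (fun a => om b a = false)).card ≤ 6 := by decide

lemma c4 : ∀ b ∈ T10, ∀ b' ∈ T10, b ≠ z4 → b' ≠ z4 → b ≠ b' →
    (T10.filter (fun a => om b a = false ∧ om b' a = false)).card ≤ 4 := by decide

lemma c10 : T10.card = 10 := by decide

lemma cc6 {A B : Finset R4} (hA : A ⊆ T10) (hB : B ⊆ T10) (h : ∀ b ∈ B, ∀ a ∈ A, om b a = false)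
    (h2 : 2 ≤ B.card) : A.card ≤ 6 := by
  obtain ⟨b, hb, hb0⟩ := exists_mem_ne (by omega : 1 < B.card) z4
  refine le_trans (card_le_card fun a ha => ?_) (c6 b (hB hb) hb0)
  rw [mem_filter]
  exact ⟨hA ha, h b hb a ha⟩

lemma cc4 {A B : Finset R4} (hA : A ⊆ T10) (hB : B ⊆ T10) (h : ∀ b ∈ B, ∀ a ∈ A, om b a = false)
    (h3 : 3 ≤ B.card) : A.card ≤ 4 := by
  have h1 : 1 < (B.erase z4).card := by
    have := pred_card_le_card_erase (s := B) (a := z4)
    omega
  obtain ⟨b, hb, b', hb', hbb⟩ := one_lt_card.1 h1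
  rw [mem_erase] at hb hb'
  refine le_trans (card_le_card fun a ha => ?_) (c4 b (hB hb.2) b' (hB hb'.2) hb.1 hb'.1 hbb)
  rw [mem_filter]
  exact ⟨hA ha, h b hb.2 a ha, h b' hb'.2 a ha⟩

/-- the combinatorial bound -/
lemma comb2 (U : Finset I2) (hU : ∀ i ∈ U, ∀ j ∈ U, Lki lb2 i j = Lki lb2 j i) :
    U.card ≤ 12 := by
  classical
  set W : Fin 3 → Finset R4 := fun c => (U.filter (fun i => i.1.1 = c)).image (fun i => i.1.2)
    with hW
  have hWT : ∀ c, W c ⊆ T10 := by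
    intro c r hr
    rw [hW, mem_image] at hr
    obtain ⟨i, -, rfl⟩ := hr
    unfold T10
    rw [mem_filter]
    exact ⟨mem_univ _, i.2⟩
  have hcard : U.card = ∑ c, (W c).card := by
    rw [card_eq_sum_card_fiberwise (f := fun i : I2 => i.1.1) (t := univ) (fun i _ => mem_univ _)]
    refine sum_congr rfl fun c _ => ?_
    rw [hW, card_image_of_injOn]
    intro i hi j hj hij
    have h1 := (mem_filter.1 (mem_coe.1 hi)).2
    have h2 := (mem_filter.1 (mem_coe.1 hj)).2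
    exact Subtype.ext (Prod.ext (h1.trans h2.symm) hij)
  have horth : ∀ c c', c ≠ c' → ∀ b ∈ W c, ∀ a ∈ W c', om b a = false := by
    intro c c' hcc b hb a ha
    rw [hW, mem_image] at hb ha
    obtain ⟨i, hi, rfl⟩ := hb
    obtain ⟨j, hj, rfl⟩ := ha
    rw [mem_filter] at hi hj
    have h1 := hU i hi.1 j hj.1
    have h2 : i.1.1 ≠ j.1.1 := by
      rw [hi.2, hj.2]
      exact hcc
    rw [Lki_lb2, Lki_lb2] at h1
    simp only [h2, h2.symm, ne_eq, not_false_eq_true, decide_true, Bool.true_and] at h1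
    unfold om
    rw [h1]
    simp
  rw [hcard, Fin.sum_univ_three]
  have k10 : ∀ c, (W c).card ≤ 10 := fun c => by
    have := card_le_card (hWT c)
    rwa [c10] at this
  have a0 := k10 0
  have a1 := k10 1
  have a2 := k10 2
  have s6 : ∀ c c', c ≠ c' → (2 ≤ (W c).card → (W c').card ≤ 6) := fun c c' h h2 =>
    cc6 (hWT c') (hWT c) (horth c c' h) h2
  have s4 : ∀ c c', c ≠ c' → (3 ≤ (W c).card → (W c').card ≤ 4) := fun c c' h h2 =>
    cc4 (hWT c') (hWT c) (horth c c' h) h2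
  have b01 := s6 0 1 (by decide)
  have b02 := s6 0 2 (by decide)
  have b12 := s6 1 2 (by decide)
  have b10 := s6 1 0 (by decide)
  have b20 := s6 2 0 (by decide)
  have b21 := s6 2 1 (by decide)
  have d01 := s4 0 1 (by decide)
  have d02 := s4 0 2 (by decide)
  have d12 := s4 1 2 (by decide)
  have d10 := s4 1 0 (by decide)
  have d20 := s4 2 0 (by decide)
  have d21 := s4 2 1 (by decide)
  omega

lemma rho_X (p : ℕ) (hp : 0 < p) : rho (X : ℤ[X]) p = 1 := by
  unfold rho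
  rw [card_eq_one]
  refine ⟨0, ?_⟩
  ext r
  rw [mem_filter, mem_range, mem_singleton, eval_X, Int.natCast_dvd_natCast]
  constructor
  · rintro ⟨h1, h2⟩
    exact Nat.eq_zero_of_dvd_of_lt h2 h1
  · rintro rfl
    exact ⟨hp, dvd_zero _⟩

/-- Mertens -/
lemma mert (z : ℕ) (hz : 8 ≤ z) : ∃ C : ℝ, ∀ y : ℕ, z < y →
    ∑ p ∈ PS z y, (1 : ℝ) / ((p : ℝ) - 3) ≤ Real.log (Real.log y) + C := by
  have hX : Irreducible ((X : ℤ[X]).map (Int.castRingHom ℚ)) := by
    rw [Polynomial.map_X]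
    exact irreducible_X
  obtain ⟨C, hC⟩ := sum_rho_c (X : ℤ[X]) hX 3 z (by omega) (fun p hp _ hd => by
    rw [leadingCoeff_X] at hd
    have h1 := Int.eq_one_of_dvd_one (by positivity) hd
    have h2 := hp.one_lt
    omega)
  refine ⟨C, fun y hy => ?_⟩
  refine le_trans (le_of_eq (sum_congr rfl fun p hp => ?_)) (hC y hy)
  rw [rho_X p (mem_PS.1 hp).2.pos]
  norm_num

/-- **The average is bounded by the cube of the logarithm** -/
theorem avg2 : ∃ z0 : ℕ, ∀ z, z0 ≤ z → ∃ C : ℝ, ∀ y, z < y →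
    ∑ s ∈ (PP z y).divisors, Gs lam2 s * gw 1 3 s ≤ C * (Real.log y) ^ 3 := by
  classical
  obtain ⟨z0, hz0⟩ := ag I2 (fun _ => 1 / 4) (Lki lb2) 3 3 (fun _ => by norm_num)
    (fun i => by
      rw [Lki_lb2]
      simp)
    (fun U hU => by
      rw [sum_const, nsmul_eq_mul]
      have h1 : (U.card : ℝ) ≤ 12 := by exact_mod_cast comb2 U hU
      linarith)
  refine ⟨z0 + 8, fun z hz => ?_⟩
  obtain ⟨Cm, hCm⟩ := mert z (by omega)
  have hp3 : ∀ p : ℕ, z < p → (0 : ℝ) < (p : ℝ) - 3 := by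
    intro p hp
    have : (4 : ℝ) ≤ p := by exact_mod_cast (by omega : 4 ≤ p)
    linarith
  obtain ⟨C, hC⟩ := hz0 z (by omega) (wi (fun _ : I2 => (1 / 4 : ℝ)) 3) (1 / 4 * Cm)
    (fun i p hp hpz => by
      unfold wi
      have h := hp3 p hpz
      push_cast
      rw [abs_div, abs_of_pos h, abs_of_pos (by norm_num : (0 : ℝ) < 1 / 4)]
      exact div_le_div_of_nonneg_right (by norm_num) h.le)
    (fun i y hy => by
      have h1 : ∀ p ∈ PS z y, |wi (fun _ : I2 => (1 / 4 : ℝ)) 3 i p| =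
          1 / 4 * ((1 : ℝ) / ((p : ℝ) - 3)) := by
        intro p hp
        have h := hp3 p (mem_PS.1 hp).1.1
        unfold wi
        push_cast
        rw [abs_div, abs_of_pos h, abs_of_pos (by norm_num : (0 : ℝ) < 1 / 4)]
        ring
      rw [sum_congr rfl h1, ← mul_sum]
      have h2 := mul_le_mul_of_nonneg_left (hCm y hy) (by norm_num : (0 : ℝ) ≤ 1 / 4)
      linarith)
  refine ⟨C, fun y hy => ?_⟩
  rw [exp_idi lb2 (fun _ => (1 / 4 : ℝ)) lam2 3 z y (fun p _ v h => lam2_eq p v h)]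
  refine (le_abs_self _).trans ((hC y hy).trans (le_of_eq ?_))
  rw [← Real.rpow_natCast]
  norm_num

end Pool.Agent.L0h94.FT
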