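import Pool.Agent.L0h94.FT.Core

/-!
# The main estimate, second part
-/

set_option autoImplicit false

namespace Pool.Agent.L0h94.FT

open Finset Pool.Agent.W262.RK Pool.Agent.L0h5.TF
open Pool.Agent.W307.RT (S1 S2 Gd fv)

lemma bg_large {α β : Fin 3 → ℤ} (hα : ∀ j, α j ≠ 0)
    (hres : ∀ j l, j ≠ l → Res α β j l ≠ 0) : ∃ z0 : ℕ, ∀ z, z0 ≤ z → Bg α β z := by
  refine ⟨8 + ∑ j, (α j).natAbs + ∑ j, ∑ l, (Res α β j l).natAbs, fun z hz => ?_⟩
  have key : ∀ (n : ℤ) (p : ℕ), n ≠ 0 → n.natAbs ≤ z → z < p → ¬ (p : ℤ) ∣ n := by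
    intro n p hn h1 h2 h3
    have h4 := Nat.le_of_dvd (Int.natAbs_pos.2 hn) (Int.natCast_dvd.1 h3)
    omega
  have ha : ∀ j, (α j).natAbs ≤ z := by
    intro j
    have := single_le_sum (f := fun j => (α j).natAbs) (fun _ _ => Nat.zero_le _) (mem_univ j)
    omega
  have hr : ∀ j l, (Res α β j l).natAbs ≤ z := by
    intro j l
    have h1 := single_le_sum (f := fun l => (Res α β j l).natAbs) (fun _ _ => Nat.zero_le _)
      (mem_univ l)
    have h2 := single_le_sum (f := fun j => ∑ l, (Res α β j l).natAbs) (fun _ _ => Nat.zero_le _)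
      (mem_univ j)
    omega
  refine ⟨by rw [Fintype.card_fin]; omega, fun p _ hzp => ⟨fun j => key _ p (hα j) (ha j) hzp,
    fun j l hjl => key _ p (hres j l hjl) (hr j l) hzp⟩⟩

lemma F3_le (α β : Fin 3 → ℤ) {x t N : ℕ} (hx : x ≤ N) (ht : t ≤ N) :
    (F3 α β x t).natAbs ≤ (∏ j, ((α j).natAbs + (β j).natAbs)) * N ^ 3 := by
  unfold F3
  have h0 : (∏ j, fv α β x t j).natAbs = ∏ j, (fv α β x t j).natAbs :=
    map_prod Int.natAbsHom _ _
  rw [h0]
  have h1 : ∀ j, (fv α β x t j).natAbs ≤ ((α j).natAbs + (β j).natAbs) * N := by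
    intro j
    unfold fv
    refine (Int.natAbs_add_le _ _).trans ?_
    rw [Int.natAbs_mul, Int.natAbs_mul, Int.natAbs_natCast, Int.natAbs_natCast, add_mul]
    exact add_le_add (Nat.mul_le_mul_left _ hx) (Nat.mul_le_mul_left _ ht)
  refine (prod_le_prod (fun _ _ => Nat.zero_le _) fun j _ => h1 j).trans (le_of_eq ?_)
  rw [prod_mul_distrib, prod_const, card_univ, Fintype.card_fin]

/-- **The main estimate** -/
theorem core2 {α β : Fin 3 → ℤ} (hα : ∀ j, α j ≠ 0) (hres : ∀ j l, j ≠ l → Res α β j l ≠ 0)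
    (hrel : ∀ x t : ℤ, fv α β x t 0 - fv α β x t 1 = fv α β x t 2) :
    ∃ C2 : ℝ, ∀ X : ℕ, 1 ≤ X → ∑ ω ∈ TX α β X,
      ((2 : ℝ) ^ Module.finrank ℤ (EAB (ω.1 * fv α β ω.2.1 ω.2.2 0)
        (ω.1 * fv α β ω.2.1 ω.2.2 1)).toAffine.Point) ^ 2 ≤ C2 * (X : ℝ) ^ 4 := by
  classical
  obtain ⟨z1, hz1⟩ := bg_large hα hres
  obtain ⟨z2, hz2⟩ := avg2
  set z : ℕ := z1 + z2 + 8 with hz
  have hb : Bg α β z := hz1 z (by omega)
  obtain ⟨C', hC'⟩ := hz2 z (by omega)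
  obtain ⟨C, K, y0, hC0, hK1, hsv⟩ := svD z (by omega)
  obtain ⟨C1, hC1, hav⟩ := avs 3 z (by omega)
  obtain ⟨C2, hC2, hsg⟩ := om_sum 32 (by norm_num)
  set A : ℕ := ∏ j, ((α j).natAbs + (β j).natAbs) with hA
  refine Pool.Agent.L0h5.NT.ant_g Unit (ℕ × ℕ × ℕ) (TX α β) (fR α β)
    (fun X => (X : ℝ) ^ 4) z 3 3 (fun s => Gs lam2 (s ()))
    (fun ω => ((2 : ℝ) ^ Module.finrank ℤ (EAB (ω.1 * fv α β ω.2.1 ω.2.2 0)
        (ω.1 * fv α β ω.2.1 ω.2.2 1)).toAffine.Point) ^ 2) 48 (C * C1 * C2 * (4 ^ (z + 2)) ^ 2) C'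
    ((4 ^ 7) ^ 2) K (y0 + A + 1) (by norm_num) (by omega) ?_ ?_ ?_ (fun s => Gs2_nonneg _)
    (fun t => by positivity) (by positivity) (one_le_pow₀ (one_le_pow₀ (by norm_num))) hK1
    ?_ ?_ ?_
  · intro X Y hXY
    exact TX_mono hXY
  · intro X hX
    show (1 : ℝ) ≤ (X : ℝ) ^ 4
    exact one_le_pow₀ (by exact_mod_cast hX)
  · intro X ω _
    exact gd_fR α β z ω
  · intro y _ s e hse
    have h1 := mem_TupU.1 hse
    have h2 := growth2 (s ()) (e ()) (dv_squarefree h1)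
    simp only [univ_unique, sum_singleton]
    exact h2
  · intro y hy
    have h1 := sum_TupU (z := z) (y := y) fun s => Gs lam2 s * gw 1 3 s
    simp only [univ_unique, prod_singleton]
    refine le_trans (le_of_eq h1) (hC' y hy)
  · intro X y Y k' hy hzy hyX hXk s hs v hv u hu hsvu T' hT' hT
    have hs' := mem_TupU.1 hs
    have hv' := mem_TupU.1 hv
    have hu' := mem_TupU.1 hu
    simp only [univ_unique, prod_singleton] at hsvu ⊢
    have hyX1 : y ≤ X := le_trans (Nat.le_self_pow (by omega) y) hyX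
    have hX1 : 1 ≤ X := by omega
    have hTT : ∀ ω ∈ T', ω ∈ TX α β X ∧ S1 z y (fR α β ω) () = s () ∧
        S2 z y (fR α β ω) () = v () ∧ ((u () : ℕ) : ℤ) ∣ fR α β ω () := by
      intro ω hω
      obtain ⟨h1, h2, h3⟩ := hT ω hω
      exact ⟨hT' hω, congrFun h1 (), congrFun h2 (), h3 ()⟩
    have h1 := sumNL2 hb hC0 hC1 hsv hav hsg (by omega) hzy hyX hs' hv' hu' hsvu T' hTT
    have hR : ∀ ω ∈ T', ((2 : ℝ) ^ Module.finrank ℤ (EAB (ω.1 * fv α β ω.2.1 ω.2.2 0)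
        (ω.1 * fv α β ω.2.1 ω.2.2 1)).toAffine.Point) ^ 2 ≤
        (4 ^ (z + 2)) ^ 2 * ((4 ^ 7) ^ 2) ^ k' * 16 ^ (v ()).primeFactors.card *
          (16 ^ ω.1.primeFactors.card * (NL (s ()) (Lw α β ω.1 ω.2.1 ω.2.2) : ℝ) ^ 2) := by
      rintro ⟨g, x, t⟩ hω
      obtain ⟨h2, h3, h4, h5⟩ := hTT _ hω
      obtain ⟨b1, b2, b3, b4, b5⟩ := mem_TX.1 h2
      have hXg : X ^ 2 / g ≤ X ^ 2 := Nat.div_le_self _ _
      have h7 : (F3 α β x t).natAbs ≤ X ^ 7 := by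
        refine (F3_le α β (b2.2.trans hXg) (b3.2.trans hXg)).trans ?_
        rw [← hA, ← pow_mul, show X ^ 7 = X * X ^ 6 by ring]
        exact Nat.mul_le_mul_right _ (by omega)
      have h8 := rank2 (y := y) hb hrel hX1 (by omega) (by omega : g ≠ 0) b4 b5 h7 (by omega) hXk
      rw [h3, h4] at h8
      have h9 : (2 : ℝ) ^ Module.finrank ℤ (EAB (g * fv α β x t 0)
          (g * fv α β x t 1)).toAffine.Point ≤
          4 ^ (z + 2) * (4 ^ 7) ^ k' * 4 ^ (v ()).primeFactors.card * 4 ^ g.primeFactors.card *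
            (NL (s ()) (Lw α β g x t) : ℝ) := by exact_mod_cast h8
      refine (pow_le_pow_left₀ (by positivity) h9 2).trans (le_of_eq ?_)
      have e16 : ∀ n : ℕ, ((4 : ℝ) ^ n) ^ 2 = 16 ^ n := by
        intro n
        rw [← pow_mul, mul_comm, pow_mul]
        norm_num
      rw [mul_pow, mul_pow, mul_pow, mul_pow, e16 (v ()).primeFactors.card, e16 g.primeFactors.card,
        ← pow_mul ((4 : ℝ) ^ 7), mul_comm k' 2, pow_mul ((4 : ℝ) ^ 7)]
      ring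
    refine (sum_le_sum hR).trans ?_
    rw [← mul_sum]
    have hgs := gw3_nonneg (z := z) (by omega) hs'
    have hgv := gw3_nonneg (z := z) (by omega) hv'
    have hlog : 0 ≤ (Real.log y) ^ 3 := pow_nonneg (Real.log_natCast_nonneg y) _
    have hG := Gs2_nonneg (s ())
    have hcu : (3 : ℝ) ^ (u ()).primeFactors.card / (u () : ℝ) ≤
        48 ^ (u ()).primeFactors.card / (u () : ℝ) := by
      apply div_le_div_of_nonneg_right _ (Nat.cast_nonneg _)
      exact pow_le_pow_left₀ (by norm_num) (by norm_num) _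
    have h2 : (0 : ℝ) ≤ (4 ^ (z + 2)) ^ 2 * ((4 ^ 7) ^ 2) ^ k' *
        16 ^ (v ()).primeFactors.card := by positivity
    refine (mul_le_mul_of_nonneg_left h1 h2).trans ?_
    have hbv : (48 : ℝ) ^ (v ()).primeFactors.card =
        16 ^ (v ()).primeFactors.card * 3 ^ (v ()).primeFactors.card := by
      rw [← mul_pow]; norm_num
    rw [hbv]
    have h3 : 0 ≤ C * C1 * C2 * (4 ^ (z + 2)) ^ 2 * ((4 ^ 7) ^ 2) ^ k' * (X : ℝ) ^ 4 *
        (Gs lam2 (s ()) * gw 1 3 (s ())) * (16 ^ (v ()).primeFactors.card *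
          3 ^ (v ()).primeFactors.card * (gw 1 3 (v ()) / (v () : ℝ))) := by positivity
    have h4 := div_le_div_of_nonneg_right (mul_le_mul_of_nonneg_left hcu h3) hlog
    refine le_trans (le_of_eq ?_) h4
    ring

end Pool.Agent.L0h94.FT
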