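import Pool.Agent.L0h94.FT.Loc

/-!
# The Fourier expansion of the local average
-/

set_option autoImplicit false

namespace Pool.Agent.L0h94.FT

open Finset Pool.Agent.W262.RK Pool.Agent.L0h5.TF

open Pool.Agent.W762.RK2 (sg)

/-- the indicator of the direction -/
noncomputable def Pe (c : Fin 3) (b : Bool) (v : Bool × Bool) : ℝ := if ev c b = v then 1 else 0

lemma iL_eq (c : Fin 3) (e : Bool) (v h : Bool × Bool) :
    iL (Lce c e) v h = ∑ b : Bool, ∑ x : Bool, Pe c b v *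
      ((1 / 2) * (if (b && x && e) = true then (-1) else 1) * ch1 (ex c x) h) := by
  rcases v with ⟨v1, v2⟩
  rcases h with ⟨h1, h2⟩
  unfold iL Lce Pe ev ex ch1 sg
  simp only [Fintype.sum_bool]
  fin_cases c <;> cases v1 <;> cases v2 <;> cases h1 <;> cases h2 <;> cases e <;>
    simp [ec] <;> norm_num

lemma prod_fin2 (F : Fin 2 → ℝ) : ∏ i, F i = F 0 * F 1 := Fin.prod_univ_two F

lemma two_iL (c : Fin 3) (V H : Vk 2) :
    ∑ e : Bool, (1 / 2 : ℝ) * ∏ i, iL (Lce c e) (V i) (H i) =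
      ∑ v : Bool × Bool, ∑ x : Bool × Bool,
        if xor (v.1 && x.1) (v.2 && x.2) = false then
          Pe c v.1 (V 0) * Pe c v.2 (V 1) * ((1 / 4) * (ch1 (ex c x.1) (H 0) *
            ch1 (ex c x.2) (H 1))) else 0 := by
  simp only [prod_fin2, iL_eq, Fintype.sum_prod_type, Fintype.sum_bool]
  simp
  ring

lemma sum_I2 (F : Fin 3 × (Bool × Bool) × (Bool × Bool) → ℝ) :
    ∑ i : I2, F i.1 = ∑ c : Fin 3, ∑ v : Bool × Bool, ∑ x : Bool × Bool,
      if xor (v.1 && x.1) (v.2 && x.2) = false then F (c, v, x) else 0 := by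
  have h1 : ∑ i : I2, F i.1 = ∑ r ∈ univ.filter (fun r : Fin 3 × (Bool × Bool) × (Bool × Bool) =>
      xor (r.2.1.1 && r.2.2.1) (r.2.1.2 && r.2.2.2) = false), F r :=
    (Finset.sum_subtype (univ.filter fun r : Fin 3 × (Bool × Bool) × (Bool × Bool) =>
      xor (r.2.1.1 && r.2.2.1) (r.2.1.2 && r.2.2.2) = false) (fun x => by simp) F).symm
  rw [h1, sum_filter, Fintype.sum_prod_type]
  refine sum_congr rfl fun c _ => ?_
  rw [Fintype.sum_prod_type]

lemma vv_eq (c : Fin 3) (v : Bool × Bool) (V : Vk 2) :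
    vv c v = V ↔ ev c v.1 = V 0 ∧ ev c v.2 = V 1 := by
  unfold vv
  constructor
  · rintro rfl
    exact ⟨rfl, rfl⟩
  · rintro ⟨h1, h2⟩
    funext i
    fin_cases i
    · exact h1
    · exact h2

lemma lam2_eq (p : ℕ) (V H : Vk 2) :
    lam2 p V H = ∑ i : I2, if (lb2 i).1.1 = V then (1 / 4 : ℝ) * chi (lb2 i).1.2 H else 0 := by
  have h1 : ∑ i : I2, (if (lb2 i).1.1 = V then (1 / 4 : ℝ) * chi (lb2 i).1.2 H else 0) =
      ∑ c : Fin 3, ∑ v : Bool × Bool, ∑ x : Bool × Bool,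
      if xor (v.1 && x.1) (v.2 && x.2) = false then
        (if vv c v = V then (1 / 4 : ℝ) * chi (xx c x) H else 0) else 0 :=
    sum_I2 (fun r : Fin 3 × (Bool × Bool) × (Bool × Bool) =>
        if vv r.1 r.2.1 = V then (1 / 4 : ℝ) * chi (xx r.1 r.2.2) H else 0)
  rw [h1]
  unfold lam2
  rw [Fintype.sum_prod_type]
  refine sum_congr rfl fun c _ => ?_
  simp only
  rw [two_iL c V H]
  refine sum_congr rfl fun v _ => sum_congr rfl fun x _ => ?_
  split_ifs with h2 h3 h3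
  · rw [vv_eq] at h3
    unfold Pe
    rw [if_pos h3.1, if_pos h3.2, chi_prod, prod_fin2]
    show _ = 1 / 4 * (ch1 (ex c x.1) (H 0) * ch1 (ex c x.2) (H 1))
    ring
  · rw [vv_eq] at h3
    unfold Pe
    by_cases h4 : ev c v.1 = V 0
    · have h5 : ¬ ev c v.2 = V 1 := fun h => h3 ⟨h4, h⟩
      rw [if_neg h5]
      ring
    · rw [if_neg h4]
      ring
  · rfl

end Pool.Agent.L0h94.FT
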