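import Pool.Agent.W29.RT.LOW4

/-!
# There are many curves with full two-torsion
-/

set_option autoImplicit false

namespace Pool.Agent.L0h94.FT

open Finset Pool.Agent.W307.RT WeierstrassCurve
open Pool.Agent.W29.RT (nons neg_y top_root abs_le_cube abs_le_sq SS card_SS)

/-- three distinct roots give full two-torsion -/
lemma hasT2 {A B : ℤ} {a b : ℚ} (hA : (A : ℚ) = -(a ^ 2 + a * b + b ^ 2))
    (hB : (B : ℚ) = a * b * (a + b)) (hab : a ≠ b) (h1 : 2 * a + b ≠ 0) (h2 : a + 2 * b ≠ 0) :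
    HasT 2 (Sh A B) := by
  have hd : a - b ≠ 0 := sub_ne_zero.2 hab
  have hP : (Sh A B).toAffine.Nonsingular a 0 := by
    apply nons _ (Or.inr _)
    · rw [hA, hB]; ring
    · rw [hA]
      have : 3 * a ^ 2 + -(a ^ 2 + a * b + b ^ 2) = (a - b) * (2 * a + b) := by ring
      rw [this]
      exact mul_ne_zero hd h1
  have hQ : (Sh A B).toAffine.Nonsingular b 0 := by
    apply nons _ (Or.inr _)
    · rw [hA, hB]; ring
    · rw [hA]
      have : 3 * b ^ 2 + -(a ^ 2 + a * b + b ^ 2) = -((a - b) * (a + 2 * b)) := by ring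
      rw [this]
      exact neg_ne_zero.2 (mul_ne_zero hd h2)
  set P : (Sh A B).toAffine.Point := .some _ _ hP with hPd
  set Q : (Sh A B).toAffine.Point := .some _ _ hQ with hQd
  have hPP : P + P = 0 := by
    rw [hPd]
    apply Affine.Point.add_self_of_Y_eq
    rw [neg_y]; simp
  have hQQ : Q + Q = 0 := by
    rw [hQd]
    apply Affine.Point.add_self_of_Y_eq
    rw [neg_y]; simp
  have hP0 : P ≠ 0 := Affine.Point.some_ne_zero hP
  have hQ0 : Q ≠ 0 := Affine.Point.some_ne_zero hQ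
  have hPQ : P ≠ Q := by
    rw [hPd, hQd, Ne, Affine.Point.some.injEq]
    rintro ⟨h, -⟩
    exact hab h
  have hoP : addOrderOf P = 2 := by
    apply addOrderOf_eq_prime
    · rw [two_nsmul, hPP]
    · exact hP0
  have hoQ : addOrderOf Q = 2 := by
    apply addOrderOf_eq_prime
    · rw [two_nsmul, hQQ]
    · exact hQ0
  refine ⟨P, Q, hoP, hoQ, ?_⟩
  intro hmem
  obtain ⟨k, hk⟩ := AddSubgroup.mem_zmultiples_iff.1 hmem
  rcases Int.even_or_odd k with ⟨i, hi⟩ | ⟨i, hi⟩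
  · apply hQ0
    rw [← hk, hi, ← two_mul, mul_comm, mul_zsmul, two_zsmul, hPP, zsmul_zero]
  · apply hPQ
    rw [← hk, hi, add_zsmul, one_zsmul, mul_comm, mul_zsmul, two_zsmul, hPP, zsmul_zero,
      zero_add]

/-- the coefficients -/
def cf2 (t : ℕ × ℕ) : ℤ × ℤ :=
  (-((t.1 : ℤ) ^ 2 + (t.1 : ℤ) * (t.2 : ℤ) + (t.2 : ℤ) ^ 2),
    (t.1 : ℤ) * (t.2 : ℤ) * ((t.1 : ℤ) + (t.2 : ℤ)))

lemma minim2 {a b : ℤ} (h : IsCoprime a b) {p : ℕ} (hp : p.Prime)
    (h1 : (p : ℤ) ^ 4 ∣ -(a ^ 2 + a * b + b ^ 2))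
    (h2 : (p : ℤ) ^ 6 ∣ a * b * (a + b)) : False := by
  have hpI : Prime (p : ℤ) := Nat.prime_iff_prime_int.1 hp
  have hnot : ¬ ((p : ℤ) ∣ a ∧ (p : ℤ) ∣ b) := by
    rintro ⟨ha, hb⟩
    exact hpI.not_isUnit (h.isUnit_of_dvd' ha hb)
  have e1 : (p : ℤ) ∣ a ^ 2 + a * b + b ^ 2 :=
    (dvd_neg.1 ((dvd_pow_self (p : ℤ) (by norm_num : 4 ≠ 0)).trans h1))
  have e2 : (p : ℤ) ∣ a * b * (a + b) := (dvd_pow_self _ (by norm_num)).trans h2
  apply hnot
  rcases hpI.dvd_or_dvd e2 with h3 | h3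
  · rcases hpI.dvd_or_dvd h3 with h4 | h4
    · have h5 : (p : ℤ) ∣ b ^ 2 := by
        have : b ^ 2 = (a ^ 2 + a * b + b ^ 2) - a * (a + b) := by ring
        rw [this]
        exact dvd_sub e1 (h4.mul_right _)
      exact ⟨h4, hpI.dvd_of_dvd_pow h5⟩
    · have h5 : (p : ℤ) ∣ a ^ 2 := by
        have : a ^ 2 = (a ^ 2 + a * b + b ^ 2) - b * (a + b) := by ring
        rw [this]
        exact dvd_sub e1 (h4.mul_right _)
      exact ⟨hpI.dvd_of_dvd_pow h5, h4⟩
  · have h5 : (p : ℤ) ∣ a * b := by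
      have : a * b = (a + b) * (a + b) - (a ^ 2 + a * b + b ^ 2) := by ring
      rw [this]
      exact dvd_sub (h3.mul_right _) e1
    rcases hpI.dvd_or_dvd h5 with h4 | h4
    · exact ⟨h4, (dvd_add_right h4).1 h3⟩
    · exact ⟨(dvd_add_left h4).1 h3, h4⟩

lemma cf2_inj {a b a' b' : ℤ} (hb : 1 ≤ b) (hab : b < a) (hb' : 1 ≤ b') (hab' : b' < a')
    (h1 : -(a ^ 2 + a * b + b ^ 2) = -(a' ^ 2 + a' * b' + b' ^ 2))
    (h2 : a * b * (a + b) = a' * b' * (a' + b')) : a = a' ∧ b = b' := by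
  have H : ∀ x : ℤ, (x - a) * (x - b) * (x - (-(a + b))) =
      (x - a') * (x - b') * (x - (-(a' + b'))) := by
    intro x
    linear_combination x * h1 + h2
  have t1 := top_root H hab (by linarith) hab' (by linarith)
  subst t1
  refine ⟨rfl, ?_⟩
  have h3 : (b - b') * (a + b + b') = 0 := by linear_combination (-1) * h1
  rcases mul_eq_zero.1 h3 with h | h
  · linarith
  · exfalso
    linarith

theorem mem_cv2 {T H a b : ℕ} (hb : 1 ≤ b) (hab : b < a) (haT : a ≤ T) (hc : a.Coprime b)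
    (hH : 108 * T ^ 6 ≤ H) : cf2 (a, b) ∈ Cv 2 H := by
  have hcI : IsCoprime (a : ℤ) (b : ℤ) := Nat.isCoprime_iff_coprime.2 hc
  have hbI : (1 : ℤ) ≤ b := by exact_mod_cast hb
  have habI : (b : ℤ) < a := by exact_mod_cast hab
  have haTI : (a : ℤ) ≤ T := by exact_mod_cast haT
  have hHI : 108 * (T : ℤ) ^ 6 ≤ H := by exact_mod_cast hH
  have hT0 : (0 : ℤ) < T := by linarith
  have ha0 : (0 : ℤ) < a := by linarith
  have hA : |(cf2 (a, b)).1| ≤ 3 * (T : ℤ) ^ 2 := by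
    simp only [cf2]
    rw [abs_neg, abs_of_nonneg (by positivity)]
    nlinarith
  have hB : |(cf2 (a, b)).2| ≤ 2 * (T : ℤ) ^ 3 := by
    simp only [cf2]
    rw [abs_of_nonneg (by positivity)]
    calc (a : ℤ) * b * (a + b) ≤ (T : ℤ) * T * (T + T) := by
          apply mul_le_mul _ _ (by positivity) (by positivity)
          · exact mul_le_mul haTI (by linarith) (by positivity) (by positivity)
          · linarith
      _ = _ := by ring
  have hA3 : 4 * |(cf2 (a, b)).1| ^ 3 ≤ H := by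
    calc 4 * |(cf2 (a, b)).1| ^ 3 ≤ 4 * (3 * (T : ℤ) ^ 2) ^ 3 := by gcongr
      _ = 108 * (T : ℤ) ^ 6 := by ring
      _ ≤ H := hHI
  have hB2 : 27 * (cf2 (a, b)).2 ^ 2 ≤ H := by
    calc 27 * (cf2 (a, b)).2 ^ 2 = 27 * |(cf2 (a, b)).2| ^ 2 := by rw [sq_abs]
      _ ≤ 27 * (2 * (T : ℤ) ^ 3) ^ 2 := by gcongr
      _ = 108 * (T : ℤ) ^ 6 := by ring
      _ ≤ H := hHI
  unfold Cv
  simp only [mem_filter, mem_product, mem_Icc]
  have a1 := abs_le_cube (cf2 (a, b)).1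
  have a2 := abs_le_sq (cf2 (a, b)).2
  have a3 := neg_abs_le (cf2 (a, b)).1
  have a4 := le_abs_self (cf2 (a, b)).1
  have a5 := neg_abs_le (cf2 (a, b)).2
  have a6 := le_abs_self (cf2 (a, b)).2
  have a7 : 0 ≤ |(cf2 (a, b)).1| ^ 3 := by positivity
  have a8 : 0 ≤ (cf2 (a, b)).2 ^ 2 := by positivity
  refine ⟨⟨⟨by linarith, by linarith⟩, ⟨by linarith, by linarith⟩⟩, ?_, hA3, hB2, ?_, ?_⟩
  · simp only [cf2]
    have e : 4 * (-((a : ℤ) ^ 2 + a * b + (b : ℤ) ^ 2)) ^ 3 + 27 * ((a : ℤ) * b * (a + b)) ^ 2 =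
        -(((a : ℤ) - b) ^ 2 * (2 * a + b) ^ 2 * (a + 2 * b) ^ 2) := by ring
    rw [e]
    have h3 : (a : ℤ) - b ≠ 0 := by intro h; linarith
    have : 0 < ((a : ℤ) - b) ^ 2 * (2 * a + b) ^ 2 * (a + 2 * b) ^ 2 := by positivity
    intro h
    linarith
  · intro p hp hh
    exact minim2 hcI hp hh.1 hh.2
  · apply hasT2 (a := (a : ℚ)) (b := (b : ℚ))
    · simp only [cf2]; push_cast; ring
    · simp only [cf2]; push_cast; ring
    · have : (b : ℚ) < a := by exact_mod_cast hab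
      exact this.ne'
    · positivity
    · positivity

theorem low2 : LOW 2 6 := by
  refine ⟨1 / 24, 108, 5, by norm_num, fun T H hT hH => ?_⟩
  have h1 : (SS T).card ≤ (Cv 2 H).card := by
    apply card_le_card_of_injOn (fun t => cf2 (t.1, t.2))
    · intro t ht
      have ht' : t ∈ SS T := ht
      unfold SS at ht'
      rw [mem_sigma, mem_Icc, mem_filter, mem_range] at ht'
      obtain ⟨⟨k1, k2⟩, k3, k4⟩ := ht'
      have hb : 1 ≤ t.2 := by
        rcases Nat.eq_zero_or_pos t.2 with h | h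
        · rw [h, Nat.coprime_zero_right] at k4; omega
        · exact h
      exact mem_cv2 hb k3 k2 k4 hH
    · intro t ht t' ht' h
      have ht1 : t ∈ SS T := ht
      have ht1' : t' ∈ SS T := ht'
      unfold SS at ht1 ht1'
      rw [mem_sigma, mem_Icc, mem_filter, mem_range] at ht1 ht1'
      obtain ⟨⟨k1, k2⟩, k3, k4⟩ := ht1
      obtain ⟨⟨k1', k2'⟩, k3', k4'⟩ := ht1'
      have hb : 1 ≤ t.2 := by
        rcases Nat.eq_zero_or_pos t.2 with h | h
        · rw [h, Nat.coprime_zero_right] at k4; omega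
        · exact h
      have hb' : 1 ≤ t'.2 := by
        rcases Nat.eq_zero_or_pos t'.2 with h | h
        · rw [h, Nat.coprime_zero_right] at k4'; omega
        · exact h
      have h' : cf2 (t.1, t.2) = cf2 (t'.1, t'.2) := h
      simp only [cf2, Prod.mk.injEq] at h'
      obtain ⟨e1, e2⟩ := cf2_inj (by exact_mod_cast hb) (by exact_mod_cast k3)
        (by exact_mod_cast hb') (by exact_mod_cast k3') h'.1 h'.2
      have e1' : t.1 = t'.1 := by exact_mod_cast e1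
      have e2' : t.2 = t'.2 := by exact_mod_cast e2
      exact Sigma.ext e1' (heq_of_eq e2')
  have h2 := card_SS T hT
  have h3 : (T : ℝ) ^ 2 ≤ 24 * ((SS T).card : ℝ) := by exact_mod_cast h2
  have h4 : ((SS T).card : ℝ) ≤ ((Cv 2 H).card : ℝ) := by exact_mod_cast h1
  linarith

end Pool.Agent.L0h94.FT
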