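import Mathlib

/-!
# Powers with the number of the prime factors as exponent
-/

set_option autoImplicit false

namespace Pool.Agent.L0h94.FT

open Finset

/-- `c ^ ω(n) ≤ C n ^ ε` -/
theorem om_le (c ε : ℝ) (hc : 1 ≤ c) (hε : 0 < ε) :
    ∃ C : ℝ, 0 < C ∧ ∀ n : ℕ, n ≠ 0 → c ^ n.primeFactors.card ≤ C * (n : ℝ) ^ ε := by
  have hc0 : 0 < c := by linarith
  obtain ⟨P, hP⟩ := exists_nat_ge (c ^ (1 / ε))
  refine ⟨c ^ P, by positivity, fun n hn => ?_⟩
  have hn1 : (1 : ℝ) ≤ n := by exact_mod_cast Nat.one_le_iff_ne_zero.2 hn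
  set A := n.primeFactors.filter (fun p => p ≤ P) with hA
  set B := n.primeFactors.filter (fun p => ¬ p ≤ P) with hB
  have h1 : n.primeFactors.card = A.card + B.card :=
    (card_filter_add_card_filter_not _).symm
  have hAc : A.card ≤ P := by
    have h2 : A ⊆ Icc 1 P := by
      intro p hp
      rw [hA, mem_filter] at hp
      rw [mem_Icc]
      exact ⟨(Nat.prime_of_mem_primeFactors hp.1).one_lt.le, hp.2⟩
    have h3 := card_le_card h2
    rwa [Nat.card_Icc, Nat.add_sub_cancel] at h3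
  have hBc : c ^ B.card ≤ (n : ℝ) ^ ε := by
    have h2 : ∀ p ∈ B, c ≤ (p : ℝ) ^ ε := by
      intro p hp
      rw [hB, mem_filter] at hp
      have h3 : c ^ (1 / ε) ≤ (p : ℝ) := hP.trans (by exact_mod_cast (not_le.1 hp.2).le)
      calc c = (c ^ (1 / ε)) ^ ε := by
            rw [← Real.rpow_mul hc0.le, one_div, inv_mul_cancel₀ hε.ne', Real.rpow_one]
        _ ≤ (p : ℝ) ^ ε := Real.rpow_le_rpow (by positivity) h3 hε.le
    calc c ^ B.card = ∏ p ∈ B, c := by rw [prod_const]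
      _ ≤ ∏ p ∈ B, (p : ℝ) ^ ε := prod_le_prod (fun _ _ => hc0.le) h2
      _ = ((∏ p ∈ B, p : ℕ) : ℝ) ^ ε := by
          rw [Nat.cast_prod, Real.finset_prod_rpow _ _ (fun _ _ => Nat.cast_nonneg _)]
      _ ≤ (n : ℝ) ^ ε := by
          apply Real.rpow_le_rpow (Nat.cast_nonneg _) _ hε.le
          have h4 : ∏ p ∈ B, p ∣ n :=
            (prod_dvd_prod_of_subset _ _ _ (filter_subset _ _)).trans (Nat.prod_primeFactors_dvd n)
          exact_mod_cast Nat.le_of_dvd (Nat.pos_of_ne_zero hn) h4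
  rw [h1, pow_add]
  exact mul_le_mul (pow_le_pow_right₀ hc hAc) hBc (by positivity) (by positivity)

/-- the series converges -/
theorem om_sum (c : ℝ) (hc : 1 ≤ c) :
    ∃ C : ℝ, 0 < C ∧ ∀ X : ℕ, ∑ g ∈ Icc 1 X, c ^ g.primeFactors.card / (g : ℝ) ^ 2 ≤ C := by
  obtain ⟨C, hC, h⟩ := om_le c (1 / 2) hc (by norm_num)
  have hsr : Summable (fun n : ℕ => 1 / (n : ℝ) ^ (3 / 2 : ℝ)) :=
    Real.summable_one_div_nat_rpow.2 (by norm_num)
  have h0 : 0 ≤ ∑' n : ℕ, 1 / (n : ℝ) ^ (3 / 2 : ℝ) := tsum_nonneg fun n => by positivity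
  refine ⟨C * (∑' n : ℕ, 1 / (n : ℝ) ^ (3 / 2 : ℝ)) + 1, by positivity, fun X => ?_⟩
  have h1 : ∀ g ∈ Icc 1 X, c ^ g.primeFactors.card / (g : ℝ) ^ 2 ≤
      C * (1 / (g : ℝ) ^ (3 / 2 : ℝ)) := by
    intro g hg
    have hg1 := (mem_Icc.1 hg).1
    have hg0 : (0 : ℝ) < g := by exact_mod_cast hg1
    have e1 : (g : ℝ) ^ 2 = (g : ℝ) ^ (1 / 2 : ℝ) * (g : ℝ) ^ (3 / 2 : ℝ) := by
      rw [← Real.rpow_add hg0, ← Real.rpow_natCast]
      norm_num
    rw [e1, div_le_iff₀ (by positivity)]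
    refine (h g (by omega)).trans (le_of_eq ?_)
    have : (g : ℝ) ^ (3 / 2 : ℝ) ≠ 0 := by positivity
    field_simp
  refine (sum_le_sum h1).trans ?_
  rw [← mul_sum]
  have h2 := hsr.sum_le_tsum (Icc 1 X) (fun n _ => by positivity)
  have h3 := mul_le_mul_of_nonneg_left h2 hC.le
  linarith

end Pool.Agent.L0h94.FT
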