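import Pool.Agent.L0h94.FT.Bx2
import Pool.Agent.L0h94.FT.Low
import Pool.Agent.W605.RT.PAR4
import Pool.Agent.W261.RT.Iso

/-!
# The parametrisation of the curves with full two-torsion, and the main theorem
-/

set_option autoImplicit false

namespace Pool.Agent.L0h94.FT

open Finset Pool.Agent.W262.RK Pool.Agent.W307.RT
open Pool.Agent.W605.RT (sh_eq two_tors int_root)

/-- the relation between a curve and the differences of the roots -/
def Rl (c : ℤ × ℤ) (d : ℕ × ℕ) : Prop := ∃ e : ℤ, 1 ≤ d.1 ∧ 1 ≤ d.2 ∧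
  3 * e + 2 * d.1 + d.2 = 0 ∧
  c.1 = e * (e + d.1) + e * (e + d.1 + d.2) + (e + d.1) * (e + d.1 + d.2) ∧
  c.2 = -(e * (e + d.1) * (e + d.1 + d.2))

lemma mkRl {c : ℤ × ℤ} {e1 e2 e3 : ℤ} (h0 : e1 + e2 + e3 = 0) (h12 : e1 < e2) (h23 : e2 < e3)
    (h1 : c.1 = e1 * e2 + e1 * e3 + e2 * e3) (h2 : c.2 = -(e1 * e2 * e3)) : ∃ d, Rl c d := by
  refine ⟨((e2 - e1).toNat, (e3 - e2).toNat), e1, ?_, ?_, ?_, ?_, ?_⟩
  · show 1 ≤ (e2 - e1).toNat
    omega
  · show 1 ≤ (e3 - e2).toNat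
    omega
  · show 3 * e1 + 2 * ((e2 - e1).toNat : ℤ) + ((e3 - e2).toNat : ℤ) = 0
    omega
  all_goals
    have a1 : e1 + ((e2 - e1).toNat : ℤ) = e2 := by omega
    have a2 : e2 + ((e3 - e2).toNat : ℤ) = e3 := by omega
    simp only [a1, a2]
    assumption

lemma exRl {A B : ℤ} (hD : 4 * A ^ 3 + 27 * B ^ 2 ≠ 0) (hT : HasT 2 (Sh A B)) :
    ∃ d, Rl (A, B) d := by
  obtain ⟨P, Q, hP, hQ, hPQ⟩ := hT
  obtain ⟨x1, n1, h1⟩ := two_tors hP
  obtain ⟨x2, n2, h2⟩ := two_tors hQ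
  have hne : x1 ≠ x2 := by
    intro h
    subst h
    apply hPQ
    rw [h2, ← h1]
    exact AddSubgroup.mem_zmultiples P
  have r1' := sh_eq.mp n1.1
  have r2' := sh_eq.mp n2.1
  have r1 : x1 ^ 3 + A * x1 + B = 0 := by linarith
  have r2 : x2 ^ 3 + A * x2 + B = 0 := by linarith
  have hs : x1 ^ 2 + x1 * x2 + x2 ^ 2 + A = 0 := by
    have : (x1 - x2) * (x1 ^ 2 + x1 * x2 + x2 ^ 2 + A) = 0 := by linear_combination r1 - r2
    exact (mul_eq_zero.mp this).resolve_left (sub_ne_zero.mpr hne)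
  obtain ⟨E1, hE1⟩ := int_root r1
  obtain ⟨E2, hE2⟩ := int_root r2
  have t3 : E1 ^ 2 + E1 * E2 + E2 ^ 2 + A = 0 := by
    have : ((E1 ^ 2 + E1 * E2 + E2 ^ 2 + A : ℤ) : ℚ) = ((0 : ℤ) : ℚ) := by
      push_cast; rw [hE1, hE2]; exact hs
    exact_mod_cast this
  have t4 : E1 ^ 3 + A * E1 + B = 0 := by
    have : ((E1 ^ 3 + A * E1 + B : ℤ) : ℚ) = ((0 : ℤ) : ℚ) := by
      push_cast; rw [hE1]; exact r1
    exact_mod_cast this
  have hA : A = -(E1 ^ 2 + E1 * E2 + E2 ^ 2) := by linarith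
  have hB : B = E1 * E2 * (E1 + E2) := by
    rw [hA] at t4
    linear_combination t4
  have n12 : E1 ≠ E2 := by
    intro h
    apply hne
    rw [← hE1, ← hE2, h]
  set E3 : ℤ := -(E1 + E2) with hE3
  have n13 : E1 ≠ E3 := by
    intro h
    apply hD
    have : E2 = -2 * E1 := by linarith
    rw [hA, hB, this]
    ring
  have n23 : E2 ≠ E3 := by
    intro h
    apply hD
    have : E1 = -2 * E2 := by linarith
    rw [hA, hB, this]
    ring
  have k0 : E1 + E2 + E3 = 0 := by rw [hE3]; ring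
  have kA : A = E1 * E2 + E1 * E3 + E2 * E3 := by rw [hA, hE3]; ring
  have kB : B = -(E1 * E2 * E3) := by rw [hB, hE3]; ring
  clear_value E3
  rcases lt_or_gt_of_ne n12 with a | a <;> rcases lt_or_gt_of_ne n13 with b | b <;>
    rcases lt_or_gt_of_ne n23 with c | c
  · exact mkRl (e1 := E1) (e2 := E2) (e3 := E3) (by linarith) a c (by simp only; linarith)
      (by simp only; linarith)
  · exact mkRl (e1 := E1) (e2 := E3) (e3 := E2) (by linarith) b c (by simp only; linarith)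
      (by simp only; rw [kB]; ring)
  · exfalso
    linarith
  · exact mkRl (e1 := E3) (e2 := E1) (e3 := E2) (by linarith) b a (by simp only; linarith)
      (by simp only; rw [kB]; ring)
  · exact mkRl (e1 := E2) (e2 := E1) (e3 := E3) (by linarith) a b (by simp only; linarith)
      (by simp only; rw [kB]; ring)
  · exfalso
    linarith
  · exact mkRl (e1 := E2) (e2 := E3) (e3 := E1) (by linarith) c b (by simp only; linarith)
      (by simp only; rw [kB]; ring)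
  · exact mkRl (e1 := E3) (e2 := E2) (e3 := E1) (by linarith) c a (by simp only; linarith)
      (by simp only; rw [kB]; ring)

lemma rl_inj {c c' : ℤ × ℤ} {d : ℕ × ℕ} (h : Rl c d) (h' : Rl c' d) : c = c' := by
  obtain ⟨e, -, -, h1, h2, h3⟩ := h
  obtain ⟨e', -, -, h1', h2', h3'⟩ := h'
  have : e = e' := by omega
  subst this
  exact Prod.ext (h2.trans h2'.symm) (h3.trans h3'.symm)

lemma rl_size {c : ℤ × ℤ} {d : ℕ × ℕ} {H : ℕ} (h : Rl c d) (hH : 4 * |c.1| ^ 3 ≤ H) :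
    d.1 ^ 6 ≤ 7 * H ∧ d.2 ^ 6 ≤ 7 * H := by
  obtain ⟨e, h1, h2, h3, h4, -⟩ := h
  set a : ℤ := (d.1 : ℤ) with ha
  set b : ℤ := (d.2 : ℤ) with hb
  have ha0 : 0 ≤ a := by positivity
  have hb0 : 0 ≤ b := by positivity
  have e1 : -(3 * c.1) = a ^ 2 + a * b + b ^ 2 := by
    have h5 : 3 * e = -(2 * a + b) := by linarith
    have h6 : 3 * (-(3 * c.1)) = 3 * (a ^ 2 + a * b + b ^ 2) := by
      rw [h4]
      have : 3 * (-(3 * (e * (e + a) + e * (e + a + b) + (e + a) * (e + a + b)))) =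
        -((3 * e) * (3 * e + 3 * a) + (3 * e) * (3 * e + 3 * a + 3 * b) +
          (3 * e + 3 * a) * (3 * e + 3 * a + 3 * b)) := by ring
      rw [this, h5]
      ring
    linarith
  have e2 : 3 * |c.1| = a ^ 2 + a * b + b ^ 2 := by
    have h5 : 0 ≤ a ^ 2 + a * b + b ^ 2 := by positivity
    have h6 : c.1 ≤ 0 := by linarith
    rw [abs_of_nonpos h6]
    linarith
  have key : ∀ x : ℤ, 0 ≤ x → x ^ 2 ≤ 3 * |c.1| → x ^ 6 ≤ 7 * H := by
    intro x hx h5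
    have h6 : (x ^ 2) ^ 3 ≤ (3 * |c.1|) ^ 3 := pow_le_pow_left₀ (by positivity) h5 3
    have h7 : (3 * |c.1|) ^ 3 = 27 * |c.1| ^ 3 := by ring
    have h8 : x ^ 6 = (x ^ 2) ^ 3 := by ring
    have h9 : (0 : ℤ) ≤ H := by positivity
    rw [h8]
    linarith
  have k1 := key a ha0 (by rw [e2]; nlinarith [mul_nonneg ha0 hb0])
  have k2 := key b hb0 (by rw [e2]; nlinarith [mul_nonneg ha0 hb0])
  rw [ha] at k1
  rw [hb] at k2
  clear_value a b
  clear e1 e2 h1 h2 h3 h4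
  constructor
  · exact_mod_cast k1
  · exact_mod_cast k2

lemma rl_rank {c : ℤ × ℤ} {d : ℕ × ℕ} (h : Rl c d) :
    (4 : ℝ) ^ Module.finrank ℤ (Sh c.1 c.2).toAffine.Point = rk4 d := by
  obtain ⟨A, B⟩ := c
  obtain ⟨a, b⟩ := d
  obtain ⟨e, h1, h2, h3, h4, h5⟩ := h
  simp only at h1 h2 h3 h4 h5
  unfold rk4 rkE
  congr 1
  have h3q : (3 : ℚ) * e = -(2 * a + b) := by
    have : (3 : ℚ) * e + 2 * a + b = 0 := by exact_mod_cast h3
    linarith
  have heq : (e : ℚ) = -(2 * a + b) / 3 := by linarith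
  have hAq : (A : ℚ) = e * (e + a) + e * (e + a + b) + (e + a) * (e + a + b) := by
    exact_mod_cast h4
  have hBq : (B : ℚ) = -(e * (e + a) * (e + a + b)) := by exact_mod_cast h5
  obtain ⟨φ⟩ := Pool.Agent.W261.RT.iso 0 A B e 1 one_ne_zero
  have hW : (⟨0, ((0 : ℚ) + 3 * e) / (1 : ℚ) ^ 2, 0,
      ((A : ℚ) + 2 * e * 0 + 3 * (e : ℚ) ^ 2) / (1 : ℚ) ^ 4,
      ((B : ℚ) + e * A + (e : ℚ) ^ 2 * 0 + (e : ℚ) ^ 3) / (1 : ℚ) ^ 6⟩ : WeierstrassCurve ℚ)
      = EAB (a : ℤ) ((a : ℤ) + b) := by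
    unfold EAB
    simp only [WeierstrassCurve.mk.injEq, true_and]
    refine ⟨?_, ?_, ?_⟩
    · rw [heq]; push_cast; ring
    · rw [hAq, heq]; push_cast; ring
    · rw [hAq, hBq, heq]; push_cast; ring
  rw [hW] at φ
  exact φ.toIntLinearEquiv.finrank_eq

open Classical in
/-- the parameters of a curve -/
noncomputable def Fr (c : ℤ × ℤ) : ℕ × ℕ := if h : ∃ d, Rl c d then h.choose else (1, 1)

lemma Fr_rl {c : ℤ × ℤ} {H : ℕ} (hc : c ∈ Cv 2 H) : Rl c (Fr c) := by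
  unfold Cv at hc
  simp only [mem_filter] at hc
  obtain ⟨-, hD, -, -, -, hT⟩ := hc
  have h := exRl hD hT
  unfold Fr
  rw [dif_pos h]
  exact h.choose_spec

/-- **Main theorem** -/
theorem main2 : ∃ C : ℝ, ∀ H : ℕ, ∑ c ∈ Cv 2 H,
    (4 : ℝ) ^ Module.finrank ℤ (Sh c.1 c.2).toAffine.Point ≤ C * (Cv 2 H).card := by
  classical
  obtain ⟨C, hC, hb⟩ := boxsum
  obtain ⟨c, C1, T0, hc, hlow⟩ := low2
  set C0 := 7 with hC0
  set D := C0 * C1 + 1 with hD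
  have hD1 : 1 ≤ D := by omega
  have hF' : ∀ H : ℕ, ∀ x ∈ Cv 2 H, (Fr x).1 ^ 6 ≤ C0 * H ∧ (Fr x).2 ^ 6 ≤ C0 * H := by
    intro H x hx
    have hx' := hx
    unfold Cv at hx'
    simp only [mem_filter] at hx'
    exact rl_size (Fr_rl hx) hx'.2.2.1
  have hsum : ∀ H T : ℕ, 1 ≤ T → (∀ x ∈ Cv 2 H, (Fr x).1 ≤ T ∧ (Fr x).2 ≤ T) →
      ∑ x ∈ Cv 2 H, (4 : ℝ) ^ Module.finrank ℤ (Sh x.1 x.2).toAffine.Point ≤ C * (T : ℝ) ^ 2 := by
    intro H T hT hx
    refine le_trans ?_ (hb T hT)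
    have hinj : Set.InjOn Fr (Cv 2 H : Set (ℤ × ℤ)) := by
      intro x hx x' hx' h
      have h1 := Fr_rl (mem_coe.1 hx)
      have h2 := Fr_rl (mem_coe.1 hx')
      rw [← h] at h2
      exact rl_inj h1 h2
    have h3 : ∑ x ∈ Cv 2 H, (4 : ℝ) ^ Module.finrank ℤ (Sh x.1 x.2).toAffine.Point =
        ∑ t ∈ (Cv 2 H).image Fr, rk4 t := by
      rw [sum_image hinj]
      exact sum_congr rfl fun x hx' => rl_rank (Fr_rl hx')
    rw [h3]
    apply sum_le_sum_of_subset_of_nonneg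
    · intro t ht
      obtain ⟨x, hx', rfl⟩ := mem_image.1 ht
      obtain ⟨e, a1, a2, -⟩ := Fr_rl hx'
      rw [mem_product, mem_Icc, mem_Icc]
      exact ⟨⟨a1, (hx x hx').1⟩, ⟨a2, (hx x hx').2⟩⟩
    · intro t _ _
      exact rk4_nonneg t
  refine ⟨C * ((D * (T0 + 1) : ℕ) : ℝ) ^ 2 + C * (2 * (D : ℝ)) ^ 2 / c, fun H => ?_⟩
  set K := (Cv 2 H).card with hK
  by_cases hK0 : K = 0
  · have : Cv 2 H = ∅ := card_eq_zero.1 hK0
    rw [this, sum_empty, hK0]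
    simp
  have hK1 : (1 : ℝ) ≤ K := by exact_mod_cast Nat.one_le_iff_ne_zero.2 hK0
  have hq0 : 0 ≤ C * (2 * (D : ℝ)) ^ 2 / c := by positivity
  have hr0 : 0 ≤ C * ((D * (T0 + 1) : ℕ) : ℝ) ^ 2 := by positivity
  set T := Nat.findGreatest (fun t => t ^ 6 ≤ C0 * H) (C0 * H) with hT
  have hle : ∀ x : ℕ, x ^ 6 ≤ C0 * H → x ≤ T := by
    intro x hx
    apply Nat.le_findGreatest
    · exact (Nat.le_self_pow (by omega) x).trans hx
    · exact hx
  have hTk : T ^ 6 ≤ C0 * H := by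
    have : (fun t => t ^ 6 ≤ C0 * H) T :=
      Nat.findGreatest_spec (P := fun t => t ^ 6 ≤ C0 * H) (Nat.zero_le _)
        (by rw [zero_pow (by omega)]; exact Nat.zero_le _)
    exact this
  have hxT : ∀ x ∈ Cv 2 H, (Fr x).1 ≤ T ∧ (Fr x).2 ≤ T := fun x hx =>
    ⟨hle _ (hF' H x hx).1, hle _ (hF' H x hx).2⟩
  rcases Nat.lt_or_ge T (D * (T0 + 1)) with hlt | hge
  · have h1 := hsum H (D * (T0 + 1)) (Nat.mul_pos hD1 (Nat.succ_pos _)) fun x hx =>
      ⟨(hxT x hx).1.trans hlt.le, (hxT x hx).2.trans hlt.le⟩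
    calc _ ≤ C * ((D * (T0 + 1) : ℕ) : ℝ) ^ 2 := h1
      _ ≤ C * ((D * (T0 + 1) : ℕ) : ℝ) ^ 2 * K := le_mul_of_one_le_right hr0 hK1
      _ ≤ _ := by
        apply mul_le_mul_of_nonneg_right _ (by linarith)
        linarith
  · have hT1 : 1 ≤ T := (Nat.mul_pos hD1 (Nat.succ_pos _)).trans_le hge
    have h1 := hsum H T hT1 hxT
    set T' := T / D with hT'
    have hT'0 : T0 + 1 ≤ T' := by
      rw [hT', Nat.le_div_iff_mul_le hD1, mul_comm]
      exact hge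
    have h2 : T' * D ≤ T := Nat.div_mul_le_self T D
    have h3 : C1 * T' ^ 6 ≤ H := by
      have a1 : (T' * D) ^ 6 ≤ C0 * H := (Nat.pow_le_pow_left h2 6).trans hTk
      rw [mul_pow] at a1
      have a2 : D ≤ D ^ 6 := Nat.le_self_pow (by omega) D
      have a3 : T' ^ 6 * (C0 * C1) ≤ C0 * H :=
        (Nat.mul_le_mul_left _ (by omega : C0 * C1 ≤ D ^ 6)).trans a1
      have a4 : C0 * (C1 * T' ^ 6) ≤ C0 * H := by
        calc C0 * (C1 * T' ^ 6) = T' ^ 6 * (C0 * C1) := by ring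
          _ ≤ _ := a3
      exact Nat.le_of_mul_le_mul_left a4 (by omega)
    have h4 := hlow T' H (by omega) h3
    have h5 : T ≤ 2 * D * T' := by
      have a1 : T < D * (T' + 1) := by
        rw [mul_comm]
        exact Nat.lt_mul_of_div_lt (by rw [← hT']; omega) hD1
      have a2 : D * (T' + 1) ≤ 2 * D * T' := by nlinarith
      omega
    have h6 : (T : ℝ) ≤ 2 * D * T' := by exact_mod_cast h5
    calc _ ≤ C * (T : ℝ) ^ 2 := h1
      _ ≤ C * (2 * D * T') ^ 2 := by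
        apply mul_le_mul_of_nonneg_left _ hC
        exact pow_le_pow_left₀ (Nat.cast_nonneg T) h6 2
      _ = C * (2 * (D : ℝ)) ^ 2 / c * (c * (T' : ℝ) ^ 2) := by
        field_simp
      _ ≤ C * (2 * (D : ℝ)) ^ 2 / c * K := mul_le_mul_of_nonneg_left h4 hq0
      _ ≤ _ := by
        apply mul_le_mul_of_nonneg_right _ (by linarith)
        linarith

end Pool.Agent.L0h94.FT
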