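import Mathlib

/-!
# The average of a multiplicative function close to one in residue classes
-/

set_option autoImplicit false

namespace Pool.Agent.L0h94.FT

open Finset

/-- the correction factor -/
noncomputable def hf (c z v : ℕ) : ℝ :=
  ∏ p ∈ v.primeFactors.filter (fun p => z < p), (p : ℝ) / ((p : ℝ) - c)

lemma hf_nonneg {c z v : ℕ} (hz : c ≤ z) : 0 ≤ hf c z v := by
  unfold hf
  refine prod_nonneg fun p hp => ?_
  have h1 := (mem_filter.1 hp).2
  have h2 : (c : ℝ) ≤ p := by exact_mod_cast (by omega : c ≤ p)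
  exact div_nonneg (Nat.cast_nonneg _) (by linarith)

lemma count_cls (Y s d r : ℕ) (hs : 0 < s) (hd : 0 < d) (hc : s.Coprime d) :
    (((Icc 1 Y).filter (fun v => v % s = r ∧ d ∣ v)).card : ℝ) ≤
      (Y : ℝ) / (s * d) + Real.sqrt Y / Real.sqrt d := by
  have hs' : (0 : ℝ) < s := by exact_mod_cast hs
  have hd' : (0 : ℝ) < d := by exact_mod_cast hd
  by_cases hdY : d ≤ Y
  · have h1 : ((Icc 1 Y).filter (fun v => v % s = r ∧ d ∣ v)).card ≤ Y / (s * d) + 1 := by
      rw [← card_range (Y / (s * d) + 1)]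
      apply card_le_card_of_injOn (fun v => v / (s * d))
      · intro v hv
        have hv' := mem_filter.1 (mem_coe.1 hv)
        rw [mem_coe, mem_range]
        have h2 := (mem_Icc.1 hv'.1).2
        exact Nat.lt_succ_of_le (Nat.div_le_div_right h2)
      · intro v hv v' hv' h
        have a := mem_filter.1 (mem_coe.1 hv)
        have b := mem_filter.1 (mem_coe.1 hv')
        have h3 : v ≡ v' [MOD s] := by
          show v % s = v' % s
          rw [a.2.1, b.2.1]
        have h4 : v ≡ v' [MOD d] := by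
          show v % d = v' % d
          rw [Nat.mod_eq_zero_of_dvd a.2.2, Nat.mod_eq_zero_of_dvd b.2.2]
        have h5 : v ≡ v' [MOD s * d] := (Nat.modEq_and_modEq_iff_modEq_mul hc).1 ⟨h3, h4⟩
        have h6 : v % (s * d) = v' % (s * d) := h5
        have h7 : v / (s * d) = v' / (s * d) := h
        rw [← Nat.div_add_mod v (s * d), ← Nat.div_add_mod v' (s * d), h6, h7]
    have h2 : (((Icc 1 Y).filter (fun v => v % s = r ∧ d ∣ v)).card : ℝ) ≤
        ((Y / (s * d) : ℕ) : ℝ) + 1 := by exact_mod_cast h1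
    have h3 : ((Y / (s * d) : ℕ) : ℝ) ≤ (Y : ℝ) / (s * d) := by
      have := @Nat.cast_div_le ℝ _ _ _ Y (s * d)
      push_cast at this
      exact this
    have h4 : (1 : ℝ) ≤ Real.sqrt Y / Real.sqrt d := by
      rw [one_le_div (Real.sqrt_pos.2 hd')]
      exact Real.sqrt_le_sqrt (by exact_mod_cast hdY)
    linarith
  · have h1 : (Icc 1 Y).filter (fun v => v % s = r ∧ d ∣ v) = ∅ := by
      rw [filter_eq_empty_iff]
      intro v hv h
      have h2 := mem_Icc.1 hv
      have h3 := Nat.le_of_dvd (by omega) h.2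
      omega
    rw [h1, card_empty, Nat.cast_zero]
    positivity

/-- the average in a residue class -/
theorem avr (c z : ℕ) (hz : 2 * c + 2 ≤ z) : ∃ C : ℝ, 0 ≤ C ∧ ∀ Y s r : ℕ, 0 < s → s ^ 4 ≤ Y →
    ∑ v ∈ (Icc 1 Y).filter (fun v => v % s = r ∧ v.Coprime s), hf c z v ≤ C * ((Y : ℝ) / s) := by
  have hsq : Summable (fun n : ℕ => 1 / (n : ℝ) ^ 2) := Real.summable_one_div_nat_pow.2 (by norm_num)
  have hsr : Summable (fun n : ℕ => 1 / (n : ℝ) ^ (3 / 2 : ℝ)) :=
    Real.summable_one_div_nat_rpow.2 (by norm_num)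
  set S2 : ℝ := ∑' n : ℕ, 1 / (n : ℝ) ^ 2 with hS2
  set S3 : ℝ := ∑' n : ℕ, 1 / (n : ℝ) ^ (3 / 2 : ℝ) with hS3
  refine ⟨Real.exp (2 * c * S2) + Real.exp (2 * c * S3), by positivity, ?_⟩
  intro Y s r hs hsY
  set Pr : Finset ℕ := (Icc 1 Y).filter (fun p => p.Prime ∧ z < p) with hPr
  set g : ℕ → ℝ := fun p => (c : ℝ) / ((p : ℝ) - c) with hg
  have hpc : ∀ p ∈ Pr, (p : ℝ) / 2 ≤ (p : ℝ) - c ∧ 0 < (p : ℝ) := by
    intro p hp
    rw [hPr, mem_filter] at hp
    have h1 : 2 * c + 2 < p := lt_of_le_of_lt hz hp.2.2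
    have h2 : 2 * (c : ℝ) + 2 < p := by exact_mod_cast h1
    have h3 : (0 : ℝ) ≤ c := Nat.cast_nonneg c
    exact ⟨by linarith, by linarith⟩
  have hg0 : ∀ p ∈ Pr, 0 ≤ g p := by
    intro p hp
    have := hpc p hp
    exact div_nonneg (Nat.cast_nonneg c) (by linarith)
  -- expansion
  have hexp : ∀ v ∈ Icc 1 Y, hf c z v = ∑ T ∈ Pr.powerset,
        if T ⊆ v.primeFactors.filter (fun p => z < p) then ∏ p ∈ T, g p else 0 := by
    intro v hv
    unfold hf
    rw [mem_Icc] at hv
    have hsub : v.primeFactors.filter (fun p => z < p) ⊆ Pr := by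
      intro p hp
      rw [mem_filter, Nat.mem_primeFactors] at hp
      rw [hPr, mem_filter, mem_Icc]
      have := Nat.le_of_dvd (by omega) hp.1.2.1
      exact ⟨⟨hp.1.1.one_le, by omega⟩, hp.1.1, hp.2⟩
    have h1 : ∏ p ∈ v.primeFactors.filter (fun p => z < p), (p : ℝ) / ((p : ℝ) - c)
        = ∏ p ∈ v.primeFactors.filter (fun p => z < p), (1 + g p) := by
      apply prod_congr rfl
      intro p hp
      have h2 := hpc p (hsub hp)
      have h3 : (p : ℝ) - c ≠ 0 := by
        have := h2.1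
        have := h2.2
        linarith
      simp only [hg]
      field_simp
      ring
    rw [h1, prod_one_add, ← sum_filter]
    apply sum_congr _ (fun _ _ => rfl)
    ext T
    simp only [mem_powerset, mem_filter]
    exact ⟨fun h => ⟨h.trans hsub, h⟩, fun h => h.2⟩
  rw [sum_congr rfl (fun v hv => hexp v (mem_filter.1 hv).1), sum_comm]
  -- each subset
  have hT : ∀ T ∈ Pr.powerset, (∑ v ∈ (Icc 1 Y).filter (fun v => v % s = r ∧ v.Coprime s),
      if T ⊆ v.primeFactors.filter (fun p => z < p) then ∏ p ∈ T, g p else 0)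
      ≤ ((Y : ℝ) / s) * ∏ p ∈ T, (g p / p) + Real.sqrt Y * ∏ p ∈ T, (g p / Real.sqrt p) := by
    intro T hT
    rw [mem_powerset] at hT
    rw [← sum_filter, sum_const, nsmul_eq_mul]
    have hG0 : 0 ≤ ∏ p ∈ T, g p := prod_nonneg fun p hp => hg0 p (hT hp)
    have hne : ∏ p ∈ T, p ≠ 0 := by
      apply prod_ne_zero_iff.2
      intro p hp
      have := (mem_filter.1 (hT hp)).2.1
      exact this.ne_zero
    have hcard : ((((Icc 1 Y).filter (fun v => v % s = r ∧ v.Coprime s)).filter
        (fun v => T ⊆ v.primeFactors.filter (fun p => z < p))).card : ℝ)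
        ≤ (Y : ℝ) / (s * ((∏ p ∈ T, p : ℕ) : ℝ)) +
          Real.sqrt Y / Real.sqrt ((∏ p ∈ T, p : ℕ) : ℝ) := by
      have hdiv : ∀ v, T ⊆ v.primeFactors.filter (fun p => z < p) → ∏ p ∈ T, p ∣ v := by
        intro v hv
        apply prod_primes_dvd
        · intro p hp
          exact ((mem_filter.1 (hT hp)).2.1).prime
        · intro p hp
          have := hv hp
          rw [mem_filter, Nat.mem_primeFactors] at this
          exact this.1.2.1
      by_cases hcop : s.Coprime (∏ p ∈ T, p)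
      · refine le_trans ?_ (count_cls Y s _ r hs (Nat.pos_of_ne_zero hne) hcop)
        norm_cast
        apply card_le_card
        intro v hv
        rw [mem_filter, mem_filter] at hv
        rw [mem_filter]
        exact ⟨hv.1.1, hv.1.2.1, hdiv v hv.2⟩
      · have hE : ((Icc 1 Y).filter (fun v => v % s = r ∧ v.Coprime s)).filter
            (fun v => T ⊆ v.primeFactors.filter (fun p => z < p)) = ∅ := by
          rw [filter_eq_empty_iff]
          intro v hv h
          apply hcop
          have h1 := hdiv v h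
          have h2 := (mem_filter.1 hv).2.2
          exact (Nat.Coprime.coprime_dvd_left h1 h2).symm
        rw [hE, card_empty, Nat.cast_zero]
        positivity
    have hsq : Real.sqrt ((∏ p ∈ T, p : ℕ) : ℝ) = ∏ p ∈ T, Real.sqrt p := by
      push_cast
      exact Real.sqrt_prod _ (fun p _ => Nat.cast_nonneg p)
    calc ((((Icc 1 Y).filter (fun v => v % s = r ∧ v.Coprime s)).filter
        (fun v => T ⊆ v.primeFactors.filter (fun p => z < p))).card : ℝ) * ∏ p ∈ T, g p
        ≤ ((Y : ℝ) / (s * ((∏ p ∈ T, p : ℕ) : ℝ)) +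
          Real.sqrt Y / Real.sqrt ((∏ p ∈ T, p : ℕ) : ℝ)) * ∏ p ∈ T, g p :=
          mul_le_mul_of_nonneg_right hcard hG0
      _ = _ := by
          have e1 : ∏ p ∈ T, (g p / (p : ℝ)) = (∏ p ∈ T, g p) / ∏ p ∈ T, (p : ℝ) :=
            prod_div_distrib _ _
          have e2 : ∏ p ∈ T, (g p / Real.sqrt (p : ℝ)) =
              (∏ p ∈ T, g p) / ∏ p ∈ T, Real.sqrt (p : ℝ) := prod_div_distrib _ _
          rw [hsq, e1, e2, Nat.cast_prod]
          ring
  refine (sum_le_sum hT).trans ?_
  rw [sum_add_distrib, ← mul_sum, ← mul_sum, ← prod_one_add, ← prod_one_add]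
  have hgp : ∀ p ∈ Pr, g p ≤ 2 * c / p := by
    intro p hp
    have h2 := hpc p hp
    simp only [hg]
    have h4 : (c : ℝ) / ((p : ℝ) - c) ≤ c / ((p : ℝ) / 2) := by
      apply div_le_div_of_nonneg_left (Nat.cast_nonneg c) (by linarith [h2.2]) h2.1
    refine h4.trans (le_of_eq ?_)
    have := h2.2.ne'
    field_simp
  have hP1 : ∏ p ∈ Pr, (1 + g p / p) ≤ Real.exp (2 * c * S2) := by
    calc ∏ p ∈ Pr, (1 + g p / p) ≤ ∏ p ∈ Pr, Real.exp (2 * c * (1 / (p : ℝ) ^ 2)) := by
          apply prod_le_prod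
          · intro p hp
            have := hg0 p hp
            have := (hpc p hp).2
            positivity
          · intro p hp
            have h2 := (hpc p hp).2
            have h3 : g p / p ≤ 2 * c * (1 / (p : ℝ) ^ 2) := by
              rw [div_le_iff₀ h2]
              refine (hgp p hp).trans (le_of_eq ?_)
              field_simp
            have h4 := Real.add_one_le_exp (2 * c * (1 / (p : ℝ) ^ 2))
            linarith
      _ = Real.exp (∑ p ∈ Pr, 2 * c * (1 / (p : ℝ) ^ 2)) := (Real.exp_sum _ _).symm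
      _ ≤ Real.exp (2 * c * S2) := by
          apply Real.exp_le_exp.2
          rw [← mul_sum]
          apply mul_le_mul_of_nonneg_left _ (by positivity)
          exact hsq.sum_le_tsum Pr (fun n _ => by positivity)
  have hP2 : ∏ p ∈ Pr, (1 + g p / Real.sqrt p) ≤ Real.exp (2 * c * S3) := by
    calc ∏ p ∈ Pr, (1 + g p / Real.sqrt p) ≤
          ∏ p ∈ Pr, Real.exp (2 * c * (1 / (p : ℝ) ^ (3 / 2 : ℝ))) := by
          apply prod_le_prod
          · intro p hp
            have := hg0 p hp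
            have := (hpc p hp).2
            positivity
          · intro p hp
            have h2 := (hpc p hp).2
            have hs2 : 0 < Real.sqrt p := Real.sqrt_pos.2 h2
            have e1 : (p : ℝ) ^ (3 / 2 : ℝ) = p * Real.sqrt p := by
              rw [Real.sqrt_eq_rpow, show (3 / 2 : ℝ) = 1 + 1 / 2 by norm_num,
                Real.rpow_add h2, Real.rpow_one]
            have h3 : g p / Real.sqrt p ≤ 2 * c * (1 / (p : ℝ) ^ (3 / 2 : ℝ)) := by
              rw [e1, div_le_iff₀ hs2]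
              refine (hgp p hp).trans (le_of_eq ?_)
              field_simp
            have h4 := Real.add_one_le_exp (2 * c * (1 / (p : ℝ) ^ (3 / 2 : ℝ)))
            linarith
      _ = Real.exp (∑ p ∈ Pr, 2 * c * (1 / (p : ℝ) ^ (3 / 2 : ℝ))) := (Real.exp_sum _ _).symm
      _ ≤ Real.exp (2 * c * S3) := by
          apply Real.exp_le_exp.2
          rw [← mul_sum]
          apply mul_le_mul_of_nonneg_left _ (by positivity)
          exact hsr.sum_le_tsum Pr (fun n _ => by positivity)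
  have hs' : (1 : ℝ) ≤ s := by exact_mod_cast hs
  have hYs : Real.sqrt Y ≤ (Y : ℝ) / s := by
    rw [le_div_iff₀ (by linarith)]
    have h1 : (s : ℝ) ≤ Real.sqrt Y := by
      apply Real.le_sqrt_of_sq_le
      have h2 : ((s : ℝ)) ^ 4 ≤ Y := by exact_mod_cast hsY
      have h3 : (s : ℝ) ^ 2 ≤ (s : ℝ) ^ 4 := pow_le_pow_right₀ hs' (by norm_num)
      linarith
    calc Real.sqrt Y * s ≤ Real.sqrt Y * Real.sqrt Y :=
          mul_le_mul_of_nonneg_left h1 (Real.sqrt_nonneg _)
      _ = Y := Real.mul_self_sqrt (Nat.cast_nonneg _)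
  have hYs0 : (0 : ℝ) ≤ (Y : ℝ) / s := by positivity
  have a1 := mul_le_mul_of_nonneg_left hP1 hYs0
  have a2 := mul_le_mul hYs hP2 (prod_nonneg fun p hp => by
    have := hg0 p hp
    have := (hpc p hp).2
    positivity) hYs0
  nlinarith [a1, a2]

/-- the average of a product of local functions -/
theorem avs (c z : ℕ) (hz : 2 * c + 2 ≤ z) : ∃ C : ℝ, 0 ≤ C ∧ ∀ (Y s : ℕ) (φ : ℕ → ℕ → ℝ),
    Squarefree s → s ^ 4 ≤ Y → (∀ p v, 0 ≤ φ p v) →
    ∑ v ∈ (Icc 1 Y).filter (fun v => v.Coprime s),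
      (∏ p ∈ s.primeFactors, φ p (v % p)) * hf c z v ≤
      C * Y * ∏ p ∈ s.primeFactors, ((1 / (p : ℝ)) * ∑ r ∈ (range p).filter (fun r => r ≠ 0), φ p r) := by
  classical
  obtain ⟨C, hC, h⟩ := avr c z hz
  refine ⟨C, hC, fun Y s φ hsf hsY hφ => ?_⟩
  have hs0 : s ≠ 0 := hsf.ne_zero
  have hspos : 0 < s := Nat.pos_of_ne_zero hs0
  have hmap : ∀ v ∈ (Icc 1 Y).filter (fun v => v.Coprime s),
      v % s ∈ (range s).filter (fun r => r.Coprime s) := by
    intro v hv
    rw [mem_filter, mem_range]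
    refine ⟨Nat.mod_lt _ hspos, ?_⟩
    have h1 := (mem_filter.1 hv).2
    rw [Nat.Coprime, ← Nat.gcd_rec, Nat.gcd_comm] 
    exact h1
  rw [← sum_fiberwise_of_maps_to hmap]
  have h1 : ∀ r ∈ (range s).filter (fun r => r.Coprime s),
      ∑ v ∈ ((Icc 1 Y).filter (fun v => v.Coprime s)).filter (fun v => v % s = r),
        (∏ p ∈ s.primeFactors, φ p (v % p)) * hf c z v ≤
      (∏ p ∈ s.primeFactors, φ p (r % p)) * (C * ((Y : ℝ) / s)) := by
    intro r _
    have h2 : ∀ v ∈ ((Icc 1 Y).filter (fun v => v.Coprime s)).filter (fun v => v % s = r),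
        (∏ p ∈ s.primeFactors, φ p (v % p)) * hf c z v =
        (∏ p ∈ s.primeFactors, φ p (r % p)) * hf c z v := by
      intro v hv
      congr 1
      refine prod_congr rfl fun p hp => ?_
      rw [← (mem_filter.1 hv).2, Nat.mod_mod_of_dvd _ (Nat.dvd_of_mem_primeFactors hp)]
    rw [sum_congr rfl h2, ← mul_sum]
    refine mul_le_mul_of_nonneg_left ?_ (prod_nonneg fun p _ => hφ _ _)
    have h3 := h Y s r hspos hsY
    rw [filter_filter]
    have h4 : (Icc 1 Y).filter (fun v => v.Coprime s ∧ v % s = r) =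
        (Icc 1 Y).filter (fun v => v % s = r ∧ v.Coprime s) := by
      apply filter_congr
      intro v _
      exact and_comm
    rw [h4]
    exact h3
  refine (sum_le_sum h1).trans ?_
  rw [← sum_mul]
  have hprim : ∀ p ∈ s.primeFactors, p.Prime := fun p hp => Nat.prime_of_mem_primeFactors hp
  have prs : ∏ p ∈ s.primeFactors, p = s := Nat.prod_primeFactors_of_squarefree hsf
  have h2 : ∑ r ∈ (range s).filter (fun r => r.Coprime s), ∏ p ∈ s.primeFactors, φ p (r % p) ≤
      ∏ p ∈ s.primeFactors, ∑ r ∈ (range p).filter (fun r => r ≠ 0), φ p r := by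
    rw [prod_sum]
    set i : ℕ → (∀ p ∈ s.primeFactors, ℕ) := fun r => fun p _ => r % p with hi
    have e1 : ∀ r, ∏ p ∈ s.primeFactors, φ p (r % p) =
        ∏ x ∈ s.primeFactors.attach, φ x.1 (i r x.1 x.2) := by
      intro r
      rw [← prod_attach]
    rw [sum_congr rfl fun r _ => e1 r]
    have hinj : Set.InjOn i ((range s).filter (fun r => r.Coprime s) : Finset ℕ) := by
      intro x hx x' hx' hxx
      have h3 : ((∏ p ∈ s.primeFactors, p : ℕ) : ℤ) ∣ (x' : ℤ) - x := by
        rw [Nat.cast_prod]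
        apply Finset.prod_dvd_of_coprime
        · intro p hp q hq hpq
          rw [Function.onFun]
          exact (Nat.isCoprime_iff_coprime.2
            ((Nat.coprime_primes (hprim p hp) (hprim q hq)).2 hpq))
        · intro p hp
          have h4 : x % p = x' % p := congrFun (congrFun hxx p) hp
          have h5 : x ≡ x' [MOD p] := h4
          exact (Nat.modEq_iff_dvd).1 h5
      rw [prs] at h3
      have h6 : x ≡ x' [MOD s] := (Nat.modEq_iff_dvd).2 h3
      exact Nat.ModEq.eq_of_lt_of_lt h6 (mem_range.1 (mem_filter.1 (mem_coe.1 hx)).1)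
        (mem_range.1 (mem_filter.1 (mem_coe.1 hx')).1)
    rw [← sum_image (f := fun x : (∀ p ∈ s.primeFactors, ℕ) =>
      ∏ y ∈ s.primeFactors.attach, φ y.1 (x y.1 y.2)) hinj]
    apply sum_le_sum_of_subset_of_nonneg
    · intro x hx
      obtain ⟨r, hr, rfl⟩ := mem_image.1 hx
      rw [mem_pi]
      intro p hp
      rw [mem_filter, mem_range]
      refine ⟨Nat.mod_lt _ (hprim p hp).pos, fun h0 => ?_⟩
      have h3 : p ∣ r := Nat.dvd_of_mod_eq_zero h0
      have h4 : p ∣ s := Nat.dvd_of_mem_primeFactors hp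
      have h5 := (mem_filter.1 hr).2
      have h6 : p ∣ 1 := by
        rw [← h5.gcd_eq_one]
        exact Nat.dvd_gcd h3 h4
      exact (hprim p hp).one_lt.ne' (Nat.dvd_one.1 h6)
    · intro x _ _
      exact prod_nonneg fun y _ => hφ _ _
  have hCY : 0 ≤ C * ((Y : ℝ) / s) := by positivity
  refine (mul_le_mul_of_nonneg_right h2 hCY).trans (le_of_eq ?_)
  have prr : ∏ p ∈ s.primeFactors, (p : ℝ) = s := by
    rw [← Nat.cast_prod, prs]
  rw [prod_mul_distrib]
  have e2 : ∏ p ∈ s.primeFactors, (1 / (p : ℝ)) = 1 / s := by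
    rw [prod_div_distrib, prod_const_one, prr]
  rw [e2]
  ring

end Pool.Agent.L0h94.FT
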