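import Pool.Agent.L0h94.FT.Core2

/-!
# The sum over a box
-/

set_option autoImplicit false

namespace Pool.Agent.L0h94.FT

open Finset Pool.Agent.W262.RK
open Pool.Agent.W307.RT (fv)

/-- `4 ^ rank` of the curve with the roots `0`, `A`, `B` -/
noncomputable def rkE (A B : ℤ) : ℝ := (4 : ℝ) ^ Module.finrank ℤ (EAB A B).toAffine.Point

/-- `4 ^ rank` of the curve with the roots `0`, `d.1`, `d.1 + d.2` -/
noncomputable def rk4 (d : ℕ × ℕ) : ℝ := rkE (d.1 : ℤ) ((d.1 : ℤ) + d.2)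

lemma rk4_nonneg (d : ℕ × ℕ) : 0 ≤ rk4 d := by unfold rk4 rkE; positivity

/-- the coefficients of the first family -/
def aa : Fin 3 → ℤ := ![1, 2, -1]

/-- the coefficients of the first family -/
def b1 : Fin 3 → ℤ := ![0, 1, -1]

/-- the coefficients of the second family -/
def b2 : Fin 3 → ℤ := ![1, 1, 0]

lemma fa0 (x t : ℤ) : fv aa b1 x t 0 = x := by
  show (1 : ℤ) * x + 0 * t = x
  ring

lemma fa1 (x t : ℤ) : fv aa b1 x t 1 = 2 * x + t := by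
  show (2 : ℤ) * x + 1 * t = _
  ring

lemma fa2 (x t : ℤ) : fv aa b1 x t 2 = -(x + t) := by
  show (-1 : ℤ) * x + (-1) * t = _
  ring

lemma fb0 (x t : ℤ) : fv aa b2 x t 0 = x + t := by
  show (1 : ℤ) * x + 1 * t = _
  ring

lemma fb1 (x t : ℤ) : fv aa b2 x t 1 = 2 * x + t := by
  show (2 : ℤ) * x + 1 * t = _
  ring

lemma fb2 (x t : ℤ) : fv aa b2 x t 2 = -x := by
  show (-1 : ℤ) * x + 0 * t = _
  ring

lemma aa_ne : ∀ j, aa j ≠ 0 := by decide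

lemma res1 : ∀ j l, j ≠ l → Res aa b1 j l ≠ 0 := by decide

lemma res2 : ∀ j l, j ≠ l → Res aa b2 j l ≠ 0 := by decide

lemma four_pow (n : ℕ) : (4 : ℝ) ^ n = (2 ^ n) ^ 2 := by
  rw [← pow_mul, mul_comm, pow_mul]
  norm_num

lemma rkE_eq (A B : ℤ) :
    ((2 : ℝ) ^ Module.finrank ℤ (EAB A B).toAffine.Point) ^ 2 = rkE A B := by
  unfold rkE
  rw [four_pow]

/-- the first family -/
lemma fam1 : ∃ C : ℝ, ∀ X : ℕ, 1 ≤ X →
    ∑ ω ∈ TX aa b1 X, rk4 (ω.1 * ω.2.1, ω.1 * (ω.2.1 + ω.2.2)) ≤ C * (X : ℝ) ^ 4 := by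
  obtain ⟨C, h⟩ := core2 aa_ne res1 (fun x t => by rw [fa0, fa1, fa2]; ring)
  refine ⟨C, fun X hX => le_trans (le_of_eq (sum_congr rfl fun ω _ => ?_)) (h X hX)⟩
  rw [rkE_eq, fa0, fa1]
  unfold rk4
  congr 1
  push_cast
  ring

/-- the second family -/
lemma fam2 : ∃ C : ℝ, ∀ X : ℕ, 1 ≤ X →
    ∑ ω ∈ TX aa b2 X, rk4 (ω.1 * (ω.2.1 + ω.2.2), ω.1 * ω.2.1) ≤ C * (X : ℝ) ^ 4 := by
  obtain ⟨C, h⟩ := core2 aa_ne res2 (fun x t => by rw [fb0, fb1, fb2]; ring)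
  refine ⟨C, fun X hX => le_trans (le_of_eq (sum_congr rfl fun ω _ => ?_)) (h X hX)⟩
  rw [rkE_eq, fb0, fb1]
  unfold rk4
  congr 1
  push_cast
  ring

/-- the trivial bound -/
lemma triv : ∃ C : ℝ, 0 < C ∧ ∀ n : ℕ, 1 ≤ n → ∀ d ∈ Icc 1 n ×ˢ Icc 1 n,
    rk4 d ≤ C * (n : ℝ) ^ (1 / 4 : ℝ) := by
  obtain ⟨C, hC, h⟩ := om_le 16 (1 / 12) (by norm_num) (by norm_num)
  refine ⟨256 * (C * (4 : ℝ) ^ (1 / 12 : ℝ)), by positivity, ?_⟩
  rintro n hn ⟨a, b⟩ hd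
  rw [mem_product, mem_Icc, mem_Icc] at hd
  obtain ⟨⟨h1, h2⟩, h3, h4⟩ := hd
  simp only at h1 h2 h3 h4
  have hA : (a : ℤ) ≠ 0 := by exact_mod_cast (by omega : a ≠ 0)
  have hB : ((a : ℤ) + b) ≠ 0 := by
    have : (0 : ℤ) < (a : ℤ) + b := by exact_mod_cast (by omega : 0 < a + b)
    exact this.ne'
  have hAB : (a : ℤ) ≠ (a : ℤ) + b := by
    intro h
    have : (b : ℤ) = 0 := by linarith
    have h5 : b = 0 := by exact_mod_cast this
    omega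
  have h5 := rank_triv hA hB hAB
  set N := (2 * (a : ℤ) * ((a : ℤ) + b) * ((a : ℤ) - ((a : ℤ) + b))).natAbs with hN
  have hN1 : N = 2 * a * (a + b) * b := by
    rw [hN, Int.natAbs_mul, Int.natAbs_mul, Int.natAbs_mul]
    have e1 : ((a : ℤ) - ((a : ℤ) + b)).natAbs = b := by omega
    have e2 : ((a : ℤ) + b).natAbs = a + b := by omega
    rw [e1, e2]
    simp
  have hN0 : N ≠ 0 := by
    rw [hN1]
    positivity
  have hNle : N ≤ 4 * n ^ 3 := by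
    rw [hN1]
    calc 2 * a * (a + b) * b ≤ 2 * n * (n + n) * n :=
          Nat.mul_le_mul (Nat.mul_le_mul (Nat.mul_le_mul_left 2 h2) (by omega)) h4
      _ = 4 * n ^ 3 := by ring
  have hn0 : (0 : ℝ) < n := by exact_mod_cast hn
  unfold rk4
  rw [← rkE_eq]
  have h6 : (2 : ℝ) ^ Module.finrank ℤ (EAB (a : ℤ) ((a : ℤ) + b)).toAffine.Point ≤
      4 ^ (N.primeFactors.card + 2) := by exact_mod_cast h5
  calc ((2 : ℝ) ^ Module.finrank ℤ (EAB (a : ℤ) ((a : ℤ) + b)).toAffine.Point) ^ 2 ≤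
      (4 ^ (N.primeFactors.card + 2)) ^ 2 := pow_le_pow_left₀ (by positivity) h6 2
    _ = 256 * 16 ^ N.primeFactors.card := by
        rw [← pow_mul, mul_comm _ 2, pow_mul, pow_add]
        norm_num
        ring
    _ ≤ 256 * (C * (N : ℝ) ^ (1 / 12 : ℝ)) := by
        apply mul_le_mul_of_nonneg_left (h N hN0) (by norm_num)
    _ ≤ 256 * (C * ((4 : ℝ) ^ (1 / 12 : ℝ) * (n : ℝ) ^ (1 / 4 : ℝ))) := by
        apply mul_le_mul_of_nonneg_left _ (by norm_num)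
        apply mul_le_mul_of_nonneg_left _ hC.le
        have e3 : (n : ℝ) ^ (1 / 4 : ℝ) = ((n : ℝ) ^ 3) ^ (1 / 12 : ℝ) := by
          rw [← Real.rpow_natCast, ← Real.rpow_mul hn0.le]
          norm_num
        rw [e3, ← Real.mul_rpow (by norm_num) (by positivity)]
        apply Real.rpow_le_rpow (Nat.cast_nonneg _) _ (by norm_num)
        exact_mod_cast hNle
    _ = _ := by ring

/-- the pairs with large common divisor -/
lemma big_gcd {n X : ℕ} (hX : X ≠ 0) :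
    (((Icc 1 n ×ˢ Icc 1 n).filter (fun d : ℕ × ℕ => X < Nat.gcd d.1 d.2)).card : ℝ) ≤
      (n : ℝ) ^ 2 / X := by
  rcases Nat.lt_or_ge X n with hXn | hXn
  swap
  · have h1 : (Icc 1 n ×ˢ Icc 1 n).filter (fun d : ℕ × ℕ => X < Nat.gcd d.1 d.2) = ∅ := by
      rw [filter_eq_empty_iff]
      rintro ⟨a, b⟩ hd h
      rw [mem_product, mem_Icc, mem_Icc] at hd
      have h2 := Nat.gcd_le_left b (by omega : 0 < a)
      simp only at hd h
      omega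
    rw [h1, card_empty, Nat.cast_zero]
    positivity
  have hmap : ∀ d ∈ (Icc 1 n ×ˢ Icc 1 n).filter (fun d : ℕ × ℕ => X < Nat.gcd d.1 d.2),
      Nat.gcd d.1 d.2 ∈ Ioc X n := by
    rintro ⟨a, b⟩ hd
    rw [mem_filter, mem_product, mem_Icc, mem_Icc] at hd
    rw [mem_Ioc]
    have h2 := Nat.gcd_le_left b (by omega : 0 < a)
    simp only at hd ⊢
    omega
  have h1 : ∀ g ∈ Ioc X n, ((((Icc 1 n ×ˢ Icc 1 n).filter
      (fun d : ℕ × ℕ => X < Nat.gcd d.1 d.2)).filter (fun d => Nat.gcd d.1 d.2 = g)).card : ℝ) ≤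
      (n : ℝ) ^ 2 * ((g : ℝ) ^ 2)⁻¹ := by
    intro g hg
    have hg0 := (mem_Ioc.1 hg).1
    have hIcc : Icc 1 n = Ioc 0 n := by
      ext a
      rw [mem_Icc, mem_Ioc]
      omega
    have h2 : (((Icc 1 n ×ˢ Icc 1 n).filter
        (fun d : ℕ × ℕ => X < Nat.gcd d.1 d.2)).filter (fun d => Nat.gcd d.1 d.2 = g)) ⊆
        ((Ioc 0 n).filter (fun a => g ∣ a)) ×ˢ ((Ioc 0 n).filter (fun a => g ∣ a)) := by
      rintro ⟨a, b⟩ hd
      rw [mem_filter, mem_filter, mem_product, hIcc] at hd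
      rw [mem_product, mem_filter, mem_filter]
      obtain ⟨⟨⟨h3, h4⟩, -⟩, h5⟩ := hd
      simp only at h3 h4 h5 ⊢
      exact ⟨⟨h3, h5 ▸ Nat.gcd_dvd_left a b⟩, ⟨h4, h5 ▸ Nat.gcd_dvd_right a b⟩⟩
    have h3 := card_le_card h2
    rw [card_product, Nat.Ioc_filter_dvd_card_eq_div] at h3
    have h4 : ((n / g : ℕ) : ℝ) ≤ (n : ℝ) / g := Nat.cast_div_le
    have h5 : ((n / g * (n / g) : ℕ) : ℝ) ≤ (n : ℝ) ^ 2 * ((g : ℝ) ^ 2)⁻¹ := by
      push_cast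
      calc ((n / g : ℕ) : ℝ) * ((n / g : ℕ) : ℝ) ≤ ((n : ℝ) / g) * ((n : ℝ) / g) :=
            mul_le_mul h4 h4 (Nat.cast_nonneg _) (by positivity)
        _ = _ := by ring
    exact le_trans (by exact_mod_cast h3) h5
  rw [card_eq_sum_card_fiberwise hmap]
  push_cast
  refine (sum_le_sum h1).trans ?_
  rw [← mul_sum, div_eq_mul_inv]
  apply mul_le_mul_of_nonneg_left _ (by positivity)
  have h2 := sum_Ioc_inv_sq_le_sub (α := ℝ) hX hXn.le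
  have h3 : (0 : ℝ) ≤ ((n : ℝ))⁻¹ := by positivity
  linarith

end Pool.Agent.L0h94.FT
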