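import Pool.Agent.L0h94.FT.Bx

/-!
# The sum over a box, second part
-/

set_option autoImplicit false

namespace Pool.Agent.L0h94.FT

open Finset Pool.Agent.W262.RK
open Pool.Agent.W307.RT (fv)

lemma sum_inj_le {ι κ : Type} [DecidableEq κ] (A : Finset ι) (B : Finset κ) (φ : ι → κ)
    (ψ : κ → ι) (hψ : ∀ a ∈ A, ψ (φ a) = a) (hB : ∀ a ∈ A, φ a ∈ B) (f : ι → ℝ)
    (hf : ∀ a, 0 ≤ f a) : ∑ a ∈ A, f a ≤ ∑ b ∈ B, f (ψ b) := by
  have hinj : Set.InjOn φ (A : Set ι) := by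
    intro a ha a' ha' h
    rw [← hψ a ha, ← hψ a' ha', h]
  have h1 : ∑ a ∈ A, f a = ∑ b ∈ A.image φ, f (ψ b) := by
    rw [sum_image hinj]
    exact sum_congr rfl fun a ha => by rw [hψ a ha]
  rw [h1]
  apply sum_le_sum_of_subset_of_nonneg
  · intro b hb
    obtain ⟨a, ha, rfl⟩ := mem_image.1 hb
    exact hB a ha
  · intro b _ _
    exact hf _

lemma F3a (x t : ℕ) (hx : 1 ≤ x) (ht : 1 ≤ t) : F3 aa b1 x t ≠ 0 := by
  unfold F3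
  rw [Fin.prod_univ_three, fa0, fa1, fa2]
  have h1 : (1 : ℤ) ≤ x := by exact_mod_cast hx
  have h2 : (1 : ℤ) ≤ t := by exact_mod_cast ht
  have e1 : (x : ℤ) ≠ 0 := by omega
  have e2 : (2 * (x : ℤ) + t) ≠ 0 := by omega
  have e3 : (-((x : ℤ) + t)) ≠ 0 := by omega
  exact mul_ne_zero (mul_ne_zero e1 e2) e3

lemma F3b (x t : ℕ) (hx : 1 ≤ x) (ht : 1 ≤ t) : F3 aa b2 x t ≠ 0 := by
  unfold F3
  rw [Fin.prod_univ_three, fb0, fb1, fb2]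
  have h1 : (1 : ℤ) ≤ x := by exact_mod_cast hx
  have h2 : (1 : ℤ) ≤ t := by exact_mod_cast ht
  have e1 : ((x : ℤ) + t) ≠ 0 := by omega
  have e2 : (2 * (x : ℤ) + t) ≠ 0 := by omega
  have e3 : (-(x : ℤ)) ≠ 0 := by omega
  exact mul_ne_zero (mul_ne_zero e1 e2) e3

/-- the parameters of two different numbers -/
lemma params {a b n X : ℕ} (ha : 1 ≤ a) (hab : a < b) (hbn : b ≤ n) (hnX : n ≤ X ^ 2)
    (hg : Nat.gcd a b ≤ X) :
    (1 ≤ Nat.gcd a b ∧ Nat.gcd a b ≤ X) ∧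
      (1 ≤ a / Nat.gcd a b ∧ a / Nat.gcd a b ≤ X ^ 2 / Nat.gcd a b) ∧
      (1 ≤ (b - a) / Nat.gcd a b ∧ (b - a) / Nat.gcd a b ≤ X ^ 2 / Nat.gcd a b) ∧
      (a / Nat.gcd a b).Coprime ((b - a) / Nat.gcd a b) ∧
      Nat.gcd a b * (a / Nat.gcd a b) = a ∧
      Nat.gcd a b * (a / Nat.gcd a b + (b - a) / Nat.gcd a b) = b := by
  have hg0 : 0 < Nat.gcd a b := Nat.gcd_pos_of_pos_left b ha
  set g := Nat.gcd a b with hgdef
  have hga : g ∣ a := Nat.gcd_dvd_left a b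
  have hgb : g ∣ b := Nat.gcd_dvd_right a b
  have hgs : g ∣ b - a := Nat.dvd_sub hgb hga
  have e1 : g * (a / g) = a := Nat.mul_div_cancel' hga
  have e2 : g * ((b - a) / g) = b - a := Nat.mul_div_cancel' hgs
  have hgcd : Nat.gcd a (b - a) = g := by
    rw [hgdef, Nat.gcd_sub_self_right hab.le]
  refine ⟨⟨hg0, hg⟩, ⟨Nat.div_pos (Nat.le_of_dvd (by omega) hga) hg0,
    Nat.div_le_div_right (by omega)⟩, ⟨Nat.div_pos (Nat.le_of_dvd (by omega) hgs) hg0,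
    Nat.div_le_div_right (by omega)⟩, ?_, e1, ?_⟩
  · have h1 := Nat.coprime_div_gcd_div_gcd (m := a) (n := b - a) (by rw [hgcd]; exact hg0)
    rwa [hgcd] at h1
  · rw [mul_add, e1, e2]
    omega

/-- **The sum over the box** -/
theorem boxsum : ∃ C : ℝ, 0 ≤ C ∧ ∀ n : ℕ, 1 ≤ n →
    ∑ d ∈ Icc 1 n ×ˢ Icc 1 n, rk4 d ≤ C * (n : ℝ) ^ 2 := by
  classical
  obtain ⟨C1, h1⟩ := fam1
  obtain ⟨C2, h2⟩ := fam2
  obtain ⟨C3, hC3, h3⟩ := triv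
  refine ⟨|C1| * 16 + |C2| * 16 + C3 + C3, by positivity, fun n hn => ?_⟩
  have hn1 : (1 : ℝ) ≤ n := by exact_mod_cast hn
  have hn0 : (0 : ℝ) < n := by linarith
  set X := Nat.sqrt n + 1 with hX
  have hX1 : 1 ≤ X := by omega
  have hnX : n ≤ X ^ 2 := by
    rw [sq]
    exact (Nat.lt_succ_sqrt n).le
  have hsq1 : 1 ≤ Real.sqrt n := Real.one_le_sqrt.2 hn1
  have hXle : (X : ℝ) ≤ 2 * Real.sqrt n := by
    have h4 : ((Nat.sqrt n : ℕ) : ℝ) ≤ Real.sqrt n := Real.nat_sqrt_le_real_sqrt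
    rw [hX]
    push_cast
    linarith
  have hXge : Real.sqrt n ≤ X := by
    rw [Real.sqrt_le_left (by positivity)]
    exact_mod_cast hnX
  have hX4 : (X : ℝ) ^ 4 ≤ 16 * (n : ℝ) ^ 2 := by
    calc (X : ℝ) ^ 4 ≤ (2 * Real.sqrt n) ^ 4 := pow_le_pow_left₀ (Nat.cast_nonneg _) hXle 4
      _ = 16 * (Real.sqrt n ^ 2) ^ 2 := by ring
      _ = _ := by rw [Real.sq_sqrt hn0.le]
  set B := Icc 1 n ×ˢ Icc 1 n with hB
  set A1 := B.filter (fun d : ℕ × ℕ => Nat.gcd d.1 d.2 ≤ X ∧ d.1 < d.2) with hA1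
  set A2 := B.filter (fun d : ℕ × ℕ => Nat.gcd d.1 d.2 ≤ X ∧ d.2 < d.1) with hA2
  set A3 := B.filter (fun d : ℕ × ℕ => X < Nat.gcd d.1 d.2) with hA3
  set A4 := B.filter (fun d : ℕ × ℕ => d.1 = d.2) with hA4
  have hcov : B ⊆ ((A1 ∪ A2) ∪ A3) ∪ A4 := by
    intro d hd
    rw [mem_union, mem_union, mem_union, hA1, hA2, hA3, hA4, mem_filter, mem_filter, mem_filter,
      mem_filter]
    rcases Nat.lt_or_ge X (Nat.gcd d.1 d.2) with h | h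
    · exact Or.inl (Or.inr ⟨hd, h⟩)
    · rcases lt_trichotomy d.1 d.2 with h' | h' | h'
      · exact Or.inl (Or.inl (Or.inl ⟨hd, h, h'⟩))
      · exact Or.inr ⟨hd, h'⟩
      · exact Or.inl (Or.inl (Or.inr ⟨hd, h, h'⟩))
  have hun : ∀ S T : Finset (ℕ × ℕ), ∑ d ∈ S ∪ T, rk4 d ≤ ∑ d ∈ S, rk4 d + ∑ d ∈ T, rk4 d := by
    intro S T
    rw [← sum_union_inter]
    exact le_add_of_nonneg_right (sum_nonneg fun _ _ => rk4_nonneg _)
  have s1 : ∑ d ∈ A1, rk4 d ≤ |C1| * 16 * (n : ℝ) ^ 2 := by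
    refine (sum_inj_le A1 (TX aa b1 X)
      (fun d => (Nat.gcd d.1 d.2, d.1 / Nat.gcd d.1 d.2, (d.2 - d.1) / Nat.gcd d.1 d.2))
      (fun ω => (ω.1 * ω.2.1, ω.1 * (ω.2.1 + ω.2.2))) ?_ ?_ rk4 rk4_nonneg).trans ?_
    · rintro ⟨a, b⟩ hd
      rw [hA1, mem_filter, hB, mem_product, mem_Icc, mem_Icc] at hd
      obtain ⟨⟨⟨k1, k2⟩, k3, k4⟩, k5, k6⟩ := hd
      simp only at k1 k2 k3 k4 k5 k6 ⊢
      obtain ⟨-, -, -, -, e1, e2⟩ := params k1 k6 k4 hnX k5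
      rw [e1, e2]
    · rintro ⟨a, b⟩ hd
      rw [hA1, mem_filter, hB, mem_product, mem_Icc, mem_Icc] at hd
      obtain ⟨⟨⟨k1, k2⟩, k3, k4⟩, k5, k6⟩ := hd
      simp only at k1 k2 k3 k4 k5 k6 ⊢
      obtain ⟨l1, l2, l3, l4, -, -⟩ := params k1 k6 k4 hnX k5
      rw [mem_TX]
      exact ⟨l1, l2, l3, l4, F3a _ _ l2.1 l3.1⟩
    · refine (h1 X hX1).trans ?_
      calc C1 * (X : ℝ) ^ 4 ≤ |C1| * (X : ℝ) ^ 4 :=
            mul_le_mul_of_nonneg_right (le_abs_self _) (by positivity)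
        _ ≤ |C1| * (16 * (n : ℝ) ^ 2) := mul_le_mul_of_nonneg_left hX4 (abs_nonneg _)
        _ = _ := by ring
  have s2 : ∑ d ∈ A2, rk4 d ≤ |C2| * 16 * (n : ℝ) ^ 2 := by
    refine (sum_inj_le A2 (TX aa b2 X)
      (fun d => (Nat.gcd d.2 d.1, d.2 / Nat.gcd d.2 d.1, (d.1 - d.2) / Nat.gcd d.2 d.1))
      (fun ω => (ω.1 * (ω.2.1 + ω.2.2), ω.1 * ω.2.1)) ?_ ?_ rk4 rk4_nonneg).trans ?_
    · rintro ⟨a, b⟩ hd
      rw [hA2, mem_filter, hB, mem_product, mem_Icc, mem_Icc] at hd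
      obtain ⟨⟨⟨k1, k2⟩, k3, k4⟩, k5, k6⟩ := hd
      simp only at k1 k2 k3 k4 k5 k6 ⊢
      rw [Nat.gcd_comm] at k5
      obtain ⟨-, -, -, -, e1, e2⟩ := params k3 k6 k2 hnX k5
      rw [e1, e2]
    · rintro ⟨a, b⟩ hd
      rw [hA2, mem_filter, hB, mem_product, mem_Icc, mem_Icc] at hd
      obtain ⟨⟨⟨k1, k2⟩, k3, k4⟩, k5, k6⟩ := hd
      simp only at k1 k2 k3 k4 k5 k6 ⊢
      rw [Nat.gcd_comm] at k5
      obtain ⟨l1, l2, l3, l4, -, -⟩ := params k3 k6 k2 hnX k5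
      rw [mem_TX]
      exact ⟨l1, l2, l3, l4, F3b _ _ l2.1 l3.1⟩
    · refine (h2 X hX1).trans ?_
      calc C2 * (X : ℝ) ^ 4 ≤ |C2| * (X : ℝ) ^ 4 :=
            mul_le_mul_of_nonneg_right (le_abs_self _) (by positivity)
        _ ≤ |C2| * (16 * (n : ℝ) ^ 2) := mul_le_mul_of_nonneg_left hX4 (abs_nonneg _)
        _ = _ := by ring
  have hq0 : (0 : ℝ) ≤ (n : ℝ) ^ (1 / 4 : ℝ) := by positivity
  have hq : (n : ℝ) ^ (1 / 4 : ℝ) ≤ Real.sqrt n := by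
    rw [Real.sqrt_eq_rpow]
    exact Real.rpow_le_rpow_of_exponent_le hn1 (by norm_num)
  have hsqn : Real.sqrt n ≤ n := by
    rw [Real.sqrt_le_left hn0.le]
    nlinarith
  have s3 : ∑ d ∈ A3, rk4 d ≤ C3 * (n : ℝ) ^ 2 := by
    have k1 : ∑ d ∈ A3, rk4 d ≤ ∑ d ∈ A3, C3 * (n : ℝ) ^ (1 / 4 : ℝ) :=
      sum_le_sum fun d hd => h3 n hn d (mem_filter.1 hd).1
    rw [sum_const, nsmul_eq_mul] at k1
    have k2 : (A3.card : ℝ) ≤ (n : ℝ) ^ 2 / X := big_gcd (by omega)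
    have k3 : (n : ℝ) ^ 2 / X ≤ (n : ℝ) ^ 2 / Real.sqrt n :=
      div_le_div_of_nonneg_left (by positivity) (by linarith) hXge
    have k4 : (A3.card : ℝ) * (C3 * (n : ℝ) ^ (1 / 4 : ℝ)) ≤
        (n : ℝ) ^ 2 / Real.sqrt n * (C3 * Real.sqrt n) :=
      mul_le_mul (k2.trans k3) (mul_le_mul_of_nonneg_left hq hC3.le) (by positivity)
        (by positivity)
    refine k1.trans (k4.trans (le_of_eq ?_))
    have : Real.sqrt n ≠ 0 := by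
      intro h
      rw [h] at hsq1
      linarith
    field_simp
  have s4 : ∑ d ∈ A4, rk4 d ≤ C3 * (n : ℝ) ^ 2 := by
    have k1 : ∑ d ∈ A4, rk4 d ≤ ∑ d ∈ A4, C3 * (n : ℝ) ^ (1 / 4 : ℝ) :=
      sum_le_sum fun d hd => h3 n hn d (mem_filter.1 hd).1
    rw [sum_const, nsmul_eq_mul] at k1
    have k2 : A4.card ≤ n := by
      have k3 : A4.card ≤ (Icc 1 n).card := by
        apply card_le_card_of_injOn Prod.fst
        · intro d hd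
          have hd' := (mem_filter.1 (mem_coe.1 hd)).1
          rw [hB, mem_product] at hd'
          exact hd'.1
        · intro d hd d' hd' h
          have e1 := (mem_filter.1 (mem_coe.1 hd)).2
          have e2 := (mem_filter.1 (mem_coe.1 hd')).2
          exact Prod.ext h (by rw [← e1, ← e2, h])
      rwa [Nat.card_Icc, Nat.add_sub_cancel] at k3
    have k3 : (A4.card : ℝ) ≤ n := by exact_mod_cast k2
    have k4 : (A4.card : ℝ) * (C3 * (n : ℝ) ^ (1 / 4 : ℝ)) ≤ n * (C3 * n) :=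
      mul_le_mul k3 (mul_le_mul_of_nonneg_left (hq.trans hsqn) hC3.le) (by positivity)
        (by positivity)
    refine k1.trans (k4.trans (le_of_eq ?_))
    ring
  calc ∑ d ∈ B, rk4 d ≤ ∑ d ∈ ((A1 ∪ A2) ∪ A3) ∪ A4, rk4 d :=
        sum_le_sum_of_subset_of_nonneg hcov fun _ _ _ => rk4_nonneg _
    _ ≤ ((∑ d ∈ A1, rk4 d + ∑ d ∈ A2, rk4 d) + ∑ d ∈ A3, rk4 d) + ∑ d ∈ A4, rk4 d := by
        refine (hun _ _).trans (add_le_add ((hun _ _).trans (add_le_add (hun _ _) le_rfl)) le_rfl)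
    _ ≤ ((|C1| * 16 * (n : ℝ) ^ 2 + |C2| * 16 * (n : ℝ) ^ 2) + C3 * (n : ℝ) ^ 2) +
        C3 * (n : ℝ) ^ 2 := add_le_add (add_le_add (add_le_add s1 s2) s3) s4
    _ = _ := by ring

end Pool.Agent.L0h94.FT
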