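import Pool.Agent.L0h94.FT.Rk

/-!
# The bound for the rank, second part
-/

set_option autoImplicit false

namespace Pool.Agent.L0h94.FT

open Finset Pool.Agent.W262.RK
open Pool.Agent.W307.RT (S1 S2 Gd fv)

section

variable {α β : Fin 3 → ℤ} {z : ℕ}

lemma bad2 (hb : Bg α β z) {g x t y X K E : ℕ} (hX : 1 ≤ X) (hy : 1 ≤ y) (hg : g ≠ 0)
    (h0 : F3 α β x t ≠ 0) (hbd : (F3 α β x t).natAbs ≤ X ^ E) (hE : 1 ≤ E)
    (hK : X < (y + 1) ^ K) :
    ((2 * (g * fv α β x t 0) * (g * fv α β x t 1) * (g * fv α β x t 2)).natAbs.primeFactors.filter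
        (fun q => ¬ q ∣ S1 z y (fR α β (g, x, t)) ())).card ≤
      z + E * K + (S2 z y (fR α β (g, x, t)) ()).primeFactors.card + g.primeFactors.card := by
  have hz8 : 8 ≤ z := by
    have := hb.1
    simpa using this
  have hsub : ((2 * (g * fv α β x t 0) * (g * fv α β x t 1) *
      (g * fv α β x t 2)).natAbs.primeFactors.filter
        (fun q => ¬ q ∣ S1 z y (fR α β (g, x, t)) ())) ⊆
      (((Icc 1 z) ∪ (F3 α β x t).natAbs.primeFactors.filter (y < ·)) ∪
        (S2 z y (fR α β (g, x, t)) ()).primeFactors) ∪ g.primeFactors := by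
    intro q hq
    rw [mem_filter] at hq
    have hp := Nat.prime_of_mem_primeFactors hq.1
    have hdv := Nat.dvd_of_mem_primeFactors hq.1
    rw [mem_union, mem_union, mem_union, mem_Icc]
    by_cases hqg : q ∣ g
    · exact Or.inr (Nat.mem_primeFactors.2 ⟨hp, hqg, hg⟩)
    left
    rcases Nat.lt_or_ge z q with hzq | hzq
    swap
    · exact Or.inl (Or.inl ⟨hp.one_lt.le, hzq⟩)
    · have hqi : Prime (q : ℤ) := Nat.prime_iff_prime_int.1 hp
      have hqgi : ¬ (q : ℤ) ∣ (g : ℤ) := fun h => hqg (Int.natCast_dvd_natCast.1 h)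
      have hF : (q : ℤ) ∣ F3 α β x t := by
        have h1 : (q : ℤ) ∣ 2 * (g * fv α β x t 0) * (g * fv α β x t 1) * (g * fv α β x t 2) :=
          Int.natCast_dvd.2 hdv
        have h2 : 2 * ((g : ℤ) * fv α β x t 0) * (g * fv α β x t 1) * (g * fv α β x t 2) =
            (2 * ((g : ℤ) * (g * g))) * F3 α β x t := by
          unfold F3
          rw [Fin.prod_univ_three]
          ring
        rw [h2] at h1
        rcases hqi.dvd_or_dvd h1 with h3 | h3
        · exfalso
          rcases hqi.dvd_or_dvd h3 with h4 | h4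
          · have h5 : q ∣ 2 := by exact_mod_cast h4
            have h6 := Nat.le_of_dvd (by norm_num) h5
            omega
          · rcases hqi.dvd_or_dvd h4 with h5 | h5
            · exact hqgi h5
            · rcases hqi.dvd_or_dvd h5 with h6 | h6
              · exact hqgi h6
              · exact hqgi h6
        · exact h3
      rcases Nat.lt_or_ge y q with hyq | hyq
      · left; right
        rw [mem_filter, Nat.mem_primeFactors]
        exact ⟨⟨hp, Int.natCast_dvd.1 hF, Int.natAbs_ne_zero.2 h0⟩, hyq⟩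
      · right
        have hPS : q ∈ PS z y := mem_PS.2 ⟨⟨hzq, hyq⟩, hp⟩
        have hsq : (q : ℤ) ^ 2 ∣ F3 α β x t := by
          by_contra hcon
          exact hq.2 ((dvd_S1R hp h0).2 ⟨hPS, hqg, hF, hcon⟩)
        rw [Nat.mem_primeFactors]
        refine ⟨hp, (dvd_S2R hp h0).2 ⟨hPS, hqg, hsq⟩, ?_⟩
        unfold S2
        exact prod_ne_zero_iff.2 fun p hp => (mem_PS.1 (mem_filter.1 hp).1).2.ne_zero
  have hone : ((F3 α β x t).natAbs.primeFactors.filter (y < ·)).card ≤ E * K := by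
    set S := (F3 α β x t).natAbs.primeFactors.filter (y < ·) with hS
    have h1 : (y + 1) ^ S.card ≤ ∏ q ∈ S, q :=
      Finset.pow_card_le_prod _ _ _ (fun q hq => by
        have := (mem_filter.1 hq).2
        omega)
    have h2 : ∏ q ∈ S, q ∣ (F3 α β x t).natAbs :=
      (prod_dvd_prod_of_subset _ _ _ (filter_subset _ _)).trans (Nat.prod_primeFactors_dvd _)
    have h3 : ∏ q ∈ S, q ≤ (F3 α β x t).natAbs :=
      Nat.le_of_dvd (Nat.pos_of_ne_zero (Int.natAbs_ne_zero.2 h0)) h2
    have h4 : (y + 1) ^ S.card < (y + 1) ^ (E * K) := by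
      calc (y + 1) ^ S.card ≤ X ^ E := h1.trans (h3.trans hbd)
        _ < ((y + 1) ^ K) ^ E := Nat.pow_lt_pow_left hK (by omega)
        _ = (y + 1) ^ (E * K) := by rw [← pow_mul, mul_comm]
    exact ((Nat.pow_lt_pow_iff_right (by omega)).1 h4).le
  refine (card_le_card hsub).trans ((card_union_le _ _).trans (add_le_add
    ((card_union_le _ _).trans (add_le_add
    ((card_union_le _ _).trans (add_le_add ?_ hone)) le_rfl)) le_rfl))
  simp

/-- the rank is bounded by the local count -/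
lemma rank2 (hb : Bg α β z) (hrel : ∀ x t : ℤ, fv α β x t 0 - fv α β x t 1 = fv α β x t 2)
    {g x t y X k E : ℕ} (hX : 1 ≤ X) (hy : 1 ≤ y) (hg : g ≠ 0) (hc : x.Coprime t)
    (h0 : F3 α β x t ≠ 0) (hbd : (F3 α β x t).natAbs ≤ X ^ E) (hE : 1 ≤ E)
    (hk : X < (y + 1) ^ k) :
    2 ^ Module.finrank ℤ (EAB (g * fv α β x t 0) (g * fv α β x t 1)).toAffine.Point ≤
      4 ^ (z + 2) * (4 ^ E) ^ k * 4 ^ (S2 z y (fR α β (g, x, t)) ()).primeFactors.card *
        4 ^ g.primeFactors.card *
        NL (S1 z y (fR α β (g, x, t)) ()) (Lw α β g x t) := by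
  have hz8 : 8 ≤ z := by
    have := hb.1
    simpa using this
  have hgi : (g : ℤ) ≠ 0 := by exact_mod_cast hg
  have hFj : ∀ j, fv α β x t j ≠ 0 := by
    unfold F3 at h0
    rw [prod_ne_zero_iff] at h0
    exact fun j => h0 j (mem_univ j)
  have e2 : (g : ℤ) * fv α β x t 0 - g * fv α β x t 1 = g * fv α β x t 2 := by
    rw [← hrel]; ring
  have hmd := S1R_dvd z y (fR α β (g, x, t))
  have hPSof : ∀ p : ℕ, p.Prime → p ∣ S1 z y (fR α β (g, x, t)) () → p ∈ PS z y := fun p hp h =>
    (prime_dvd_PP hp).1 (h.trans hmd)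
  have hodd : ∀ p : ℕ, p.Prime → p ∣ S1 z y (fR α β (g, x, t)) () → p ≠ 2 := by
    intro p hp h
    have h1 := (mem_PS.1 (hPSof p hp h)).1.1
    omega
  have hd := Pool.Agent.W214.RK2.desc4 (S1 z y (fR α β (g, x, t)) ()) (Lw α β g x t)
    (g * fv α β x t 0) (g * fv α β x t 1) (mul_ne_zero hgi (hFj 0)) (mul_ne_zero hgi (hFj 1))
    (fun h => mul_ne_zero hgi (hFj 2) (by rw [← e2, h, sub_self]))
    (by
      rw [← Nat.not_even_iff_odd, even_iff_two_dvd]
      intro h
      exact hodd 2 Nat.prime_two h rfl)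
    ((PP_squarefree z y).squarefree_of_dvd hmd)
    (fun p _ _ => xc_Lw α β g x t p)
    (fun p hp hpd a b hb' hcurve e1 e2 he1 he2 hsq1 hsq2 c hcd => by
      have hpp : p.Prime := Fact.out
      have hzp := (mem_PS.1 (hPSof p hpp hpd)).1.1
      have h3 := (dvd_S1R hpp h0).1 hpd
      have h2 : ¬ (p : ℤ) ^ 2 ∣ fv α β x t c := by
        rw [← sq_dvd_F3 hb hpp hzp hc hcd]
        exact h3.2.2.2
      have hpi : Prime (p : ℤ) := Nat.prime_iff_prime_int.1 hpp
      rw [← LL_Lce]
      refine Pool.Agent.W342.RK2.locl c.castSucc (fun _ => Kc α β c * ((g : ℤ) * t)) false p _ _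
        (hodd p hpp hpd) (fun _ => ?_) (locH2 hb hrel hpp hzp hc h3.2.1 hcd h2) a b hb' hcurve
        e1 e2 he1 he2 hsq1 hsq2
      intro hK
      rcases hpi.dvd_or_dvd hK with h4 | h4
      · unfold Kc at h4
        rcases hpi.dvd_or_dvd h4 with h5 | h5
        · split_ifs at h5 with h6
          · exact Pool.Agent.W342.RK2.not_dvd_one h5
          · exact Pool.Agent.W342.RK2.not_dvd_neg_one h5
        · rcases hpi.dvd_or_dvd h5 with h6 | h6
          · exact (hb.2 p hpp hzp).2 c (cp c) (cp_ne c) h6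
          · exact (hb.2 p hpp hzp).1 c h6
      · rcases hpi.dvd_or_dvd h4 with h5 | h5
        · exact h3.2.1 (Int.natCast_dvd_natCast.1 h5)
        · exact ndt hb hpp hzp hc hcd h5)
  rw [e2] at hd
  refine hd.trans (Nat.mul_le_mul_right _ ?_)
  have hcd := bad2 (y := y) hb hX hy hg h0 hbd hE hk
  calc 4 ^ (((2 * (g * fv α β x t 0) * (g * fv α β x t 1) *
      (g * fv α β x t 2)).natAbs.primeFactors.filter
        (fun q => ¬ q ∣ S1 z y (fR α β (g, x, t)) ())).card + 2)
      ≤ 4 ^ ((z + 2) + E * k + (S2 z y (fR α β (g, x, t)) ()).primeFactors.card +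
          g.primeFactors.card) :=
        Nat.pow_le_pow_right (by norm_num) (by omega)
    _ = _ := by
        rw [pow_add, pow_add, pow_add, pow_mul]

/-- the trivial bound for the rank -/
lemma rank_triv {A B : ℤ} (hA : A ≠ 0) (hB : B ≠ 0) (hAB : A ≠ B) :
    2 ^ Module.finrank ℤ (EAB A B).toAffine.Point ≤
      4 ^ ((2 * A * B * (A - B)).natAbs.primeFactors.card + 2) := by
  have h := Pool.Agent.W214.RK2.desc4 1 (fun _ _ _ _ _ => True) A B hA hB hAB odd_one
    squarefree_one (fun p hp h => absurd (Nat.dvd_one.1 h) hp.one_lt.ne')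
    (fun p hp h => absurd (Nat.dvd_one.1 h) hp.out.one_lt.ne')
  have h1 : NL 1 (fun _ _ _ _ _ => True) = 1 := by
    unfold NL
    simp
  rw [h1, mul_one] at h
  exact h.trans (Nat.pow_le_pow_right (by norm_num) (by
    have := card_filter_le (2 * A * B * (A - B)).natAbs.primeFactors (fun q => ¬ q ∣ 1)
    omega))

end

end Pool.Agent.L0h94.FT
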