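import Pool.Agent.L0h94.FT.Sm
import Pool.Agent.L0h94.FT.Rk2
import Pool.Agent.L0h94.FT.Loc3
import Pool.Agent.L0h5.TF.Main

/-!
# The main estimate
-/

set_option autoImplicit false

namespace Pool.Agent.L0h94.FT

open Finset Pool.Agent.W262.RK Pool.Agent.L0h5.TF
open Pool.Agent.W307.RT (S1 S2 Gd fv)

/-- the triples -/
def TX (α β : Fin 3 → ℤ) (X : ℕ) : Finset (ℕ × ℕ × ℕ) :=
  ((Icc 1 X) ×ˢ ((Icc 1 (X ^ 2)) ×ˢ (Icc 1 (X ^ 2)))).filter (fun ω =>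
    ω.2.1 ≤ X ^ 2 / ω.1 ∧ ω.2.2 ≤ X ^ 2 / ω.1 ∧ ω.2.1.Coprime ω.2.2 ∧ F3 α β ω.2.1 ω.2.2 ≠ 0)

lemma mem_TX {α β : Fin 3 → ℤ} {X g x t : ℕ} : (g, x, t) ∈ TX α β X ↔
    (1 ≤ g ∧ g ≤ X) ∧ (1 ≤ x ∧ x ≤ X ^ 2 / g) ∧ (1 ≤ t ∧ t ≤ X ^ 2 / g) ∧ x.Coprime t ∧
      F3 α β x t ≠ 0 := by
  unfold TX
  rw [mem_filter, mem_product, mem_product, mem_Icc, mem_Icc, mem_Icc]
  constructor
  · rintro ⟨⟨h1, h2, h3⟩, h4, h5, h6, h7⟩
    exact ⟨h1, ⟨h2.1, h4⟩, ⟨h3.1, h5⟩, h6, h7⟩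
  · rintro ⟨h1, ⟨h2, h4⟩, ⟨h3, h5⟩, h6, h7⟩
    have h8 := Nat.div_le_self (X ^ 2) g
    exact ⟨⟨h1, ⟨h2, h4.trans h8⟩, ⟨h3, h5.trans h8⟩⟩, h4, h5, h6, h7⟩

lemma TX_mono {α β : Fin 3 → ℤ} {X Y : ℕ} (h : X ≤ Y) : TX α β X ⊆ TX α β Y := by
  rintro ⟨g, x, t⟩ hω
  rw [mem_TX] at hω ⊢
  obtain ⟨h1, h2, h3, h4, h5⟩ := hω
  have h6 : X ^ 2 / g ≤ Y ^ 2 / g := Nat.div_le_div_right (Nat.pow_le_pow_left h 2)
  exact ⟨⟨h1.1, h1.2.trans h⟩, ⟨h2.1, h2.2.trans h6⟩, ⟨h3.1, h3.2.trans h6⟩, h4, h5⟩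

open Classical in
lemma sum_D {α β : Fin 3 → ℤ} {z : ℕ} (hb : Bg α β z) {C C1 C2 : ℝ} {K y0 : ℕ} (hC : 0 ≤ C)
    (hC1 : 0 ≤ C1) (hsv : SvD z C K y0) (hav : AvC z C1)
    (hC2 : ∀ X : ℕ, ∑ g ∈ Icc 1 X, (32 : ℝ) ^ g.primeFactors.card / (g : ℝ) ^ 2 ≤ C2)
    {X y Y s v u : ℕ} (hy : y0 ≤ y) (hzy : z < y) (hyX : y ^ K ≤ X)
    (hs : s ∈ (PP z y).divisors) (hv : v ∈ (PP z y).divisors) (hu : u ∈ (PP y Y).divisors)
    (hsvu : (s * v * u) ^ 8 ≤ X)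
    (D : Fin 2 → ℕ × ℕ) (T : Finset (ℕ × ℕ × ℕ))
    (hT : ∀ ω ∈ T, ω ∈ TX α β X ∧ Pt α β z y s v u ω.1 D ω.2.1 ω.2.2) :
    ∑ ω ∈ T, (16 : ℝ) ^ ω.1.primeFactors.card ≤ C * C1 * C2 * X ^ 4 *
      ((∏ p ∈ s.primeFactors, lam2 p (bv p D) (bs p D)) * gw 1 3 s) *
      (3 ^ v.primeFactors.card * (gw 1 3 v / v)) * (3 ^ u.primeFactors.card / u) /
      (Real.log y) ^ 3 := by
  have hz8 : 8 ≤ z := by
    have := hb.1
    simpa using this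
  have hlog : 0 ≤ (Real.log y) ^ 3 := pow_nonneg (Real.log_natCast_nonneg y) _
  have hgs := gw3_nonneg hz8 hs
  have hgv := gw3_nonneg hz8 hv
  have hl0 : 0 ≤ ∏ p ∈ s.primeFactors, lam2 p (bv p D) (bs p D) :=
    prod_nonneg fun p _ => lam2_nonneg _ _ _
  have hmap : ∀ ω ∈ T, ω.1 ∈ Icc 1 X := by
    rintro ⟨g, x, t⟩ hω
    rw [mem_Icc]
    exact (mem_TX.1 (hT _ hω).1).1
  set W : ℝ := C * C1 * ((∏ p ∈ s.primeFactors, lam2 p (bv p D) (bs p D)) * gw 1 3 s) *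
      (3 ^ v.primeFactors.card * (gw 1 3 v / v)) * (3 ^ u.primeFactors.card / u) /
      (Real.log y) ^ 3 with hW
  have hW0 : 0 ≤ W := by positivity
  rw [← sum_fiberwise_of_maps_to hmap]
  have h1 : ∀ g ∈ Icc 1 X, ∑ ω ∈ T.filter (fun ω => ω.1 = g), (16 : ℝ) ^ ω.1.primeFactors.card ≤
      W * X ^ 4 * ((32 : ℝ) ^ g.primeFactors.card / (g : ℝ) ^ 2) := by
    intro g hg
    rw [mem_Icc] at hg
    have hg0 : (0 : ℝ) < g := by exact_mod_cast hg.1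
    have h2 : ∑ ω ∈ T.filter (fun ω => ω.1 = g), (16 : ℝ) ^ ω.1.primeFactors.card =
        ((T.filter (fun ω => ω.1 = g)).card : ℝ) * 16 ^ g.primeFactors.card := by
      rw [← nsmul_eq_mul, ← sum_const]
      refine sum_congr rfl fun ω hω => ?_
      rw [(mem_filter.1 hω).2]
    have h3 : (T.filter (fun ω => ω.1 = g)).card =
        ((T.filter (fun ω => ω.1 = g)).image Prod.snd).card := by
      rw [card_image_of_injOn]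
      intro ω hω ω' hω' h
      have h2 := (mem_filter.1 (mem_coe.1 hω)).2
      have h3 := (mem_filter.1 (mem_coe.1 hω')).2
      exact Prod.ext (h2.trans h3.symm) h
    have hXg : X ≤ X ^ 2 / g := by
      rw [Nat.le_div_iff_mul_le (by omega), sq]
      exact Nat.mul_le_mul_left _ hg.2
    have h4 := sum_gt hb hC hC1 hsv hav (X := X ^ 2 / g) hy hzy (hyX.trans hXg) hs hv hu
      (hsvu.trans hXg) (by omega : g ≠ 0) D ((T.filter (fun ω => ω.1 = g)).image Prod.snd) (by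
        intro q hq
        obtain ⟨⟨g', x, t⟩, hω, rfl⟩ := mem_image.1 hq
        rw [mem_filter] at hω
        obtain ⟨hω1, hω2⟩ := hω
        simp only at hω2
        subst hω2
        obtain ⟨h5, h6⟩ := hT _ hω1
        obtain ⟨h7, h8, h9, -, -⟩ := mem_TX.1 h5
        exact ⟨mem_Icc.2 h8, mem_Icc.2 h9, h6⟩)
    rw [← h3] at h4
    rw [h2]
    have h5 : ((X ^ 2 / g : ℕ) : ℝ) ≤ (X : ℝ) ^ 2 / g := by
      have := @Nat.cast_div_le ℝ _ _ _ (X ^ 2) g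
      push_cast at this
      exact this
    have h6 : (((X ^ 2 / g : ℕ) : ℝ)) ^ 2 ≤ (X : ℝ) ^ 4 / (g : ℝ) ^ 2 := by
      refine (pow_le_pow_left₀ (Nat.cast_nonneg _) h5 2).trans (le_of_eq ?_)
      rw [div_pow, ← pow_mul]
    have h7 := mul_le_mul_of_nonneg_right h4 (by positivity : (0 : ℝ) ≤ 16 ^ g.primeFactors.card)
    have h8 : (32 : ℝ) ^ g.primeFactors.card =
        16 ^ g.primeFactors.card * 2 ^ g.primeFactors.card := by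
      rw [← mul_pow]; norm_num
    have h9 : 0 ≤ W * (16 ^ g.primeFactors.card * 2 ^ g.primeFactors.card) := by positivity
    have h10 := mul_le_mul_of_nonneg_left h6 h9
    refine h7.trans (le_trans (le_of_eq ?_) (h10.trans (le_of_eq ?_)))
    · rw [hW]; ring
    · rw [h8]; ring
  refine (sum_le_sum h1).trans ?_
  rw [← mul_sum]
  have h2 := mul_le_mul_of_nonneg_left (hC2 X) (by positivity : 0 ≤ W * (X : ℝ) ^ 4)
  refine h2.trans (le_of_eq ?_)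
  rw [hW]
  ring

open Classical in
lemma sumNL2 {α β : Fin 3 → ℤ} {z : ℕ} (hb : Bg α β z) {C C1 C2 : ℝ} {K y0 : ℕ} (hC : 0 ≤ C)
    (hC1 : 0 ≤ C1) (hsv : SvD z C K y0) (hav : AvC z C1)
    (hC2 : ∀ X : ℕ, ∑ g ∈ Icc 1 X, (32 : ℝ) ^ g.primeFactors.card / (g : ℝ) ^ 2 ≤ C2)
    {X y Y s v u : ℕ} (hy : y0 ≤ y) (hzy : z < y) (hyX : y ^ K ≤ X)
    (hs : s ∈ (PP z y).divisors) (hv : v ∈ (PP z y).divisors) (hu : u ∈ (PP y Y).divisors)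
    (hsvu : (s * v * u) ^ 8 ≤ X)
    (T : Finset (ℕ × ℕ × ℕ))
    (hT : ∀ ω ∈ T, ω ∈ TX α β X ∧ S1 z y (fR α β ω) () = s ∧ S2 z y (fR α β ω) () = v ∧
      (u : ℤ) ∣ fR α β ω ()) :
    ∑ ω ∈ T, (16 : ℝ) ^ ω.1.primeFactors.card * (NL s (Lw α β ω.1 ω.2.1 ω.2.2) : ℝ) ^ 2 ≤
      C * C1 * C2 * X ^ 4 * (Gs lam2 s * gw 1 3 s) *
      (3 ^ v.primeFactors.card * (gw 1 3 v / v)) * (3 ^ u.primeFactors.card / u) /
      (Real.log y) ^ 3 := by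
  set Q : (ℕ × ℕ × ℕ) → (Fin 2 → ℕ × ℕ) → Prop := fun ω D => ∀ p ∈ s.primeFactors, ∀ i,
    Lw α β ω.1 ω.2.1 ω.2.2 p (bv p D i).1 (bv p D i).2 (bs p D i).1 (bs p D i).2 with hQ
  have h1 : ∀ ω ∈ T, (16 : ℝ) ^ ω.1.primeFactors.card *
      (NL s (Lw α β ω.1 ω.2.1 ω.2.2) : ℝ) ^ 2 =
      ∑ D ∈ Dv 2 s, if Q ω D then (16 : ℝ) ^ ω.1.primeFactors.card else 0 := by
    intro ω _
    rw [NL_pow, mul_sum]
    refine sum_congr rfl fun D _ => ?_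
    unfold iL
    have h2 : ∀ p ∈ s.primeFactors, ∏ i, (if Lw α β ω.1 ω.2.1 ω.2.2 p (bv p D i).1 (bv p D i).2
        (bs p D i).1 (bs p D i).2 then (1 : ℝ) else 0) =
        if ∀ i, Lw α β ω.1 ω.2.1 ω.2.2 p (bv p D i).1 (bv p D i).2 (bs p D i).1 (bs p D i).2 then
          (1 : ℝ) else 0 := by
      intro p _
      rw [prod_boole]
      simp only [mem_univ, true_implies]
    rw [prod_congr rfl h2, prod_boole, mul_ite, mul_one, mul_zero]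
  rw [sum_congr rfl h1, sum_comm]
  have h2 : ∀ D ∈ Dv 2 s, ∑ ω ∈ T, (if Q ω D then (16 : ℝ) ^ ω.1.primeFactors.card else 0) ≤
      C * C1 * C2 * X ^ 4 *
      ((∏ p ∈ s.primeFactors, lam2 p (bv p D) (bs p D)) * gw 1 3 s) *
      (3 ^ v.primeFactors.card * (gw 1 3 v / v)) * (3 ^ u.primeFactors.card / u) /
      (Real.log y) ^ 3 := by
    intro D _
    rw [← sum_filter]
    refine sum_D hb hC hC1 hsv hav hC2 hy hzy hyX hs hv hu hsvu D (T.filter fun ω => Q ω D) ?_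
    rintro ⟨g, x, t⟩ hω
    rw [mem_filter] at hω
    obtain ⟨h3, h4, h5, h6⟩ := hT _ hω.1
    obtain ⟨-, -, -, h7, h8⟩ := mem_TX.1 h3
    exact ⟨h3, h7, h8, h4, h5, h6, hω.2⟩
  refine (sum_le_sum h2).trans (le_of_eq ?_)
  rw [Gs_def, ← sum_div]
  congr 1
  rw [← sum_mul, ← sum_mul]
  congr 1
  congr 1
  rw [← mul_sum, ← sum_mul]

end Pool.Agent.L0h94.FT
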