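import Pool.Agent.L0h94.FT.Phi
import Pool.Agent.L0h94.FT.Avr
import Pool.Agent.L0h5.TF.Cnt
import Pool.Agent.W340.RT.SVR2

/-!
# The count for one outer variable
-/

set_option autoImplicit false

namespace Pool.Agent.L0h94.FT

open Finset Pool.Agent.W262.RK Pool.Agent.L0h5.TF
open Pool.Agent.W307.RT (S1 S2 Gd fv)

lemma prod_union_le' {A B : Finset ℕ} {f : ℕ → ℝ} (h : ∀ p ∈ A ∪ B, 1 ≤ f p) :
    ∏ p ∈ A ∪ B, f p ≤ (∏ p ∈ A, f p) * ∏ p ∈ B, f p := by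
  rw [← prod_union_inter]
  have h1 : 1 ≤ ∏ p ∈ A ∩ B, f p := by
    have h2 : ∏ p ∈ A ∩ B, (1 : ℝ) ≤ ∏ p ∈ A ∩ B, f p :=
      prod_le_prod (fun _ _ => zero_le_one) fun p hp =>
        h p (mem_union_left _ (mem_inter.1 hp).1)
    rwa [prod_const_one] at h2
  have h0 : 0 ≤ ∏ p ∈ A ∪ B, f p := prod_nonneg fun p hp => zero_le_one.trans (h p hp)
  exact le_mul_of_one_le_right h0 h1

lemma crt2 (S : Finset ℕ) (hS : ∀ p ∈ S, p.Prime) (e : ℕ → ℕ) (W : ℕ → Finset ℕ)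
    (T : Finset ℕ) (hT : ∀ t ∈ T, ∀ p ∈ S, t % p ^ e p ∈ W p) {B : ℝ} (hB : 0 ≤ B)
    (hfib : ∀ r, ((T.filter (fun t => t % (∏ p ∈ S, p ^ e p) = r)).card : ℝ) ≤ B) :
    (T.card : ℝ) ≤ (∏ p ∈ S, ((W p).card : ℝ)) * B := by
  classical
  set q := ∏ p ∈ S, p ^ e p with hqd
  have hq0 : q ≠ 0 := by
    rw [hqd, prod_ne_zero_iff]
    intro p hp
    exact pow_ne_zero _ (hS p hp).ne_zero
  set A := (range q).filter (fun x => ∀ p ∈ S, x % p ^ e p ∈ W p) with hA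
  have hmap : ∀ t ∈ T, t % q ∈ A := by
    intro t ht
    rw [hA, mem_filter, mem_range]
    refine ⟨Nat.mod_lt _ (Nat.pos_of_ne_zero hq0), fun p hp => ?_⟩
    have h1 : p ^ e p ∣ q := dvd_prod_of_mem (fun p => p ^ e p) hp
    rw [Nat.mod_mod_of_dvd _ h1]
    exact hT t ht p hp
  have h1 : (T.card : ℝ) = ∑ x ∈ A, ((T.filter (fun t => t % q = x)).card : ℝ) := by
    rw [card_eq_sum_card_fiberwise hmap]
    push_cast
    rfl
  rw [h1]
  refine (sum_le_sum fun x _ => hfib x).trans ?_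
  rw [sum_const, nsmul_eq_mul]
  refine mul_le_mul_of_nonneg_right ?_ hB
  have h2 := card_crt S hS e W
  rw [← hqd, ← hA] at h2
  exact_mod_cast h2

lemma one_root {n : ℕ} {a b : ℤ} (h : IsCoprime (n : ℤ) a) :
    ((range n).filter (fun r : ℕ => (n : ℤ) ∣ a * r + b)).card ≤ 1 := by
  rw [card_le_one]
  intro x hx x' hx'
  have h1 := mem_filter.1 hx
  have h2 := mem_filter.1 hx'
  have h3 : (n : ℤ) ∣ a * ((x' : ℤ) - x) := by
    have := dvd_sub h2.2 h1.2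
    have e : a * (x' : ℤ) + b - (a * x + b) = a * ((x' : ℤ) - x) := by ring
    rwa [e] at this
  have h4 := h.dvd_of_dvd_mul_left h3
  have h6 : x ≡ x' [MOD n] := (Nat.modEq_iff_dvd).2 h4
  exact Nat.ModEq.eq_of_lt_of_lt h6 (mem_range.1 h1.1) (mem_range.1 h2.1)

lemma fv_mod {α β : Fin 3 → ℤ} {x t : ℕ} {c : Fin 3} {n m : ℕ} (hnm : n ∣ m) :
    (n : ℤ) ∣ fv α β x t c ↔ (n : ℤ) ∣ fv α β ((x % m : ℕ) : ℤ) t c := by
  have h1 : (n : ℤ) ∣ fv α β x t c - fv α β ((x % m : ℕ) : ℤ) t c := by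
    have h2 : fv α β x t c - fv α β ((x % m : ℕ) : ℤ) t c =
        α c * ((x : ℤ) - ((x % m : ℕ) : ℤ)) := by
      unfold fv; ring
    rw [h2]
    exact ((Int.natCast_dvd_natCast.2 hnm).trans (mod_dvd x m)).mul_left _
  constructor
  · intro h
    have := dvd_sub h h1
    rwa [sub_sub_cancel] at this
  · intro h
    have := dvd_add h1 h
    rwa [sub_add_cancel] at this

open Classical in
/-- the classes modulo the primes of `s` -/
noncomputable def Ws (α β : Fin 3 → ℤ) (g t : ℕ) (D : Fin 2 → ℕ × ℕ) (p : ℕ) : Finset ℕ :=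
  (range p).filter (fun x : ℕ => ∃ c, (p : ℤ) ∣ fv α β x t c ∧
    ∀ i, Lce c (sg0 p (Kc α β c * ((g : ℤ) * t))) (bv p D i).1 (bv p D i).2 (bs p D i).1
      (bs p D i).2)

/-- the classes modulo the other primes -/
def Wu (α β : Fin 3 → ℤ) (t n : ℕ) : Finset ℕ :=
  (range n).filter (fun x : ℕ => ∃ c, (n : ℤ) ∣ fv α β x t c)

lemma card_Wu {α β : Fin 3 → ℤ} {t n : ℕ} (h : ∀ c, IsCoprime (n : ℤ) (α c)) :
    (Wu α β t n).card ≤ 3 := by
  have hsub : Wu α β t n ⊆ (univ : Finset (Fin 3)).biUnion fun c =>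
      (range n).filter (fun x : ℕ => (n : ℤ) ∣ α c * x + β c * t) := by
    intro x hx
    unfold Wu at hx
    rw [mem_filter] at hx
    obtain ⟨h1, c, h2⟩ := hx
    rw [mem_biUnion]
    exact ⟨c, mem_univ _, mem_filter.2 ⟨h1, h2⟩⟩
  refine (card_le_card hsub).trans (card_biUnion_le.trans ?_)
  refine (sum_le_sum fun c _ => one_root (b := β c * t) (h c)).trans ?_
  simp

lemma card_Ws {α β : Fin 3 → ℤ} {g t p : ℕ} (D : Fin 2 → ℕ × ℕ)
    (h : ∀ c, IsCoprime (p : ℤ) (α c)) : ((Ws α β g t D p).card : ℝ) ≤ phi α β g D p t := by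
  classical
  set Q : Fin 3 → Prop := fun c => ∀ i, Lce c (sg0 p (Kc α β c * ((g : ℤ) * t))) (bv p D i).1
    (bv p D i).2 (bs p D i).1 (bs p D i).2 with hQ
  have hsub : Ws α β g t D p ⊆ (univ : Finset (Fin 3)).biUnion fun c =>
      if Q c then (range p).filter (fun x : ℕ => (p : ℤ) ∣ α c * x + β c * t) else ∅ := by
    intro x hx
    unfold Ws at hx
    rw [mem_filter] at hx
    obtain ⟨h1, c, h2, h3⟩ := hx
    rw [mem_biUnion]
    refine ⟨c, mem_univ _, ?_⟩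
    rw [if_pos h3]
    exact mem_filter.2 ⟨h1, h2⟩
  have h1 : ((Ws α β g t D p).card : ℝ) ≤ ∑ c : Fin 3, ((if Q c then
      (range p).filter (fun x : ℕ => (p : ℤ) ∣ α c * x + β c * t) else ∅ : Finset ℕ).card : ℝ) := by
    exact_mod_cast (card_le_card hsub).trans card_biUnion_le
  refine h1.trans ?_
  unfold phi
  refine sum_le_sum fun c _ => ?_
  have h2 : ∏ i, iL (Lce c (sg0 p (Kc α β c * ((g : ℤ) * t)))) (bv p D i) (bs p D i) =
      if Q c then (1 : ℝ) else 0 := by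
    unfold iL
    rw [prod_boole]
    simp only [mem_univ, true_implies]
    rfl
  rw [h2]
  split_ifs with h3
  · exact_mod_cast one_root (b := β c * t) (h c)
  · simp

lemma phi_mod (α β : Fin 3 → ℤ) (g : ℕ) (D : Fin 2 → ℕ × ℕ) (p t : ℕ) :
    phi α β g D p t = phi α β g D p (t % p) := by
  unfold phi
  refine sum_congr rfl fun c _ => ?_
  have h1 : sg0 p (Kc α β c * ((g : ℤ) * t)) = sg0 p (Kc α β c * ((g : ℤ) * ((t % p : ℕ) : ℤ))) := by
    unfold sg0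
    rw [jacobiSym.mod_left (Kc α β c * ((g : ℤ) * t)),
      jacobiSym.mod_left (Kc α β c * ((g : ℤ) * ((t % p : ℕ) : ℤ)))]
    have h2 : Kc α β c * ((g : ℤ) * t) % p = Kc α β c * ((g : ℤ) * ((t % p : ℕ) : ℤ)) % p := by
      apply Int.ModEq.symm
      rw [Int.modEq_iff_dvd]
      have h3 : Kc α β c * ((g : ℤ) * t) - Kc α β c * ((g : ℤ) * ((t % p : ℕ) : ℤ)) =
          Kc α β c * g * ((t : ℤ) - ((t % p : ℕ) : ℤ)) := by ring
      rw [h3]
      exact (mod_dvd t p).mul_left _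
    rw [h2]
  rw [h1]

end Pool.Agent.L0h94.FT
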