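import Pool.Agent.L0h94.FT.Ct

/-!
# The count for one outer variable and one tuple of divisors
-/

set_option autoImplicit false

namespace Pool.Agent.L0h94.FT

open Finset Pool.Agent.W262.RK Pool.Agent.L0h5.TF
open Pool.Agent.W307.RT (S1 S2 Gd fv)

/-- the conclusion of the sieve -/
def SvD (z : ℕ) (C : ℝ) (K y0 : ℕ) : Prop :=
  ∀ X y : ℕ, y0 ≤ y → z < y → y ^ K ≤ X →
  ∀ (α β : Fin 3 → ℤ) (m M r : ℕ), 1 ≤ m → m ∣ M → M ≠ 0 → m ^ 4 ≤ X →
  (∀ p ∈ PS z y, ¬ p ∣ M → (∀ j, ¬ (p : ℤ) ∣ α j) ∧ ∀ j l, j ≠ l → ¬ (p : ℤ) ∣ Res α β j l) →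
    (((Icc 1 X).filter (fun t : ℕ => t ≡ r [MOD m] ∧ ∀ p ∈ PS z y, ¬ p ∣ M →
      ∀ j, ¬ (p : ℤ) ∣ ff α β t j)).card : ℝ) ≤
      C * (X / m) * (∏ p ∈ M.primeFactors.filter (fun p => p ∈ PS z y),
        (p : ℝ) / ((p : ℝ) - ((3 : ℕ) : ℝ))) / (Real.log y) ^ 3

lemma svD (z : ℕ) (hz : 8 ≤ z) : ∃ (C : ℝ) (K y0 : ℕ), 0 ≤ C ∧ 1 ≤ K ∧ SvD z C K y0 := by
  obtain ⟨C, K, y0, hC, hK, h⟩ := Pool.Agent.W340.RT.SVR2.svr2 (Fin 3) z (by simpa using hz)
  refine ⟨C, K, y0, hC, hK, ?_⟩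
  rw [Fintype.card_fin] at h
  intro X y h1 h2 h3 α β m M r h4 h5 h6 h7 h8
  convert h X y h1 h2 h3 α β m M r h4 h5 h6 h7 h8

lemma prod_sub_le {A B : Finset ℕ} {f : ℕ → ℝ} (hAB : A ⊆ B) (h : ∀ p ∈ B, 1 ≤ f p) :
    ∏ p ∈ A, f p ≤ ∏ p ∈ B, f p := by
  rw [← prod_sdiff hAB]
  have h1 : 1 ≤ ∏ p ∈ B \ A, f p := by
    have h2 : ∏ p ∈ B \ A, (1 : ℝ) ≤ ∏ p ∈ B \ A, f p :=
      prod_le_prod (fun _ _ => zero_le_one) fun p hp => h p (mem_sdiff.1 hp).1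
    rwa [prod_const_one] at h2
  have h0 : 0 ≤ ∏ p ∈ A, f p := prod_nonneg fun p hp => zero_le_one.trans (h p (hAB hp))
  exact le_mul_of_one_le_left h0 h1

lemma one_le_fac {z p : ℕ} (hz : 8 ≤ z) (hp : z < p) : 1 ≤ (p : ℝ) / ((p : ℝ) - 3) := by
  have h1 : (9 : ℝ) ≤ p := by exact_mod_cast (by omega : 9 ≤ p)
  rw [le_div_iff₀ (by linarith)]
  linarith

lemma fac_le_two {z p : ℕ} (hz : 8 ≤ z) (hp : z < p) : (p : ℝ) / ((p : ℝ) - 3) ≤ 2 := by
  have h1 : (9 : ℝ) ≤ p := by exact_mod_cast (by omega : 9 ≤ p)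
  rw [div_le_iff₀ (by linarith)]
  linarith

/-- the factors of the sieve -/
lemma fac_le {z y s v u g t : ℕ} (hz : 8 ≤ z) (hs : s ∈ (PP z y).divisors)
    (hv : v ∈ (PP z y).divisors) {Y : ℕ} (hu : u ∈ (PP y Y).divisors) (hg : g ≠ 0) (ht : t ≠ 0) :
    ∏ p ∈ (s * v ^ 2 * u * t * g).primeFactors.filter (fun p => p ∈ PS z y),
      (p : ℝ) / ((p : ℝ) - 3) ≤
    (s * gw 1 3 s) * (v * gw 1 3 v) * (2 ^ g.primeFactors.card * hf 3 z t) := by
  have hs0 := dv_ne_zero hs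
  have hv0 := dv_ne_zero hv
  have hu0 := dv_ne_zero hu
  set f : ℕ → ℝ := fun p => (p : ℝ) / ((p : ℝ) - 3) with hf'
  set A := s.primeFactors with hA
  set B := v.primeFactors with hB
  set Ct := t.primeFactors.filter (fun p => z < p) with hCt
  set G := g.primeFactors.filter (fun p => z < p) with hG
  have hbig : ∀ p ∈ ((A ∪ B) ∪ Ct) ∪ G, z < p := by
    intro p hp
    rcases mem_union.1 hp with h | h
    · rcases mem_union.1 h with h | h
      · rcases mem_union.1 h with h | h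
        · exact (dv_prime hs (Nat.prime_of_mem_primeFactors h) (Nat.dvd_of_mem_primeFactors h)).1
        · exact (dv_prime hv (Nat.prime_of_mem_primeFactors h) (Nat.dvd_of_mem_primeFactors h)).1
      · exact (mem_filter.1 h).2
    · exact (mem_filter.1 h).2
  have hf1 : ∀ p ∈ ((A ∪ B) ∪ Ct) ∪ G, 1 ≤ f p := fun p hp => one_le_fac hz (hbig p hp)
  have hsub : (s * v ^ 2 * u * t * g).primeFactors.filter (fun p => p ∈ PS z y) ⊆
      ((A ∪ B) ∪ Ct) ∪ G := by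
    intro p hp
    rw [mem_filter, Nat.mem_primeFactors] at hp
    obtain ⟨⟨hpp, hd, -⟩, hPS⟩ := hp
    have hzp := (mem_PS.1 hPS).1.1
    rw [mem_union, mem_union, mem_union]
    rcases (hpp.dvd_mul).1 hd with h | h
    · rcases (hpp.dvd_mul).1 h with h | h
      · rcases (hpp.dvd_mul).1 h with h | h
        · rcases (hpp.dvd_mul).1 h with h | h
          · exact Or.inl (Or.inl (Or.inl (Nat.mem_primeFactors.2 ⟨hpp, h, hs0⟩)))
          · exact Or.inl (Or.inl (Or.inr (Nat.mem_primeFactors.2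
              ⟨hpp, hpp.dvd_of_dvd_pow h, hv0⟩)))
        · exfalso
          have h1 := (dv_prime hu hpp h).1
          have h2 := (mem_PS.1 hPS).1.2
          omega
      · exact Or.inl (Or.inr (mem_filter.2 ⟨Nat.mem_primeFactors.2 ⟨hpp, h, ht⟩, hzp⟩))
    · exact Or.inr (mem_filter.2 ⟨Nat.mem_primeFactors.2 ⟨hpp, h, hg⟩, hzp⟩)
  have h1 : ∏ p ∈ (s * v ^ 2 * u * t * g).primeFactors.filter (fun p => p ∈ PS z y), f p ≤
      ∏ p ∈ ((A ∪ B) ∪ Ct) ∪ G, f p := prod_sub_le hsub hf1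
  have hn : ∀ {S : Finset ℕ}, S ⊆ ((A ∪ B) ∪ Ct) ∪ G → 0 ≤ ∏ p ∈ S, f p := fun hS =>
    prod_nonneg fun p hp => zero_le_one.trans (hf1 p (hS hp))
  have sAB : A ∪ B ⊆ ((A ∪ B) ∪ Ct) ∪ G := subset_union_left.trans subset_union_left
  have sABC : (A ∪ B) ∪ Ct ⊆ ((A ∪ B) ∪ Ct) ∪ G := subset_union_left
  have h2 : ∏ p ∈ ((A ∪ B) ∪ Ct) ∪ G, f p ≤
      (((∏ p ∈ A, f p) * ∏ p ∈ B, f p) * ∏ p ∈ Ct, f p) * ∏ p ∈ G, f p := by
    refine (prod_union_le' hf1).trans (mul_le_mul_of_nonneg_right ?_ (hn subset_union_right))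
    refine (prod_union_le' fun p hp => hf1 p (sABC hp)).trans
      (mul_le_mul_of_nonneg_right ?_ (hn (subset_union_right.trans subset_union_left)))
    exact prod_union_le' fun p hp => hf1 p (sAB hp)
  have prs : ∏ p ∈ A, p = s := Nat.prod_primeFactors_of_squarefree (dv_squarefree hs)
  have prv : ∏ p ∈ B, p = v := Nat.prod_primeFactors_of_squarefree (dv_squarefree hv)
  have g1 : ∏ p ∈ A, f p = s * gw 1 3 s := by
    have hsr : ∏ p ∈ A, (p : ℝ) = s := by rw [← Nat.cast_prod, prs]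
    unfold gw
    conv_rhs => rw [← hsr]
    rw [← prod_mul_distrib]
    exact prod_congr rfl fun p _ => by rw [hf']; push_cast; ring
  have g2 : ∏ p ∈ B, f p = v * gw 1 3 v := by
    have hvr : ∏ p ∈ B, (p : ℝ) = v := by rw [← Nat.cast_prod, prv]
    unfold gw
    conv_rhs => rw [← hvr]
    rw [← prod_mul_distrib]
    exact prod_congr rfl fun p _ => by rw [hf']; push_cast; ring
  have g3 : ∏ p ∈ Ct, f p = hf 3 z t := by
    unfold hf
    exact prod_congr rfl fun p _ => by rw [hf']; push_cast; rfl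
  have g4 : ∏ p ∈ G, f p ≤ 2 ^ g.primeFactors.card := by
    calc ∏ p ∈ G, f p ≤ ∏ p ∈ G, (2 : ℝ) := by
          apply prod_le_prod
          · intro p hp
            exact zero_le_one.trans (one_le_fac hz (mem_filter.1 hp).2)
          · intro p hp
            exact fac_le_two hz (mem_filter.1 hp).2
      _ = 2 ^ G.card := by rw [prod_const]
      _ ≤ 2 ^ g.primeFactors.card := pow_le_pow_right₀ (by norm_num) (card_filter_le _ _)
  refine h1.trans (h2.trans ?_)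
  rw [g1, g2, g3]
  have p1 : 0 ≤ (s : ℝ) * gw 1 3 s := by
    rw [← g1]
    exact hn (subset_union_left.trans sAB)
  have p2 : 0 ≤ (v : ℝ) * gw 1 3 v := by
    rw [← g2]
    exact hn (subset_union_right.trans sAB)
  have p3 : 0 ≤ hf 3 z t := hf_nonneg (by omega)
  calc (s : ℝ) * gw 1 3 s * (v * gw 1 3 v) * hf 3 z t * ∏ p ∈ G, f p ≤
      (s : ℝ) * gw 1 3 s * (v * gw 1 3 v) * hf 3 z t * 2 ^ g.primeFactors.card :=
        mul_le_mul_of_nonneg_left g4 (mul_nonneg (mul_nonneg p1 p2) p3)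
    _ = _ := by ring

end Pool.Agent.L0h94.FT
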