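import Pool.Agent.L0h5.TF.Exp

/-!
# Expansion of an average of local conditions into symbols, general index set
-/

set_option autoImplicit false

namespace Pool.Agent.L0h94.FT

open Finset Pool.Agent.W262.RK Pool.Agent.L0h5.TF

open Pool.Agent.W762.RK2 (Pr Pr_prime nb nb_pf nb_ne_zero dvd_nb nb_inj nb_dvd nb_dvd_PP nb_eq
  prod_pf Dl Dl_mem lab sum_Tup Jr_nb_left sg sg_sg0 sgn_nb Sym_Dl)

open Pool.Agent.L0h5.AG (gg)

section

variable {I : Type} [Fintype I] [DecidableEq I] {k z y : ℕ}

/-- the link -/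
def Lki (lb : I → Lb k) (i i' : I) : Bool := Ll (lb i) (lb i')

/-- the weights -/
noncomputable def wi (w : I → ℝ) (c : ℕ) (i : I) (p : ℕ) : ℝ := w i / ((p : ℝ) - c)

/-- forget the character -/
def fgi (lb : I → Lb k) (x : Option I) : Option (Vk k) := x.map fun i => (lb i).1.1

/-- the local factor -/
noncomputable def Gti (lb : I → Lb k) (w : I → ℝ) (c : ℕ) (ξ : Pr z y → Option (Vk k))
    (p : Pr z y) (x : Option I) : ℝ :=
  x.elim 1 fun i => wi w c i p * chi (lb i).1.2 (hx ξ p)

lemma sum_Gti (lb : I → Lb k) (w : I → ℝ) (lam : ℕ → Vk k → Vk k → ℝ) (c : ℕ)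
    (ξ : Pr z y → Option (Vk k)) (p : Pr z y)
    (hlam : ∀ v h, lam p v h = ∑ i, if (lb i).1.1 = v then w i * chi (lb i).1.2 h else 0) :
    ∑ x ∈ univ.filter (fun x : Option I => fgi lb x = ξ p), Gti lb w c ξ p x =
      Tm lam c ξ p := by
  rw [sum_filter, Fintype.sum_option]
  unfold Tm
  cases hξ : ξ p with
  | none => simp [fgi, Gti]
  | some v =>
    have h0 : (if fgi lb (none : Option I) = some v then Gti lb w c ξ p none else 0) = 0 := by
      rw [if_neg]
      simp [fgi]
    rw [h0, zero_add]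
    simp only [Option.elim]
    rw [hlam, sum_mul]
    refine sum_congr rfl fun i _ => ?_
    by_cases h1 : (lb i).1.1 = v
    · have h2 : fgi lb (some i) = some v := by simp [fgi, h1]
      rw [if_pos h1, if_pos h2]
      show wi w c i p * chi (lb i).1.2 (hx ξ p) = _
      unfold wi
      ring
    · have h2 : ¬ fgi lb (some i) = some v := by simp [fgi, h1]
      rw [if_neg h1, if_neg h2, zero_mul]

lemma rhs_termi (lb : I → Lb k) (w : I → ℝ) (c : ℕ)
    (ξ : Pr z y → Option (Vk k)) (l : Pr z y → Option I) (h : ∀ p, fgi lb (l p) = ξ p) :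
    (∏ i, gg (wi w c) i (Dl l i)) * Sym (Lki lb) (fun _ => 1) (Dl l) =
      ∏ p, Gti lb w c ξ p (l p) := by
  rw [prod_gg, Sym_Dl, ← prod_mul_distrib, ← prod_mul_distrib]
  refine prod_congr rfl fun p _ => ?_
  cases hl : l p with
  | none =>
    have h0 : ∀ q, Pool.Agent.W762.RK2.lk (Lki lb) (l q) none = false := by
      intro q
      cases l q <;> rfl
    simp [h0, Gti]
  | some i =>
    have hev : oo (lb i).1.2 (ξ p) = false := by
      rw [← h p, hl]
      simp only [oo, fgi, Option.map_some, Option.elim]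
      have := (lb i).2
      rw [decide_eq_false_iff_not, Nat.not_odd_iff_even]
      exact this
    have h1 : ∀ q, Pool.Agent.W762.RK2.lk (Lki lb) (l q) (some i) =
        oo (lb i).1.2 (ξ q) := by
      intro q
      rw [← h q]
      cases hq : l q with
      | none => rfl
      | some i' => rfl
    have e1 : ∏ q : Pr z y, (if Pool.Agent.W762.RK2.lk (Lki lb) (l q) (some i) = true
        then Jr (q : ℕ) p else 1) = chi (lb i).1.2 (hx ξ p) := by
      rw [chi_eq ξ p (lb i).1.2 hev]
      refine prod_congr rfl fun q _ => ?_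
      rw [h1]
    rw [e1]
    simp [Gti, Pool.Agent.L0h5.AG.Jr_one_left']

/-- **The expansion** -/
theorem exp_idi (lb : I → Lb k) (w : I → ℝ) (lam : ℕ → Vk k → Vk k → ℝ) (c z y : ℕ)
    (hlam : ∀ p ∈ PS z y, ∀ v h, lam p v h =
      ∑ i, if (lb i).1.1 = v then w i * chi (lb i).1.2 h else 0) :
    ∑ s ∈ (PP z y).divisors, Gs lam s * gw 1 c s =
      ∑ d ∈ Tup I z y, (∏ i, gg (wi w c) i (d i)) * Sym (Lki lb) (fun _ => 1) d := by
  classical
  rw [lhs_eq, sum_Tup, ← Finset.sum_fiberwise univ
    (fun (l : Pr z y → Option I) => fun p => fgi lb (l p))]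
  refine Finset.sum_congr rfl fun ξ _ => ?_
  have h1 : (univ.filter fun l : Pr z y → Option I => (fun p => fgi lb (l p)) = ξ) =
      Fintype.piFinset (fun p => univ.filter (fun x : Option I => fgi lb x = ξ p)) := by
    ext l
    simp only [Finset.mem_filter, Finset.mem_univ, true_and, Fintype.mem_piFinset, funext_iff]
  rw [h1, Finset.prod_congr rfl fun p _ => (sum_Gti lb w lam c ξ p (hlam p p.2)).symm,
    Finset.prod_univ_sum]
  refine Finset.sum_congr rfl fun l hl => ?_
  rw [Fintype.mem_piFinset] at hl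
  exact (rhs_termi lb w c ξ l fun p => (Finset.mem_filter.1 (hl p)).2).symm

end

end Pool.Agent.L0h94.FT
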