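import Pool.Agent.L0h94.FT.Gen
import Pool.Agent.L0h5.TF.Sub
import Pool.Agent.L0h5.TF.Four
import Pool.Agent.L0h5.TF.Avg

/-!
# The local conditions of the curves with full two-torsion, for the second moment
-/

set_option autoImplicit false

namespace Pool.Agent.L0h94.FT

open Finset Pool.Agent.W262.RK Pool.Agent.L0h5.TF

open Pool.Agent.W762.RK2 (sg)

/-- the local condition of class `c` with sign `e` -/
def Lce (c : Fin 3) (e : Bool) (v w h g : Bool) : Prop :=
  if c = 0 then v = w ∧ xor h g = (v && e)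
  else if c = 1 then w = false ∧ g = (v && e)
  else v = false ∧ h = (w && e)

lemma LL_Lce (c : Fin 3) (κ : ℤ) (p : ℕ) (v w h g : Bool) :
    LL c.castSucc (fun _ => κ) false p v w h g ↔ Lce c (sg0 p κ) v w h g := by
  unfold LL Lce
  fin_cases c <;> simp

lemma xc_Lce (c : Fin 3) (e : Bool) : XC (Lce c e) := by
  unfold XC Lce
  fin_cases c
  · simp only [Fin.zero_eta, if_true]
    refine ⟨by simp, ?_⟩
    rintro a b c d a' b' c' d' ⟨rfl, h1⟩ ⟨rfl, h2⟩
    revert h1 h2
    cases a <;> cases c <;> cases d <;> cases a' <;> cases c' <;> cases d' <;> cases e <;> simp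
  · refine ⟨by simp, ?_⟩
    intro a b c d a' b' c' d'
    simp only [Fin.mk_one, if_true, one_ne_zero, if_false]
    rintro ⟨rfl, rfl⟩ ⟨rfl, rfl⟩
    cases a <;> cases a' <;> cases e <;> simp
  · refine ⟨by simp, ?_⟩
    intro a b c d a' b' c' d'
    have h0 : ¬ (2 : Fin 3) = 0 := by decide
    have h1 : ¬ (2 : Fin 3) = 1 := by decide
    simp only [Fin.reduceFinMk, h0, h1, if_false]
    rintro ⟨rfl, rfl⟩ ⟨rfl, rfl⟩
    cases b <;> cases b' <;> cases e <;> simp

/-- the states -/
abbrev St2 : Type := Fin 3 × Bool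

/-- the local average -/
noncomputable def lam2 (_ : ℕ) (v h : Vk 2) : ℝ :=
  ∑ σ : St2, (1 / 2) * ∏ i, iL (Lce σ.1 σ.2) (v i) (h i)

lemma lam2_nonneg (p : ℕ) (v h : Vk 2) : 0 ≤ lam2 p v h := by
  unfold lam2
  exact sum_nonneg fun σ _ => mul_nonneg (by norm_num) (prod_nonneg fun i _ => iL_nonneg _ _ _)

lemma Gs2_nonneg (s : ℕ) : 0 ≤ Gs lam2 s := by
  rw [Gs_def]
  exact sum_nonneg fun D _ => prod_nonneg fun p _ => lam2_nonneg p _ _

/-- the growth -/
lemma growth2 (m e : ℕ) (h : Squarefree (m * e)) :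
    Gs lam2 (m * e) ≤ 48 ^ e.primeFactors.card * Gs lam2 m := by
  have h1 := sub_abs (k := 2) (fun _ => (univ : Finset St2)) (fun σ _ => Lce σ.1 σ.2) lam2 3 m e h
    (fun p _ _ v h => rfl) (fun p _ _ => by
      simp only [card_univ, Fintype.card_prod, Fintype.card_fin, Fintype.card_bool]
      norm_num)
    (fun p _ _ σ _ => xc_Lce _ _)
  norm_num at h1
  exact h1

/-- the direction of the divisors -/
def ev (c : Fin 3) (b : Bool) : Bool × Bool := if b then ec c.castSucc else (false, false)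

/-- the direction of the characters -/
def ex (c : Fin 3) (b : Bool) : Bool × Bool := if b then (ec c.castSucc).swap else (false, false)

/-- the indices -/
def I2 : Type := {i : Fin 3 × (Bool × Bool) × (Bool × Bool) //
  xor (i.2.1.1 && i.2.2.1) (i.2.1.2 && i.2.2.2) = false}

instance : Fintype I2 := by unfold I2; infer_instance

instance : DecidableEq I2 := by unfold I2; infer_instance

/-- the divisor part of the label -/
def vv (c : Fin 3) (v : Bool × Bool) : Vk 2 := ![ev c v.1, ev c v.2]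

/-- the character part of the label -/
def xx (c : Fin 3) (x : Bool × Bool) : Vk 2 := ![ex c x.1, ex c x.2]

lemma nd_vx (c c' : Fin 3) (v x : Bool × Bool) :
    nd (xx c' x) (vv c v) = if c = c' ∧ c = 0 then 2 * ((if (v.1 && x.1) then 1 else 0) +
      (if (v.2 && x.2) then 1 else 0)) else if c = c' then 0 else
      ((if (v.1 && x.1) then 1 else 0) + (if (v.2 && x.2) then 1 else 0)) := by
  revert c c' v x
  decide

/-- the label -/
def lb2 (i : I2) : Lb 2 := ⟨(vv i.1.1 i.1.2.1, xx i.1.1 i.1.2.2), by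
  have : ∀ (c : Fin 3) (v x : Bool × Bool), Even (nd (xx c x) (vv c v)) := by decide
  exact this _ _ _⟩

/-- the link of two indices -/
lemma Lki_lb2 (i i' : I2) : Lki lb2 i i' = (decide (i.1.1 ≠ i'.1.1) &&
    xor (i.1.2.1.1 && i'.1.2.2.1) (i.1.2.1.2 && i'.1.2.2.2)) := by
  have : ∀ (c c' : Fin 3) (v x : Bool × Bool), decide (Odd (nd (xx c' x) (vv c v))) =
    (decide (c ≠ c') && xor (v.1 && x.1) (v.2 && x.2)) := by decide
  exact this _ _ _ _

end Pool.Agent.L0h94.FT
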