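import Pool.Agent.L0h94.FT.Rk
import Pool.Agent.L0h5.TF.Lift
import Pool.Agent.L0h5.TF.Sub

/-!
# The local densities
-/

set_option autoImplicit false

namespace Pool.Agent.L0h94.FT

open Finset Pool.Agent.W262.RK Pool.Agent.L0h5.TF
open Pool.Agent.W307.RT (fv)

/-- the number of the classes that satisfy the local conditions -/
noncomputable def phi (α β : Fin 3 → ℤ) (g : ℕ) (D : Fin 2 → ℕ × ℕ) (p r : ℕ) : ℝ :=
  ∑ c : Fin 3, ∏ i, iL (Lce c (sg0 p (Kc α β c * ((g : ℤ) * r)))) (bv p D i) (bs p D i)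

lemma phi_nonneg (α β : Fin 3 → ℤ) (g : ℕ) (D : Fin 2 → ℕ × ℕ) (p r : ℕ) :
    0 ≤ phi α β g D p r :=
  sum_nonneg fun _ _ => prod_nonneg fun _ _ => iL_nonneg _ _ _

/-- the number of the residues with given symbol -/
lemma card_sym {p : ℕ} (hp : p.Prime) (hp2 : p ≠ 2) {K : ℤ} (hK : ¬ (p : ℤ) ∣ K) (e : Bool) :
    (((range p).filter (fun r : ℕ => r ≠ 0 ∧ sg0 p (K * r) = e)).card : ℝ) ≤ p / 2 := by
  have : Fact p.Prime := ⟨hp⟩
  have hp0 : (p : ℤ) ≠ 0 := by exact_mod_cast hp.ne_zero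
  set e' : ℤ := if e = true then -1 else 1 with he
  have h1 := Pool.Agent.W372.RK2.card_W hp hp2 e' (by rw [he]; split_ifs <;> simp)
  have h2 : ((range p).filter (fun r : ℕ => r ≠ 0 ∧ sg0 p (K * r) = e)).card ≤
      ((range p).filter (fun x : ℕ => jacobiSym x p = e')).card := by
    apply card_le_card_of_injOn (fun r : ℕ => ((K * r) % p).toNat)
    · intro r hr
      obtain ⟨hr1, hr2, hr3⟩ := mem_filter.1 (mem_coe.1 hr)
      rw [mem_coe, mem_filter, mem_range]
      have h3 : 0 ≤ (K * r) % p := Int.emod_nonneg _ hp0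
      have h4 : (K * r) % p < p := Int.emod_lt_of_pos _ (by exact_mod_cast hp.pos)
      show ((K * r) % p).toNat < p ∧ jacobiSym (((K * r) % p).toNat : ℤ) p = e'
      refine ⟨by omega, ?_⟩
      rw [Int.toNat_of_nonneg h3]
      have h5 : jacobiSym ((K * r) % p) p = jacobiSym (K * r) p := (jacobiSym.mod_left _ _).symm
      rw [h5]
      have h6 : ¬ (p : ℤ) ∣ K * r := by
        intro h
        rcases (Nat.prime_iff_prime_int.1 hp).dvd_or_dvd h with h7 | h7
        · exact hK h7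
        · have h8 := Nat.le_of_dvd (Nat.pos_of_ne_zero hr2) (Int.natCast_dvd_natCast.1 h7)
          have h9 := mem_range.1 hr1
          omega
      have h7 := Pool.Agent.W342.RK2.jac_ne h6
      unfold sg0 at hr3
      rw [he]
      rcases h7 with h7 | h7
      · rw [h7] at hr3 ⊢
        rw [← hr3]
        simp
      · rw [h7] at hr3 ⊢
        rw [← hr3]
        simp
    · intro x hx x' hx' hxx
      obtain ⟨hx1, hx2, hx3⟩ := mem_filter.1 (mem_coe.1 hx)
      obtain ⟨hx1', hx2', hx3'⟩ := mem_filter.1 (mem_coe.1 hx')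
      simp only at hxx
      have h3 : 0 ≤ (K * x) % p := Int.emod_nonneg _ hp0
      have h3' : 0 ≤ (K * x') % p := Int.emod_nonneg _ hp0
      have h4 : (K * x) % p = (K * x') % p := by omega
      have h5 : (p : ℤ) ∣ K * x' - K * x := by
        have : K * x ≡ K * x' [ZMOD p] := h4
        exact this.dvd
      rw [← mul_sub] at h5
      rcases (Nat.prime_iff_prime_int.1 hp).dvd_or_dvd h5 with h7 | h7
      · exact absurd h7 hK
      · have h11 : x ≡ x' [MOD p] := (Nat.modEq_iff_dvd).2 h7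
        exact Nat.ModEq.eq_of_lt_of_lt h11 (mem_range.1 hx1) (mem_range.1 hx1')
  have h3 : 2 * ((range p).filter (fun r : ℕ => r ≠ 0 ∧ sg0 p (K * r) = e)).card ≤ p := by omega
  have h4 : (2 : ℝ) * (((range p).filter (fun r : ℕ => r ≠ 0 ∧ sg0 p (K * r) = e)).card : ℝ) ≤
      p := by exact_mod_cast h3
  linarith

/-- the average of the local density -/
lemma phi_avg {α β : Fin 3 → ℤ} {z : ℕ} (hb : Bg α β z) {g : ℕ} (D : Fin 2 → ℕ × ℕ) {p : ℕ}
    (hp : p.Prime) (hz : z < p) (hg : ¬ p ∣ g) :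
    (1 / (p : ℝ)) * ∑ r ∈ (range p).filter (fun r => r ≠ 0), phi α β g D p r ≤
      lam2 p (bv p D) (bs p D) := by
  classical
  have hz8 : 8 ≤ z := by
    have := hb.1
    simpa using this
  have hpi : Prime (p : ℤ) := Nat.prime_iff_prime_int.1 hp
  have hp0 : (0 : ℝ) < p := by exact_mod_cast hp.pos
  have hK : ∀ c, ¬ (p : ℤ) ∣ Kc α β c * g := by
    intro c hd
    have : Fact p.Prime := ⟨hp⟩
    rcases hpi.dvd_or_dvd hd with h4 | h4
    · unfold Kc at h4
      rcases hpi.dvd_or_dvd h4 with h5 | h5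
      · split_ifs at h5 with h6
        · exact Pool.Agent.W342.RK2.not_dvd_one h5
        · exact Pool.Agent.W342.RK2.not_dvd_neg_one h5
      · rcases hpi.dvd_or_dvd h5 with h6 | h6
        · exact (hb.2 p hp hz).2 c (cp c) (cp_ne c) h6
        · exact (hb.2 p hp hz).1 c h6
    · exact hg (Int.natCast_dvd_natCast.1 h4)
  unfold phi
  rw [sum_comm, mul_sum]
  unfold lam2
  rw [Fintype.sum_prod_type]
  refine sum_le_sum fun c _ => ?_
  set F : Bool → ℝ := fun e => ∏ i, iL (Lce c e) (bv p D i) (bs p D i) with hF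
  have hF0 : ∀ e, 0 ≤ F e := fun e => prod_nonneg fun _ _ => iL_nonneg _ _ _
  have h1 : ∑ r ∈ (range p).filter (fun r => r ≠ 0), F (sg0 p (Kc α β c * ((g : ℤ) * r))) =
      ∑ e : Bool, (((range p).filter (fun r : ℕ => r ≠ 0 ∧ sg0 p (Kc α β c * g * r) = e)).card : ℝ)
        * F e := by
    rw [← sum_fiberwise (s := (range p).filter (fun r => r ≠ 0))
      (g := fun r : ℕ => sg0 p (Kc α β c * g * r))]
    refine sum_congr rfl fun e _ => ?_
    rw [filter_filter]
    rw [← nsmul_eq_mul, ← sum_const]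
    refine sum_congr rfl fun r hr => ?_
    have h2 := (mem_filter.1 hr).2.2
    rw [← mul_assoc, h2]
  show 1 / (p : ℝ) * ∑ r ∈ (range p).filter (fun r => r ≠ 0),
    F (sg0 p (Kc α β c * ((g : ℤ) * r))) ≤ ∑ e : Bool, 1 / 2 * F e
  rw [h1, mul_sum]
  refine sum_le_sum fun e _ => ?_
  have h2 := card_sym hp (by omega) (hK c) e
  calc 1 / (p : ℝ) * ((((range p).filter (fun r : ℕ => r ≠ 0 ∧
        sg0 p (Kc α β c * g * r) = e)).card : ℝ) * F e)
      ≤ 1 / (p : ℝ) * ((p / 2 : ℝ) * F e) :=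
        mul_le_mul_of_nonneg_left (mul_le_mul_of_nonneg_right h2 (hF0 e)) (by positivity)
    _ = 1 / 2 * F e := by field_simp

end Pool.Agent.L0h94.FT
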