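import Pool.Agent.L0h94.FT.Rmv
import Pool.Agent.L0h94.FT.Loc
import Pool.Agent.L0h5.TF.Fam

/-!
# The bound for the rank
-/

set_option autoImplicit false

namespace Pool.Agent.L0h94.FT

open Finset Pool.Agent.W262.RK
open Pool.Agent.W307.RT (S1 S2 Gd fv)

/-- the partner -/
def cp (c : Fin 3) : Fin 3 := if c = 0 then 1 else 0

/-- the constant -/
def Kc (α β : Fin 3 → ℤ) (c : Fin 3) : ℤ :=
  (if c = 2 then 1 else -1) * (Res α β c (cp c) * α c)

/-- the local conditions -/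
def Lw (α β : Fin 3 → ℤ) (g x t : ℕ) (p : ℕ) (v w h k : Bool) : Prop :=
  ∀ c : Fin 3, (p : ℤ) ∣ fv α β x t c → Lce c (sg0 p (Kc α β c * ((g : ℤ) * t))) v w h k

lemma xc_Lw (α β : Fin 3 → ℤ) (g x t p : ℕ) : XC (Lw α β g x t p) := by
  have h : ∀ c, XC (Lce c (sg0 p (Kc α β c * ((g : ℤ) * t)))) := fun c => xc_Lce _ _
  exact ⟨fun c _ => (h c).1, fun a1 b1 c1 d1 a2 b2 c2 d2 e1 e2 c hc =>
    (h c).2 a1 b1 c1 d1 a2 b2 c2 d2 (e1 c hc) (e2 c hc)⟩

lemma cp_ne (c : Fin 3) : c ≠ cp c := by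
  revert c
  decide

section

variable {α β : Fin 3 → ℤ} {z : ℕ}

lemma ndt (hb : Bg α β z) {p : ℕ} (hp : p.Prime) (hz : z < p) {x t : ℕ} (hc : x.Coprime t)
    {c : Fin 3} (h : (p : ℤ) ∣ fv α β x t c) : ¬ (p : ℤ) ∣ (t : ℤ) := by
  intro ht
  have hpi : Prime (p : ℤ) := Nat.prime_iff_prime_int.1 hp
  have h1 : (p : ℤ) ∣ α c * x := by
    have h2 : α c * x = fv α β x t c - β c * t := by unfold fv; ring
    rw [h2]
    exact dvd_sub h (ht.mul_left _)
  rcases hpi.dvd_or_dvd h1 with h2 | h2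
  · exact (hb.2 p hp hz).1 c h2
  · have h3 : p ∣ Nat.gcd x t := Nat.dvd_gcd (Int.natCast_dvd_natCast.1 h2)
      (Int.natCast_dvd_natCast.1 ht)
    rw [hc.gcd_eq_one] at h3
    exact hp.one_lt.ne' (Nat.dvd_one.1 h3)

lemma ndo (hb : Bg α β z) {p : ℕ} (hp : p.Prime) (hz : z < p) {x t : ℕ} (hc : x.Coprime t)
    {c l : Fin 3} (hcl : c ≠ l) (h : (p : ℤ) ∣ fv α β x t c) : ¬ (p : ℤ) ∣ fv α β x t l := by
  intro hl
  have hpi : Prime (p : ℤ) := Nat.prime_iff_prime_int.1 hp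
  have h1 : (p : ℤ) ∣ Res α β c l * t := by
    have h2 : Res α β c l * t = α c * fv α β x t l - α l * fv α β x t c := by
      unfold Res fv; ring
    rw [h2]
    exact dvd_sub (hl.mul_left _) (h.mul_left _)
  rcases hpi.dvd_or_dvd h1 with h2 | h2
  · exact (hb.2 p hp hz).2 c l hcl h2
  · exact ndt hb hp hz hc h h2

lemma sq_dvd_F3 (hb : Bg α β z) {p : ℕ} (hp : p.Prime) (hz : z < p) {x t : ℕ} (hc : x.Coprime t)
    {c : Fin 3} (h : (p : ℤ) ∣ fv α β x t c) :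
    (p : ℤ) ^ 2 ∣ F3 α β x t ↔ (p : ℤ) ^ 2 ∣ fv α β x t c := by
  have hpi : Prime (p : ℤ) := Nat.prime_iff_prime_int.1 hp
  unfold F3
  rw [← mul_prod_erase univ (fun j => fv α β x t j) (mem_univ c)]
  have h1 : ¬ (p : ℤ) ∣ ∏ j ∈ univ.erase c, fv α β x t j := by
    intro h2
    obtain ⟨j, hj, h3⟩ := (hpi.dvd_finsetProd_iff _).1 h2
    exact ndo hb hp hz hc (mem_erase.1 hj).1.symm h h3
  constructor
  · intro h2
    exact (((Prime.coprime_iff_not_dvd hpi).2 h1).pow_left).dvd_of_dvd_mul_right h2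
  · intro h2
    exact h2.mul_right _

lemma dvd_F3 {p : ℕ} (hp : p.Prime) {x t : ℕ} :
    (p : ℤ) ∣ F3 α β x t ↔ ∃ c, (p : ℤ) ∣ fv α β x t c := by
  unfold F3
  rw [(Nat.prime_iff_prime_int.1 hp).dvd_finsetProd_iff]
  simp

/-- the symbol of the partner -/
lemma jac_cp (hb : Bg α β z) {p : ℕ} (hp : p.Prime) (hz : z < p) {g x t : ℕ} (hc : x.Coprime t)
    (hg : ¬ p ∣ g) {c : Fin 3} (h : (p : ℤ) ∣ fv α β x t c) :
    jacobiSym (Res α β c (cp c) * α c * (g * t) * (g * fv α β x t (cp c))) p = 1 := by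
  have hpi : Prime (p : ℤ) := Nat.prime_iff_prime_int.1 hp
  set l := cp c with hl
  have hcl : c ≠ l := cp_ne c
  have e1 : Res α β c l * α c * (g * t) * (g * fv α β x t l) =
      ((g : ℤ) * g) * ((Res α β c l * t) * (α c * fv α β x t l)) := by ring
  have hgi : ¬ (p : ℤ) ∣ (g : ℤ) := fun h => hg (Int.natCast_dvd_natCast.1 h)
  have hx : ¬ (p : ℤ) ∣ α c * fv α β x t l := by
    intro h1
    rcases hpi.dvd_or_dvd h1 with h2 | h2
    · exact (hb.2 p hp hz).1 c h2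
    · exact ndo hb hp hz hc hcl h h2
  have h2 : (p : ℤ) ∣ α c * fv α β x t l - Res α β c l * t := by
    have e2 : α c * fv α β x t l - Res α β c l * t = α l * fv α β x t c := by
      unfold Res fv; ring
    rw [e2]
    exact h.mul_left _
  rw [e1, jacobiSym.mul_left, jacobiSym.mul_left, jacobiSym.mul_left (Res α β c l * t)]
  rw [Pool.Agent.L0h5.TF.jac_self hp hx h2]
  rcases Pool.Agent.L0h5.TF.jac_unit hp hgi with h3 | h3 <;> rw [h3] <;> norm_num

/-- the local hypotheses hold -/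
lemma locH2 (hb : Bg α β z) (hrel : ∀ x t : ℤ, fv α β x t 0 - fv α β x t 1 = fv α β x t 2)
    {p : ℕ} (hp : p.Prime) (hz : z < p) {g x t : ℕ} (hc : x.Coprime t)
    (hg : ¬ p ∣ g) {c : Fin 3} (h : (p : ℤ) ∣ fv α β x t c) (h2 : ¬ (p : ℤ) ^ 2 ∣ fv α β x t c) :
    LocH c.castSucc (fun _ => Kc α β c * ((g : ℤ) * t)) false p (g * fv α β x t 0)
      (g * fv α β x t 1) := by
  have hpi : Prime (p : ℤ) := Nat.prime_iff_prime_int.1 hp
  have hgi : ¬ (p : ℤ) ∣ (g : ℤ) := fun h => hg (Int.natCast_dvd_natCast.1 h)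
  have e2 : (g : ℤ) * fv α β x t 0 - g * fv α β x t 1 = g * fv α β x t 2 := by
    rw [← hrel]; ring
  have hun : ∀ l, c ≠ l → ¬ (p : ℤ) ∣ g * fv α β x t l := by
    intro l hl h1
    rcases hpi.dvd_or_dvd h1 with h3 | h3
    · exact hgi h3
    · exact ndo hb hp hz hc hl h h3
  have hsq : ¬ (p : ℤ) ^ 2 ∣ g * fv α β x t c := by
    intro h1
    exact h2 ((((Prime.coprime_iff_not_dvd hpi).2 hgi).pow_left).dvd_of_dvd_mul_left h1)
  have hj := jac_cp hb hp hz hc hg h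
  unfold LocH
  fin_cases c
  · simp only [Fin.zero_eta, Fin.castSucc_zero, if_true] at *
    refine ⟨h.mul_left _, hsq, hun 1 (by decide), ?_⟩
    rw [← hj]
    congr 1
    unfold Kc cp
    simp
  · simp only [Fin.mk_one] at *
    have e3 : ¬ (Fin.castSucc (1 : Fin 3)) = 0 := by decide
    have e4 : (Fin.castSucc (1 : Fin 3)) = 1 := by decide
    rw [if_neg e3, if_pos e4]
    refine ⟨h.mul_left _, hsq, hun 0 (by decide), ?_⟩
    rw [← hj]
    congr 1
    unfold Kc cp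
    simp
  · simp only [Fin.reduceFinMk] at *
    have e3 : ¬ (Fin.castSucc (2 : Fin 3)) = 0 := by decide
    have e4 : ¬ (Fin.castSucc (2 : Fin 3)) = 1 := by decide
    have e5 : (Fin.castSucc (2 : Fin 3)) = 2 := by decide
    rw [if_neg e3, if_neg e4, if_pos e5, e2]
    refine ⟨h.mul_left _, hsq, hun 0 (by decide), ?_⟩
    rw [← hj]
    congr 1
    unfold Kc cp
    simp

end

end Pool.Agent.L0h94.FT
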