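import Mathlib
import Pool.Agent.W307.RT.Defs
import Pool.Agent.W262.RK.NT1

/-!
# The part of an integer that is prime to a given integer
-/

set_option autoImplicit false

namespace Pool.Agent.L0h94.FT

open Finset Pool.Agent.W262.RK
open Pool.Agent.W307.RT (S1 S2 Gd fv)

/-- the part of `n` prime to `g` -/
def rmv (n g : ℕ) : ℕ := (n.factorization.filter (fun p => ¬ p ∣ g)).prod (· ^ ·)

lemma rmv_fac (n g : ℕ) :
    (rmv n g).factorization = n.factorization.filter (fun p => ¬ p ∣ g) := by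
  unfold rmv
  apply Nat.prod_pow_factorization_eq_self
  intro p hp
  rw [Finsupp.support_filter, mem_filter, Nat.support_factorization] at hp
  exact Nat.prime_of_mem_primeFactors hp.1

lemma rmv_ne (n g : ℕ) : rmv n g ≠ 0 := by
  unfold rmv
  rw [Finsupp.prod, prod_ne_zero_iff]
  intro p hp
  rw [Finsupp.support_filter, mem_filter, Nat.support_factorization] at hp
  exact pow_ne_zero _ (Nat.prime_of_mem_primeFactors hp.1).ne_zero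

lemma pow_dvd_rmv {p k n g : ℕ} (hp : p.Prime) (hn : n ≠ 0) (hk : k ≠ 0) :
    p ^ k ∣ rmv n g ↔ p ^ k ∣ n ∧ ¬ p ∣ g := by
  rw [hp.pow_dvd_iff_le_factorization (rmv_ne n g), hp.pow_dvd_iff_le_factorization hn, rmv_fac,
    Finsupp.filter_apply]
  by_cases h : p ∣ g
  · simp [h, hk]
  · simp [h]

lemma dvd_rmv {p n g : ℕ} (hp : p.Prime) (hn : n ≠ 0) :
    p ∣ rmv n g ↔ p ∣ n ∧ ¬ p ∣ g := by
  have := pow_dvd_rmv (g := g) hp hn one_ne_zero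
  rwa [pow_one] at this

lemma rmv_dvd {n g : ℕ} (hn : n ≠ 0) : rmv n g ∣ n := by
  rw [← Nat.factorization_le_iff_dvd (rmv_ne n g) hn, rmv_fac]
  intro p
  rw [Finsupp.filter_apply]
  split_ifs <;> simp

/-- the product of the three forms -/
def F3 (α β : Fin 3 → ℤ) (x t : ℤ) : ℤ := ∏ j, fv α β x t j

/-- the relevant part of the product -/
def fR (α β : Fin 3 → ℤ) (ω : ℕ × ℕ × ℕ) : Unit → ℤ :=
  fun _ => (rmv (F3 α β ω.2.1 ω.2.2).natAbs ω.1 : ℤ)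

lemma fR_ne (α β : Fin 3 → ℤ) (ω : ℕ × ℕ × ℕ) : fR α β ω () ≠ 0 := by
  unfold fR
  exact_mod_cast rmv_ne _ _

lemma gd_fR (α β : Fin 3 → ℤ) (z : ℕ) (ω : ℕ × ℕ × ℕ) : Gd z (fR α β ω) :=
  ⟨fun _ => fR_ne α β ω, fun _ _ _ j l hjl => absurd (Subsingleton.elim j l) hjl⟩

lemma dvd_fR {α β : Fin 3 → ℤ} {g x t p k : ℕ} (hp : p.Prime) (hk : k ≠ 0)
    (h0 : F3 α β x t ≠ 0) :
    (p : ℤ) ^ k ∣ fR α β (g, x, t) () ↔ (p : ℤ) ^ k ∣ F3 α β x t ∧ ¬ p ∣ g := by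
  unfold fR
  have h1 := pow_dvd_rmv (g := g) hp (Int.natAbs_ne_zero.2 h0) hk
  simp only
  rw [← Nat.cast_pow, Int.natCast_dvd_natCast, h1, Int.natCast_dvd]

lemma dvd_fR1 {α β : Fin 3 → ℤ} {g x t p : ℕ} (hp : p.Prime)
    (h0 : F3 α β x t ≠ 0) :
    (p : ℤ) ∣ fR α β (g, x, t) () ↔ (p : ℤ) ∣ F3 α β x t ∧ ¬ p ∣ g := by
  have := dvd_fR (g := g) hp one_ne_zero h0
  rwa [pow_one] at this

lemma dvd_S1R {α β : Fin 3 → ℤ} {z y g x t p : ℕ} (hp : p.Prime) (h0 : F3 α β x t ≠ 0) :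
    p ∣ S1 z y (fR α β (g, x, t)) () ↔ p ∈ PS z y ∧ ¬ p ∣ g ∧ (p : ℤ) ∣ F3 α β x t ∧
      ¬ (p : ℤ) ^ 2 ∣ F3 α β x t := by
  unfold S1
  rw [prime_dvd_prodS (fun q hq => (mem_PS.1 (mem_filter.1 hq).1).2) hp, mem_filter,
    dvd_fR1 hp h0, dvd_fR hp two_ne_zero h0]
  tauto

lemma dvd_S2R {α β : Fin 3 → ℤ} {z y g x t p : ℕ} (hp : p.Prime) (h0 : F3 α β x t ≠ 0) :
    p ∣ S2 z y (fR α β (g, x, t)) () ↔ p ∈ PS z y ∧ ¬ p ∣ g ∧ (p : ℤ) ^ 2 ∣ F3 α β x t := by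
  unfold S2
  rw [prime_dvd_prodS (fun q hq => (mem_PS.1 (mem_filter.1 hq).1).2) hp, mem_filter,
    dvd_fR hp two_ne_zero h0]
  tauto

lemma S1R_dvd (z y : ℕ) (f : Unit → ℤ) : S1 z y f () ∣ PP z y :=
  prod_dvd_prod_of_subset _ _ _ (filter_subset _ _)

end Pool.Agent.L0h94.FT
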