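import Pool.Agent.L0h94.FT.Ct3
import Pool.Agent.L0h94.FT.Om

/-!
# The sums over the outer variables
-/

set_option autoImplicit false

namespace Pool.Agent.L0h94.FT

open Finset Pool.Agent.W262.RK Pool.Agent.L0h5.TF
open Pool.Agent.W307.RT (S1 S2 Gd fv)

/-- the conclusion of the averaging lemma -/
def AvC (z : ℕ) (C : ℝ) : Prop := ∀ (Y s : ℕ) (φ : ℕ → ℕ → ℝ),
    Squarefree s → s ^ 4 ≤ Y → (∀ p v, 0 ≤ φ p v) →
    ∑ v ∈ (Icc 1 Y).filter (fun v => v.Coprime s),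
      (∏ p ∈ s.primeFactors, φ p (v % p)) * hf 3 z v ≤
      C * Y * ∏ p ∈ s.primeFactors, ((1 / (p : ℝ)) * ∑ r ∈ (range p).filter (fun r => r ≠ 0), φ p r)

/-- the data of a point -/
def Pt (α β : Fin 3 → ℤ) (z y s v u g : ℕ) (D : Fin 2 → ℕ × ℕ) (x t : ℕ) : Prop :=
  x.Coprime t ∧ F3 α β x t ≠ 0 ∧
      S1 z y (fR α β (g, x, t)) () = s ∧ S2 z y (fR α β (g, x, t)) () = v ∧
      (u : ℤ) ∣ fR α β (g, x, t) () ∧
      ∀ p ∈ s.primeFactors, ∀ i, Lw α β g x t p (bv p D i).1 (bv p D i).2 (bs p D i).1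
        (bs p D i).2

lemma gw3_nonneg {z y s : ℕ} (hz : 8 ≤ z) (hs : s ∈ (PP z y).divisors) : 0 ≤ gw 1 3 s :=
  gw_nonneg (by omega) hs

lemma sum_gt {α β : Fin 3 → ℤ} {z : ℕ} (hb : Bg α β z) {C C1 : ℝ} {K y0 : ℕ} (hC : 0 ≤ C)
    (hC1 : 0 ≤ C1) (hsv : SvD z C K y0) (hav : AvC z C1)
    {X y Y s v u g : ℕ} (hy : y0 ≤ y) (hzy : z < y) (hyX : y ^ K ≤ X)
    (hs : s ∈ (PP z y).divisors) (hv : v ∈ (PP z y).divisors) (hu : u ∈ (PP y Y).divisors)
    (hsvu : (s * v * u) ^ 8 ≤ X) (hg : g ≠ 0)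
    (D : Fin 2 → ℕ × ℕ) (T : Finset (ℕ × ℕ))
    (hT : ∀ q ∈ T, q.1 ∈ Icc 1 X ∧ q.2 ∈ Icc 1 X ∧ Pt α β z y s v u g D q.1 q.2) :
    (T.card : ℝ) ≤ C * C1 * X ^ 2 *
      ((∏ p ∈ s.primeFactors, lam2 p (bv p D) (bs p D)) * gw 1 3 s) *
      (3 ^ v.primeFactors.card * (gw 1 3 v / v)) * (3 ^ u.primeFactors.card / u) *
      2 ^ g.primeFactors.card / (Real.log y) ^ 3 := by
  classical
  have hz8 : 8 ≤ z := by
    have := hb.1
    simpa using this
  have hlog : 0 ≤ (Real.log y) ^ 3 := pow_nonneg (Real.log_natCast_nonneg y) _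
  have hgs := gw3_nonneg hz8 hs
  have hgv := gw3_nonneg hz8 hv
  have hl0 : 0 ≤ ∏ p ∈ s.primeFactors, lam2 p (bv p D) (bs p D) :=
    prod_nonneg fun p _ => lam2_nonneg _ _ _
  rcases T.eq_empty_or_nonempty with hE | ⟨q0, hq0⟩
  · rw [hE, card_empty, Nat.cast_zero]
    positivity
  obtain ⟨-, -, a1, a2, a3, a4, a5, a6⟩ := hT q0 hq0
  have hcop : s.Coprime v := by
    apply Nat.coprime_of_dvd
    intro p hp hps hpv
    rw [← a3, dvd_S1R hp a2] at hps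
    rw [← a4, dvd_S2R hp a2] at hpv
    exact hps.2.2.2 hpv.2.2
  have hsg : ∀ p ∈ s.primeFactors, ¬ p ∣ g := by
    intro p hp
    have hpp := Nat.prime_of_mem_primeFactors hp
    have h1 := Nat.dvd_of_mem_primeFactors hp
    rw [← a3, dvd_S1R hpp a2] at h1
    exact h1.2.1
  have hsX : s ^ 4 ≤ X := by
    refine le_trans ?_ hsvu
    have hs1 : 1 ≤ s := dv_pos hs
    have hv1 : 1 ≤ v := dv_pos hv
    have hu1 : 1 ≤ u := dv_pos hu
    have h1 : s ≤ s * v * u := by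
      calc s = s * 1 * 1 := by ring
        _ ≤ s * v * u := Nat.mul_le_mul (Nat.mul_le_mul_left _ hv1) hu1
    calc s ^ 4 ≤ s ^ 8 := Nat.pow_le_pow_right hs1 (by norm_num)
      _ ≤ (s * v * u) ^ 8 := Nat.pow_le_pow_left h1 8
  have hmap : ∀ q ∈ T, q.2 ∈ (Icc 1 X).filter (fun t => t.Coprime s) := by
    intro q hq
    obtain ⟨b0, b1, c1, c2, c3, c4, c5, c6⟩ := hT q hq
    rw [mem_filter]
    refine ⟨b1, Nat.coprime_of_dvd fun p hp hpt hps => ?_⟩
    have hzp := (dv_prime hs hp hps).1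
    rw [← c3, dvd_S1R hp c2] at hps
    obtain ⟨c, hc⟩ := (dvd_F3 hp).1 hps.2.2.1
    exact ndt hb hp hzp c1 hc (Int.natCast_dvd_natCast.2 hpt)
  have hfib : ∀ t ∈ (Icc 1 X).filter (fun t => t.Coprime s),
      ((T.filter (fun q => q.2 = t)).card : ℝ) ≤
      C * X * ((∏ p ∈ s.primeFactors, phi α β g D p (t % p)) * gw 1 3 s) *
      (3 ^ v.primeFactors.card * (gw 1 3 v / v)) * (3 ^ u.primeFactors.card / u) *
      (2 ^ g.primeFactors.card * hf 3 z t) / (Real.log y) ^ 3 := by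
    intro t ht
    have ht1 := (mem_Icc.1 (mem_filter.1 ht).1).1
    have h1 : (T.filter (fun q => q.2 = t)).card =
        ((T.filter (fun q => q.2 = t)).image Prod.fst).card := by
      rw [card_image_of_injOn]
      intro q hq q' hq' hqq
      have h2 := (mem_filter.1 (mem_coe.1 hq)).2
      have h3 := (mem_filter.1 (mem_coe.1 hq')).2
      exact Prod.ext hqq (h2.trans h3.symm)
    rw [h1]
    refine cntT hb hC hsv hy hzy hyX hs hv hu hsvu hcop hg (by omega) D _ ?_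
    intro x hx
    obtain ⟨q, hq, rfl⟩ := mem_image.1 hx
    rw [mem_filter] at hq
    obtain ⟨hq1, rfl⟩ := hq
    obtain ⟨b0, b1, c1, c2, c3, c4, c5, c6⟩ := hT q hq1
    exact ⟨b0, c1, c2, c3, c4, c5, c6⟩
  have h1 : (T.card : ℝ) = ∑ t ∈ (Icc 1 X).filter (fun t => t.Coprime s),
      ((T.filter (fun q => q.2 = t)).card : ℝ) := by
    rw [card_eq_sum_card_fiberwise hmap]
    push_cast
    rfl
  rw [h1]
  refine (sum_le_sum hfib).trans ?_
  have h2 := hav X s (fun p r => phi α β g D p r) (dv_squarefree hs) hsX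
    (fun p r => phi_nonneg _ _ _ _ _ _)
  have h3 : ∏ p ∈ s.primeFactors, ((1 / (p : ℝ)) * ∑ r ∈ (range p).filter (fun r => r ≠ 0),
      phi α β g D p r) ≤ ∏ p ∈ s.primeFactors, lam2 p (bv p D) (bs p D) := by
    refine prod_le_prod (fun p _ => mul_nonneg (by positivity)
      (sum_nonneg fun r _ => phi_nonneg _ _ _ _ _ _)) fun p hp => ?_
    have hpp := Nat.prime_of_mem_primeFactors hp
    exact phi_avg hb D hpp (dv_prime hs hpp (Nat.dvd_of_mem_primeFactors hp)).1 (hsg p hp)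
  have h4 := h2.trans (mul_le_mul_of_nonneg_left h3 (by positivity : (0 : ℝ) ≤ C1 * X))
  have h5 : 0 ≤ C * X * gw 1 3 s * (3 ^ v.primeFactors.card * (gw 1 3 v / v)) *
      (3 ^ u.primeFactors.card / u) * 2 ^ g.primeFactors.card / (Real.log y) ^ 3 := by positivity
  have h6 := mul_le_mul_of_nonneg_left h4 h5
  refine le_trans (le_of_eq ?_) (h6.trans (le_of_eq ?_))
  · rw [mul_sum]
    refine sum_congr rfl fun t _ => ?_
    ring
  · ring

end Pool.Agent.L0h94.FT
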